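import Mathlib

/-! The sum over the rotations, its rotation invariance and its explicit form. -/

namespace Pool.Agent.Lib.MP_c53f59_gt.K60

/-- the sum over all rotations of the products of the powers -/
def T60 {R : Type*} [CommRing R] (c : ZMod 5 → R) (e : ZMod 5 → ℕ) (w : R) : R :=
  ∑ j, ∏ x, (w - c (x + j)) ^ e x

/-- the five numbers 2 cos (2 pi 2^x / 11) in the ring of integers modulo 529 -/
def c529 : ZMod 5 → ZMod 529 := ![60, 424, 443, 517, 142]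

/-- explicit form -/
def T5 {R : Type*} [CommRing R] (y0 y1 y2 y3 y4 : R) (a b c d e : ℕ) : R :=
  y0 ^ a * y1 ^ b * y2 ^ c * y3 ^ d * y4 ^ e + y1 ^ a * y2 ^ b * y3 ^ c * y4 ^ d * y0 ^ e +
  y2 ^ a * y3 ^ b * y4 ^ c * y0 ^ d * y1 ^ e + y3 ^ a * y4 ^ b * y0 ^ c * y1 ^ d * y2 ^ e +
  y4 ^ a * y0 ^ b * y1 ^ c * y2 ^ d * y3 ^ e

theorem sum5 {M : Type*} [AddCommMonoid M] (f : ZMod 5 → M) :
    ∑ x, f x = f 0 + f 1 + f 2 + f 3 + f 4 :=
  Fin.sum_univ_five (f : Fin 5 → M)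

theorem prod5 {M : Type*} [CommMonoid M] (f : ZMod 5 → M) :
    ∏ x, f x = f 0 * f 1 * f 2 * f 3 * f 4 :=
  Fin.prod_univ_five (f : Fin 5 → M)

theorem T60_eq {R : Type*} [CommRing R] (c : ZMod 5 → R) (e : ZMod 5 → ℕ) (w : R) :
    T60 c e w = T5 (w - c 0) (w - c 1) (w - c 2) (w - c 3) (w - c 4) (e 0) (e 1) (e 2) (e 3) (e 4) := by
  unfold T60 T5
  rw [sum5]
  simp only [prod5]
  rfl

theorem T60_rot {R : Type*} [CommRing R] (c : ZMod 5 → R) (e : ZMod 5 → ℕ) (w : R) (s : ZMod 5) :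
    T60 c (fun x => e (x + s)) w = T60 c e w := by
  unfold T60
  refine Fintype.sum_equiv (Equiv.addRight (-s)) _ _ fun j => ?_
  refine Fintype.prod_equiv (Equiv.addRight s) _ _ fun x => ?_
  simp only [Equiv.coe_addRight]
  congr 3
  ring

theorem T60_map {R S : Type*} [CommRing R] [CommRing S] (f : R →+* S) (c : ZMod 5 → R)
    (e : ZMod 5 → ℕ) (w : R) : f (T60 c e w) = T60 (fun x => f (c x)) e (f w) := by
  simp [T60]

theorem two_zeros (e : ZMod 5 → ℕ) (h : ∃ x y, x ≠ y ∧ e x = 0 ∧ e y = 0) :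
    ∃ s, e (0 + s) = 0 ∧ (e (1 + s) = 0 ∨ e (2 + s) = 0) := by
  obtain ⟨x, y, hxy, hx, hy⟩ := h
  have h1 : ∀ x y : ZMod 5, x ≠ y → (y = 1 + x ∨ y = 2 + x ∨ x = 1 + y ∨ x = 2 + y) := by decide
  rcases h1 x y hxy with h | h | h | h
  · exact ⟨x, by simpa using hx, Or.inl (by rw [← h]; exact hy)⟩
  · exact ⟨x, by simpa using hx, Or.inr (by rw [← h]; exact hy)⟩
  · exact ⟨y, by simpa using hy, Or.inl (by rw [← h]; exact hx)⟩
  · exact ⟨y, by simpa using hy, Or.inr (by rw [← h]; exact hx)⟩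

end Pool.Agent.Lib.MP_c53f59_gt.K60
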