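import Pool.Agent.Lib.MP_c53f59_gt.K60.S1Tab

/-! The sieve, first part: two vectors with two zero entries each. -/

namespace Pool.Agent.Lib.MP_c53f59_gt.K60

theorem mem_dec (t : Nat) : ∀ (n N : Nat), mem t n N = true → t ∈ dec n N := by
  intro n
  induction n with
  | zero => intro N h; simp [mem] at h
  | succ n ih =>
    intro N h
    simp only [mem, Bool.or_eq_true] at h
    simp only [dec, List.mem_cons]
    rcases h with h | h
    · left
      exact (Nat.eq_of_beq_eq_true h).symm
    · right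
      exact ih _ h

theorem pw_spec : ∀ l : List Nat, pw l = true →
    ∀ x ∈ l, ∀ y ∈ l, x = y ∨ ok x y = true ∨ ok y x = true := by
  intro l
  induction l with
  | nil => intro _ x hx; simp at hx
  | cons a l ih =>
    intro h x hx y hy
    simp only [pw, Bool.and_eq_true, List.all_eq_true] at h
    obtain ⟨h1, h2⟩ := h
    rcases List.mem_cons.1 hx with rfl | hx'
    · rcases List.mem_cons.1 hy with rfl | hy'
      · left; rfl
      · right; left; exact h1 y hy'
    · rcases List.mem_cons.1 hy with rfl | hy'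
      · right; right; exact h1 x hx'
      · exact ih h2 x hx' y hy'

theorem all22 (f : Nat → Bool) (h : L22.all f = true) (x : Nat) (hx : x < 22) : f x = true := by
  rw [List.all_eq_true] at h
  apply h
  unfold L22
  interval_cases x <;> simp

theorem all23 (f : Nat → Bool) (h : L23.all f = true) (x : Nat) (hx : x < 23) : f x = true := by
  rw [List.all_eq_true] at h
  apply h
  unfold L23
  interval_cases x <;> simp

theorem nth_mem {A : Type} (z : A) : ∀ (l : List A) (n : Nat), nth z l n ∈ l ∨ nth z l n = z := by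
  intro l
  induction l with
  | nil => intro n; right; simp [nth]
  | cons a l ih =>
    intro n
    cases n with
    | zero => left; simp [nth]
    | succ n =>
      simp only [nth]
      rcases ih n with h | h
      · left; exact List.mem_cons_of_mem _ h
      · right; exact h

theorem mem_zero (t k : Nat) (N : Nat) : mem t (cn 0 k) N = false := by
  have : cn 0 k = 0 := by
    simp [cn, lo, Nat.land_eq]
  rw [this]
  rfl

theorem look_two (k1 k2 k3 t t' : Nat) (h3 : k3 < 23) (h : look k1 k2 k3 t = true)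
    (h' : look k1 k2 k3 t' = true) : t = t' ∨ ok t t' = true ∨ ok t' t = true := by
  unfold look at h h'
  have key : nth 0 (nth [] TAB k1) k2 = 0 ∨
      (nth 0 (nth [] TAB k1) k2 ∈ nth [] TAB k1 ∧ nth [] TAB k1 ∈ TAB) := by
    rcases nth_mem ([] : List Nat) TAB k1 with h1 | h1
    · rcases nth_mem 0 (nth [] TAB k1) k2 with h2 | h2
      · exact Or.inr ⟨h2, h1⟩
      · exact Or.inl h2
    · left
      rw [h1]
      rfl
  rcases key with h0 | ⟨h1, h2⟩
  · rw [h0, mem_zero] at h
    exact absurd h (by decide)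
  · have hall := kS2
    rw [List.all_eq_true] at hall
    have ha := hall _ h2
    rw [List.all_eq_true] at ha
    have hb := all23 _ (ha _ h1) k3 h3
    exact pw_spec _ hb _ (mem_dec _ _ _ h) _ (mem_dec _ _ _ h')

/-- values for both shapes through the general vector -/
theorem nT0_eq (d0 d1 d2 d3 d4 p q r : Nat) : nT0 d0 d1 d2 d3 d4 p q r = nT d0 d1 d2 d3 d4 0 p q r := by
  simp [nT0, nT, tm, tm4]

theorem nT1_eq (d0 d1 d2 d3 d4 p q r : Nat) : nT1 d0 d1 d2 d3 d4 p q r = nT d0 d1 d2 d3 d4 p 0 q r := by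
  simp [nT1, nT, tm, tm4]

/-- the eight values agree -/
def Same (a b c d a' b' c' d' : Nat) : Prop :=
  nT 9 13 17 12 19 a b c d = nT 9 13 17 12 19 a' b' c' d' ∧
  nT 10 14 18 13 20 a b c d = nT 10 14 18 13 20 a' b' c' d' ∧
  nT 11 15 19 14 21 a b c d = nT 11 15 19 14 21 a' b' c' d' ∧
  nT 12 16 20 15 22 a b c d = nT 12 16 20 15 22 a' b' c' d' ∧
  nT 14 18 22 17 1 a b c d = nT 14 18 22 17 1 a' b' c' d' ∧
  nT 16 20 1 19 3 a b c d = nT 16 20 1 19 3 a' b' c' d' ∧
  nT 17 21 2 20 4 a b c d = nT 17 21 2 20 4 a' b' c' d' ∧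
  nT 18 22 3 21 5 a b c d = nT 18 22 3 21 5 a' b' c' d'

theorem Same.symm {a b c d a' b' c' d' : Nat} (h : Same a b c d a' b' c' d') :
    Same a' b' c' d' a b c d := by
  obtain ⟨h1, h2, h3, h4, h5, h6, h7, h8⟩ := h
  exact ⟨h1.symm, h2.symm, h3.symm, h4.symm, h5.symm, h6.symm, h7.symm, h8.symm⟩

def Good (a b c d a' b' c' d' : Nat) : Prop :=
  isrot 0 a b c d 0 a' b' c' d' = true ∨
    (cls 0 a b c d ≠ 0 ∧ cls 0 a b c d = cls 0 a' b' c' d')

theorem good_of_okf5 {a b c d a' b' c' d' : Nat} (h : Same a b c d a' b' c' d')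
    (hk : okf5 a b c d a' b' c' d' = true) : Good a b c d a' b' c' d' := by
  obtain ⟨h1, h2, h3, h4, h5, h6, h7, h8⟩ := h
  unfold okf5 at hk
  rw [h5, h6, h7, h8] at hk
  have hb : ∀ n : Nat, Nat.beq n n = true := fun n => Nat.beq_refl n
  simp only [hb, Bool.not_true, Bool.false_or, Bool.or_eq_true, Bool.and_eq_true,
    Bool.not_eq_true'] at hk
  rcases hk with hk | ⟨hk1, hk2⟩
  · left; exact hk
  · right
    refine ⟨?_, Nat.eq_of_beq_eq_true hk2⟩
    intro h0
    rw [h0] at hk1
    exact absurd hk1 (by decide)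

theorem isrot_refl (a b c d e : Nat) : isrot a b c d e a b c d e = true := by
  have hb : ∀ n : Nat, Nat.beq n n = true := fun n => Nat.beq_refl n
  simp [isrot, eq5]

def Dcd (x a b c d : Nat) : Prop :=
  Nat.mul (Nat.div x 10648) (Nat.mod (Nat.div x 484) 22) = a ∧
  Nat.mul (Nat.sub 1 (Nat.div x 10648)) (Nat.mod (Nat.div x 484) 22) = b ∧
  Nat.mod (Nat.div x 22) 22 = c ∧ Nat.mod x 22 = d

theorem okf_eq {x y a b c d a' b' c' d' : Nat} (hx : Dcd x a b c d) (hy : Dcd y a' b' c' d') :
    okf x y = okf5 a b c d a' b' c' d' := by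
  obtain ⟨h1, h2, h3, h4⟩ := hx
  obtain ⟨g1, g2, g3, g4⟩ := hy
  unfold okf
  rw [h1, h2, h3, h4, g1, g2, g3, g4]

theorem nT_lt (d0 d1 d2 d3 d4 a b c d : Nat) : nT d0 d1 d2 d3 d4 a b c d < 23 := by
  unfold nT
  exact Nat.mod_lt _ (by norm_num)

theorem code_look (a b c d : Nat) (ha : a < 22) (hb : b < 22) (hc : c < 22) (hd : d < 22)
    (h : a = 0 ∨ b = 0) : ∃ t, look (nT 9 13 17 12 19 a b c d) (nT 10 14 18 13 20 a b c d)
      (nT 11 15 19 14 21 a b c d) t = true ∧ Nat.mod t 32 = nT 12 16 20 15 22 a b c d ∧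
      Dcd (Nat.div t 32) a b c d := by
  have hT := nT_lt 12 16 20 15 22 a b c d
  by_cases ha0 : a = 0
  · subst ha0
    have hk := all22 _ (all22 _ (all22 _ kS0 b hb) c hc) d hd
    unfold chk0 at hk
    simp only [nT0_eq] at hk
    refine ⟨_, hk, ?_, ?_⟩
    · change (((b * 22 + c) * 22 + d) * 32 + nT 12 16 20 15 22 0 b c d) % 32 = _
      omega
    · generalize nT 12 16 20 15 22 0 b c d = T at *
      have e1 : Nat.div (Nat.add (Nat.mul (Nat.add (Nat.mul (Nat.add (Nat.mul b 22) c) 22) d) 32)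
          T) 32 = (b * 22 + c) * 22 + d := by
        change (((b * 22 + c) * 22 + d) * 32 + T) / 32 = _
        omega
      rw [e1]
      have e2 : Nat.div ((b * 22 + c) * 22 + d) 10648 = 0 := by
        change ((b * 22 + c) * 22 + d) / 10648 = 0
        omega
      have e3 : Nat.mod (Nat.div ((b * 22 + c) * 22 + d) 484) 22 = b := by
        change (((b * 22 + c) * 22 + d) / 484) % 22 = b
        omega
      have e4 : Nat.mod (Nat.div ((b * 22 + c) * 22 + d) 22) 22 = c := by
        change (((b * 22 + c) * 22 + d) / 22) % 22 = c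
        omega
      have e5 : Nat.mod ((b * 22 + c) * 22 + d) 22 = d := by
        change ((b * 22 + c) * 22 + d) % 22 = d
        omega
      unfold Dcd
      rw [e2, e3, e4, e5]
      refine ⟨Nat.zero_mul b, ?_, rfl, rfl⟩
      change (1 - 0) * b = b
      omega
  · have hb0 : b = 0 := by tauto
    subst hb0
    have hk := all22 _ (all22 _ (all22 _ kS1 a ha) c hc) d hd
    unfold chk1 at hk
    simp only [nT1_eq] at hk
    refine ⟨_, hk, ?_, ?_⟩
    · change ((((22 + a) * 22 + c) * 22 + d) * 32 + nT 12 16 20 15 22 a 0 c d) % 32 = _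
      omega
    · generalize nT 12 16 20 15 22 a 0 c d = T at *
      have e1 : Nat.div (Nat.add (Nat.mul (Nat.add (Nat.mul (Nat.add (Nat.mul (Nat.add 22 a) 22) c)
          22) d) 32) T) 32 = ((22 + a) * 22 + c) * 22 + d := by
        change ((((22 + a) * 22 + c) * 22 + d) * 32 + T) / 32 = _
        omega
      rw [e1]
      have e2 : Nat.div (((22 + a) * 22 + c) * 22 + d) 10648 = 1 := by
        change (((22 + a) * 22 + c) * 22 + d) / 10648 = 1
        omega
      have e3 : Nat.mod (Nat.div (((22 + a) * 22 + c) * 22 + d) 484) 22 = a := by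
        change ((((22 + a) * 22 + c) * 22 + d) / 484) % 22 = a
        omega
      have e4 : Nat.mod (Nat.div (((22 + a) * 22 + c) * 22 + d) 22) 22 = c := by
        change ((((22 + a) * 22 + c) * 22 + d) / 22) % 22 = c
        omega
      have e5 : Nat.mod (((22 + a) * 22 + c) * 22 + d) 22 = d := by
        change (((22 + a) * 22 + c) * 22 + d) % 22 = d
        omega
      unfold Dcd
      rw [e2, e3, e4, e5]
      refine ⟨?_, ?_, rfl, rfl⟩
      · change 1 * a = a
        omega
      · change (1 - 1) * a = 0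
        omega

/-- the sieve for two vectors with two zero entries each -/
theorem sieve2 (a b c d a' b' c' d' : Nat) (ha : a < 22) (hb : b < 22) (hc : c < 22) (hd : d < 22)
    (h : a = 0 ∨ b = 0) (ha' : a' < 22) (hb' : b' < 22) (hc' : c' < 22) (hd' : d' < 22)
    (h' : a' = 0 ∨ b' = 0) (hS : Same a b c d a' b' c' d') :
    Good a b c d a' b' c' d' ∨ Good a' b' c' d' a b c d := by
  obtain ⟨t, ht1, ht2, ht3⟩ := code_look a b c d ha hb hc hd h
  obtain ⟨t', ht1', ht2', ht3'⟩ := code_look a' b' c' d' ha' hb' hc' hd' h'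
  have hS' := hS
  obtain ⟨h1, h2, h3, h4, -⟩ := hS
  rw [← h1, ← h2, ← h3] at ht1'
  rw [← h4] at ht2'
  have hb1 : Nat.beq (Nat.mod t 32) (Nat.mod t' 32) = true := by
    rw [ht2, ht2']; exact Nat.beq_refl _
  have hb2 : Nat.beq (Nat.mod t' 32) (Nat.mod t 32) = true := by
    rw [ht2, ht2']; exact Nat.beq_refl _
  rcases look_two _ _ _ t t' (nT_lt _ _ _ _ _ _ _ _ _) ht1 ht1' with h5 | h5 | h5
  · left
    subst h5
    obtain ⟨g1, g2, g3, g4⟩ := ht3
    obtain ⟨g1', g2', g3', g4'⟩ := ht3'
    left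
    rw [← g1, ← g2, ← g3, ← g4, ← g1', ← g2', ← g3', ← g4']
    exact isrot_refl _ _ _ _ _
  · left
    unfold ok at h5
    rw [hb1, okf_eq ht3 ht3', Bool.not_true, Bool.false_or] at h5
    exact good_of_okf5 hS' h5
  · right
    unfold ok at h5
    rw [hb2, okf_eq ht3' ht3, Bool.not_true, Bool.false_or] at h5
    exact good_of_okf5 hS'.symm h5

end Pool.Agent.Lib.MP_c53f59_gt.K60
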