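import Pool.Agent.Lib.MP_c53f59_gt.K60.S2Tab
import Pool.Agent.Lib.MP_c53f59_gt.K60.S1

/-! The linear systems of the descent have only the zero solution. -/

namespace Pool.Agent.Lib.MP_c53f59_gt.K60

instance fact23 : Fact (Nat.Prime 23) := ⟨by norm_num⟩

theorem h23 : (23 : ZMod 23) = 0 := by decide

theorem cast_u3 (x y z p q r : ℕ) : ((u3 x y z p q r : ℕ) : ZMod 23) = x ^ p * y ^ q * z ^ r := by
  change (((x ^ p * y ^ q * z ^ r) % 23 : ℕ) : ZMod 23) = _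
  rw [ZMod.natCast_mod]
  push_cast
  rfl

theorem cast_u4 (x y z u a b c d : ℕ) :
    ((u4 x y z u a b c d : ℕ) : ZMod 23) = x ^ a * y ^ b * z ^ c * u ^ d := by
  change (((x ^ a * y ^ b * z ^ c * u ^ d) % 23 : ℕ) : ZMod 23) = _
  rw [ZMod.natCast_mod]
  push_cast
  rfl

theorem cast_dt (u0 u1 u2 u3 u4 t0 t1 t2 t3 t4 : ℕ) :
    ((dt u0 u1 u2 u3 u4 t0 t1 t2 t3 t4 : ℕ) : ZMod 23) =
      u0 * t0 + u1 * t1 + u2 * t2 + u3 * t3 + u4 * t4 := by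
  change ((u0 * t0 + u1 * t1 + u2 * t2 + u3 * t3 + u4 * t4 : ℕ) : ZMod 23) = _
  push_cast
  rfl

theorem cast_add22 (x y : ℕ) : ((Nat.add x (Nat.mul 22 y) : ℕ) : ZMod 23) = x - y := by
  change ((x + 22 * y : ℕ) : ZMod 23) = _
  push_cast
  linear_combination (y : ZMod 23) * h23

/-- the linear equation at one point, for the residue vector (0,a,b,c,d) -/
def Lin (d0 d1 d2 d3 d4 t0 t1 t2 t3 t4 a b c d : ℕ) (x0 x1 x2 x3 x4 : ZMod 23) : Prop :=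
  ((d1 : ZMod 23) ^ a * (d2 : ZMod 23) ^ b * (d3 : ZMod 23) ^ c * (d4 : ZMod 23) ^ d) *
    (x0 * t0 + x1 * t1 + x2 * t2 + x3 * t3 + x4 * t4) +
  ((d2 : ZMod 23) ^ a * (d3 : ZMod 23) ^ b * (d4 : ZMod 23) ^ c * (d0 : ZMod 23) ^ d) *
    (x0 * t1 + x1 * t2 + x2 * t3 + x3 * t4 + x4 * t0) +
  ((d3 : ZMod 23) ^ a * (d4 : ZMod 23) ^ b * (d0 : ZMod 23) ^ c * (d1 : ZMod 23) ^ d) *
    (x0 * t2 + x1 * t3 + x2 * t4 + x3 * t0 + x4 * t1) +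
  ((d4 : ZMod 23) ^ a * (d0 : ZMod 23) ^ b * (d1 : ZMod 23) ^ c * (d2 : ZMod 23) ^ d) *
    (x0 * t3 + x1 * t4 + x2 * t0 + x3 * t1 + x4 * t2) +
  ((d0 : ZMod 23) ^ a * (d1 : ZMod 23) ^ b * (d2 : ZMod 23) ^ c * (d3 : ZMod 23) ^ d) *
    (x0 * t4 + x1 * t0 + x2 * t1 + x3 * t2 + x4 * t3) = 0

theorem nd2_kill (X Y X' Y' : ℕ) (x y : ZMod 23) (h : nd2 X Y X' Y' = true)
    (h1 : (X : ZMod 23) * x + Y * y = 0) (h2 : (X' : ZMod 23) * x + Y' * y = 0) :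
    x = 0 ∧ y = 0 := by
  have hne : (X : ZMod 23) * Y' - Y * X' ≠ 0 := by
    intro h0
    have h3 : ((X * Y' : ℕ) : ZMod 23) = ((Y * X' : ℕ) : ZMod 23) := by
      push_cast
      linear_combination h0
    rw [ZMod.natCast_eq_natCast_iff'] at h3
    unfold nd2 at h
    have h4 : Nat.beq (Nat.mod (Nat.mul X Y') 23) (Nat.mod (Nat.mul Y X') 23) = true := by
      change Nat.beq ((X * Y') % 23) ((Y * X') % 23) = true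
      rw [h3]
      exact Nat.beq_refl _
    rw [h4] at h
    exact absurd h (by decide)
  constructor
  · have : ((X : ZMod 23) * Y' - Y * X') * x = 0 := by
      linear_combination (Y' : ZMod 23) * h1 - (Y : ZMod 23) * h2
    exact (mul_eq_zero.1 this).resolve_left hne
  · have : ((X : ZMod 23) * Y' - Y * X') * y = 0 := by
      linear_combination (X : ZMod 23) * h2 - (X' : ZMod 23) * h1
    exact (mul_eq_zero.1 this).resolve_left hne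

theorem row0 (d0 d1 d2 d3 d4 t0 t1 t2 t3 t4 p q r : ℕ) (x2 x3 x4 : ZMod 23)
    (hs : x2 + x3 + x4 = 0) (h : Lin d0 d1 d2 d3 d4 t0 t1 t2 t3 t4 0 p q r 0 0 x2 x3 x4) :
    ((X0 d0 d1 d2 d3 d4 t0 t1 t2 t3 t4 p q r : ℕ) : ZMod 23) * x2 +
      ((Y0 d0 d1 d2 d3 d4 t0 t1 t2 t3 t4 p q r : ℕ) : ZMod 23) * x3 = 0 := by
  unfold X0 Y0
  rw [cast_add22, cast_add22]
  simp only [cast_dt, cast_u3]
  unfold Lin at h
  have hx : x4 = - x2 - x3 := by linear_combination hs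
  subst hx
  linear_combination h

theorem row1 (d0 d1 d2 d3 d4 t0 t1 t2 t3 t4 p q r : ℕ) (x1 x3 x4 : ZMod 23)
    (hs : x1 + x3 + x4 = 0) (h : Lin d0 d1 d2 d3 d4 t0 t1 t2 t3 t4 p 0 q r 0 x1 0 x3 x4) :
    ((X1 d0 d1 d2 d3 d4 t0 t1 t2 t3 t4 p q r : ℕ) : ZMod 23) * x1 +
      ((Y1 d0 d1 d2 d3 d4 t0 t1 t2 t3 t4 p q r : ℕ) : ZMod 23) * x3 = 0 := by
  unfold X1 Y1
  rw [cast_add22, cast_add22]
  simp only [cast_dt, cast_u3]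
  unfold Lin at h
  have hx : x4 = - x1 - x3 := by linear_combination hs
  subst hx
  linear_combination h

/-- the linear equations at the eight points -/
def Lin8 (a b c d : ℕ) (x0 x1 x2 x3 x4 : ZMod 23) : Prop :=
  Lin 9 13 17 12 19 19 20 4 5 21 a b c d x0 x1 x2 x3 x4 ∧
  Lin 10 14 18 13 20 6 9 1 15 15 a b c d x0 x1 x2 x3 x4 ∧
  Lin 11 15 19 14 21 1 20 12 6 14 a b c d x0 x1 x2 x3 x4 ∧
  Lin 12 16 20 15 22 11 16 3 8 17 a b c d x0 x1 x2 x3 x4 ∧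
  Lin 14 18 22 17 1 21 15 4 15 6 a b c d x0 x1 x2 x3 x4 ∧
  Lin 16 20 1 19 3 15 11 19 17 19 a b c d x0 x1 x2 x3 x4 ∧
  Lin 17 21 2 20 4 3 8 15 2 1 a b c d x0 x1 x2 x3 x4 ∧
  Lin 18 22 3 21 5 9 5 8 6 6 a b c d x0 x1 x2 x3 x4

theorem all21 (f : Nat → Bool) (h : L21.all f = true) (x : Nat) (hx : x < 22) (h0 : x ≠ 0) :
    f x = true := by
  rw [List.all_eq_true] at h
  apply h
  unfold L21
  interval_cases x <;> simp at h0 ⊢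

theorem desc0 (p q r : ℕ) (hp : p < 22) (hq : q < 22) (hr : r < 22) (hp0 : p ≠ 0) (hq0 : q ≠ 0)
    (hr0 : r ≠ 0) (x2 x3 x4 : ZMod 23) (hs : x2 + x3 + x4 = 0)
    (h : Lin8 0 p q r 0 0 x2 x3 x4) : x2 = 0 ∧ x3 = 0 ∧ x4 = 0 := by
  have hk := all21 _ (all21 _ (all21 _ kB0 p hp hp0) q hq hq0) r hr hr0
  obtain ⟨g0, g1, g2, g3, -, g7, g8, -⟩ := h
  have k0 := row0 _ _ _ _ _ _ _ _ _ _ p q r x2 x3 x4 hs g0
  have k1 := row0 _ _ _ _ _ _ _ _ _ _ p q r x2 x3 x4 hs g1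
  have k2 := row0 _ _ _ _ _ _ _ _ _ _ p q r x2 x3 x4 hs g2
  have k3 := row0 _ _ _ _ _ _ _ _ _ _ p q r x2 x3 x4 hs g3
  have k7 := row0 _ _ _ _ _ _ _ _ _ _ p q r x2 x3 x4 hs g7
  have k8 := row0 _ _ _ _ _ _ _ _ _ _ p q r x2 x3 x4 hs g8
  unfold cB0 at hk
  simp only [Bool.or_eq_true] at hk
  have hf : x2 = 0 ∧ x3 = 0 := by
    rcases hk with hk | hk | hk
    · exact nd2_kill _ _ _ _ _ _ hk k1 k8
    · exact nd2_kill _ _ _ _ _ _ hk k2 k7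
    · exact nd2_kill _ _ _ _ _ _ hk k0 k3
  refine ⟨hf.1, hf.2, ?_⟩
  rw [hf.1, hf.2] at hs
  simpa using hs

theorem desc1 (p q r : ℕ) (hp : p < 22) (hq : q < 22) (hr : r < 22) (hp0 : p ≠ 0) (hq0 : q ≠ 0)
    (hr0 : r ≠ 0) (x1 x3 x4 : ZMod 23) (hs : x1 + x3 + x4 = 0)
    (h : Lin8 p 0 q r 0 x1 0 x3 x4) : x1 = 0 ∧ x3 = 0 ∧ x4 = 0 := by
  have hk := all21 _ (all21 _ (all21 _ kB1 p hp hp0) q hq hq0) r hr hr0
  obtain ⟨g0, g1, g2, g3, -, g7, g8, -⟩ := h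
  have k0 := row1 _ _ _ _ _ _ _ _ _ _ p q r x1 x3 x4 hs g0
  have k1 := row1 _ _ _ _ _ _ _ _ _ _ p q r x1 x3 x4 hs g1
  have k2 := row1 _ _ _ _ _ _ _ _ _ _ p q r x1 x3 x4 hs g2
  have k3 := row1 _ _ _ _ _ _ _ _ _ _ p q r x1 x3 x4 hs g3
  have k7 := row1 _ _ _ _ _ _ _ _ _ _ p q r x1 x3 x4 hs g7
  have k8 := row1 _ _ _ _ _ _ _ _ _ _ p q r x1 x3 x4 hs g8
  unfold cB1 at hk
  simp only [Bool.or_eq_true] at hk
  have hf : x1 = 0 ∧ x3 = 0 := by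
    rcases hk with hk | hk | hk
    · exact nd2_kill _ _ _ _ _ _ hk k1 k8
    · exact nd2_kill _ _ _ _ _ _ hk k2 k7
    · exact nd2_kill _ _ _ _ _ _ hk k0 k3
  refine ⟨hf.1, hf.2, ?_⟩
  rw [hf.1, hf.2] at hs
  simpa using hs

/-- four equations with nonzero determinant -/
theorem det_kill {F : Type*} [Field F] (a0 a1 a2 a3 b0 b1 b2 b3 c0 c1 c2 c3 d0 d1 d2 d3
    x0 x1 x2 x3 : F) (h1 : a0 * x0 + a1 * x1 + a2 * x2 + a3 * x3 = 0)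
    (h2 : b0 * x0 + b1 * x1 + b2 * x2 + b3 * x3 = 0)
    (h3 : c0 * x0 + c1 * x1 + c2 * x2 + c3 * x3 = 0)
    (h4 : d0 * x0 + d1 * x1 + d2 * x2 + d3 * x3 = 0)
    (hd : (a0 * b1 - a1 * b0) * (c2 * d3 - c3 * d2) - (a0 * b2 - a2 * b0) * (c1 * d3 - c3 * d1) +
      (a0 * b3 - a3 * b0) * (c1 * d2 - c2 * d1) + (a1 * b2 - a2 * b1) * (c0 * d3 - c3 * d0) -
      (a1 * b3 - a3 * b1) * (c0 * d2 - c2 * d0) + (a2 * b3 - a3 * b2) * (c0 * d1 - c1 * d0) ≠ 0) :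
    x0 = 0 ∧ x1 = 0 ∧ x2 = 0 ∧ x3 = 0 := by
  set D := (a0 * b1 - a1 * b0) * (c2 * d3 - c3 * d2) - (a0 * b2 - a2 * b0) * (c1 * d3 - c3 * d1) +
      (a0 * b3 - a3 * b0) * (c1 * d2 - c2 * d1) + (a1 * b2 - a2 * b1) * (c0 * d3 - c3 * d0) -
      (a1 * b3 - a3 * b1) * (c0 * d2 - c2 * d0) + (a2 * b3 - a3 * b2) * (c0 * d1 - c1 * d0) with hD
  have e0 : D * x0 = 0 := by
    rw [hD]
    linear_combination
      (b1 * (c2 * d3 - c3 * d2) - b2 * (c1 * d3 - c3 * d1) + b3 * (c1 * d2 - c2 * d1)) * h1 -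
      (a1 * (c2 * d3 - c3 * d2) - a2 * (c1 * d3 - c3 * d1) + a3 * (c1 * d2 - c2 * d1)) * h2 +
      (a1 * (b2 * d3 - b3 * d2) - a2 * (b1 * d3 - b3 * d1) + a3 * (b1 * d2 - b2 * d1)) * h3 -
      (a1 * (b2 * c3 - b3 * c2) - a2 * (b1 * c3 - b3 * c1) + a3 * (b1 * c2 - b2 * c1)) * h4
  have e1 : D * x1 = 0 := by
    rw [hD]
    linear_combination
      -(b0 * (c2 * d3 - c3 * d2) - b2 * (c0 * d3 - c3 * d0) + b3 * (c0 * d2 - c2 * d0)) * h1 +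
      (a0 * (c2 * d3 - c3 * d2) - a2 * (c0 * d3 - c3 * d0) + a3 * (c0 * d2 - c2 * d0)) * h2 -
      (a0 * (b2 * d3 - b3 * d2) - a2 * (b0 * d3 - b3 * d0) + a3 * (b0 * d2 - b2 * d0)) * h3 +
      (a0 * (b2 * c3 - b3 * c2) - a2 * (b0 * c3 - b3 * c0) + a3 * (b0 * c2 - b2 * c0)) * h4
  have e2 : D * x2 = 0 := by
    rw [hD]
    linear_combination
      (b0 * (c1 * d3 - c3 * d1) - b1 * (c0 * d3 - c3 * d0) + b3 * (c0 * d1 - c1 * d0)) * h1 -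
      (a0 * (c1 * d3 - c3 * d1) - a1 * (c0 * d3 - c3 * d0) + a3 * (c0 * d1 - c1 * d0)) * h2 +
      (a0 * (b1 * d3 - b3 * d1) - a1 * (b0 * d3 - b3 * d0) + a3 * (b0 * d1 - b1 * d0)) * h3 -
      (a0 * (b1 * c3 - b3 * c1) - a1 * (b0 * c3 - b3 * c0) + a3 * (b0 * c1 - b1 * c0)) * h4
  have e3 : D * x3 = 0 := by
    rw [hD]
    linear_combination
      -(b0 * (c1 * d2 - c2 * d1) - b1 * (c0 * d2 - c2 * d0) + b2 * (c0 * d1 - c1 * d0)) * h1 +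
      (a0 * (c1 * d2 - c2 * d1) - a1 * (c0 * d2 - c2 * d0) + a2 * (c0 * d1 - c1 * d0)) * h2 -
      (a0 * (b1 * d2 - b2 * d1) - a1 * (b0 * d2 - b2 * d0) + a2 * (b0 * d1 - b1 * d0)) * h3 +
      (a0 * (b1 * c2 - b2 * c1) - a1 * (b0 * c2 - b2 * c0) + a2 * (b0 * c1 - b1 * c0)) * h4
  exact ⟨(mul_eq_zero.1 e0).resolve_left hd, (mul_eq_zero.1 e1).resolve_left hd,
    (mul_eq_zero.1 e2).resolve_left hd, (mul_eq_zero.1 e3).resolve_left hd⟩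

theorem cast_mn (a b c d : ℕ) : ((mn a b c d : ℕ) : ZMod 23) = a * d - b * c := by
  unfold mn
  rw [cast_add22]
  change (((a * d : ℕ) : ZMod 23)) - ((b * c : ℕ) : ZMod 23) = _
  push_cast
  rfl

theorem det4_kill (a0 a1 a2 a3 b0 b1 b2 b3 c0 c1 c2 c3 d0 d1 d2 d3 : ℕ) (x0 x1 x2 x3 : ZMod 23)
    (h : Bool.not (Nat.beq (det4 a0 a1 a2 a3 b0 b1 b2 b3 c0 c1 c2 c3 d0 d1 d2 d3) 0) = true)
    (h1 : (a0 : ZMod 23) * x0 + a1 * x1 + a2 * x2 + a3 * x3 = 0)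
    (h2 : (b0 : ZMod 23) * x0 + b1 * x1 + b2 * x2 + b3 * x3 = 0)
    (h3 : (c0 : ZMod 23) * x0 + c1 * x1 + c2 * x2 + c3 * x3 = 0)
    (h4 : (d0 : ZMod 23) * x0 + d1 * x1 + d2 * x2 + d3 * x3 = 0) :
    x0 = 0 ∧ x1 = 0 ∧ x2 = 0 ∧ x3 = 0 := by
  refine det_kill _ _ _ _ _ _ _ _ _ _ _ _ _ _ _ _ x0 x1 x2 x3 h1 h2 h3 h4 ?_
  intro h0
  have hcast : ((det4 a0 a1 a2 a3 b0 b1 b2 b3 c0 c1 c2 c3 d0 d1 d2 d3 : ℕ) : ZMod 23) = 0 := by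
    change (((mn a0 a1 b0 b1 * mn c2 c3 d2 d3 + 22 * (mn a0 a2 b0 b2 * mn c1 c3 d1 d3) +
      mn a0 a3 b0 b3 * mn c1 c2 d1 d2 + mn a1 a2 b1 b2 * mn c0 c3 d0 d3 +
      22 * (mn a1 a3 b1 b3 * mn c0 c2 d0 d2) + mn a2 a3 b2 b3 * mn c0 c1 d0 d1) % 23 : ℕ) :
      ZMod 23) = 0
    rw [ZMod.natCast_mod]
    push_cast
    simp only [cast_mn]
    linear_combination h0 + (((a0 : ZMod 23) * b2 - a2 * b0) * (c1 * d3 - c3 * d1) +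
      ((a1 : ZMod 23) * b3 - a3 * b1) * (c0 * d2 - c2 * d0)) * h23
  have hlt : det4 a0 a1 a2 a3 b0 b1 b2 b3 c0 c1 c2 c3 d0 d1 d2 d3 < 23 :=
    Nat.mod_lt _ (by norm_num)
  rw [ZMod.natCast_eq_zero_iff] at hcast
  have : det4 a0 a1 a2 a3 b0 b1 b2 b3 c0 c1 c2 c3 d0 d1 d2 d3 = 0 :=
    Nat.eq_zero_of_dvd_of_lt hcast hlt
  rw [this] at h
  exact absurd h (by decide)

theorem rowR (d0 d1 d2 d3 d4 t0 t1 t2 t3 t4 a b c d : ℕ) (x0 x1 x2 x3 x4 : ZMod 23)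
    (hs : x0 + x1 + x2 + x3 + x4 = 0)
    (h : Lin d0 d1 d2 d3 d4 t0 t1 t2 t3 t4 a b c d x0 x1 x2 x3 x4) :
    ((R1 d0 d1 d2 d3 d4 t0 t1 t2 t3 t4 a b c d : ℕ) : ZMod 23) * x1 +
    ((R2 d0 d1 d2 d3 d4 t0 t1 t2 t3 t4 a b c d : ℕ) : ZMod 23) * x2 +
    ((R3 d0 d1 d2 d3 d4 t0 t1 t2 t3 t4 a b c d : ℕ) : ZMod 23) * x3 +
    ((R4 d0 d1 d2 d3 d4 t0 t1 t2 t3 t4 a b c d : ℕ) : ZMod 23) * x4 = 0 := by
  unfold R1 R2 R3 R4 rr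
  simp only [cast_add22, cast_dt, cast_u4]
  unfold Lin at h
  have hx : x0 = - x1 - x2 - x3 - x4 := by linear_combination hs
  subst hx
  linear_combination h

/-- if at least three residues vanish (one besides the first and one of a, b) -/
theorem desc2 (a b c d : ℕ) (ha : a < 22) (hb : b < 22) (hc : c < 22) (hd : d < 22)
    (hz : (a = 0 ∧ (b = 0 ∨ c = 0 ∨ d = 0)) ∨ (b = 0 ∧ (c = 0 ∨ d = 0)))
    (hne : ¬ (a = 0 ∧ b = 0 ∧ c = 0 ∧ d = 0)) (x0 x1 x2 x3 x4 : ZMod 23)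
    (hs : x0 + x1 + x2 + x3 + x4 = 0) (h : Lin8 a b c d x0 x1 x2 x3 x4) :
    x0 = 0 ∧ x1 = 0 ∧ x2 = 0 ∧ x3 = 0 ∧ x4 = 0 := by
  have hk : cC a b c d = true := by
    have hA : ∀ q r : ℕ, q < 22 → r < 22 → (cC 0 0 q r && (cC 0 q 0 r && (cC 0 q r 0 &&
        (cC q 0 0 r && cC q 0 r 0)))) = true := fun q r hq hr => all22 _ (all22 _ kC0 q hq) r hr
    simp only [Bool.and_eq_true] at hA
    rcases hz with ⟨rfl, rfl | rfl | rfl⟩ | ⟨rfl, rfl | rfl⟩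
    · exact (hA c d hc hd).1
    · exact (hA b d hb hd).2.1
    · exact (hA b c hb hc).2.2.1
    · exact (hA a d ha hd).2.2.2.1
    · exact (hA a c ha hc).2.2.2.2
  obtain ⟨g0, g1, g2, g3, -, g7, g8, g9⟩ := h
  have k0 := rowR _ _ _ _ _ _ _ _ _ _ a b c d x0 x1 x2 x3 x4 hs g0
  have k1 := rowR _ _ _ _ _ _ _ _ _ _ a b c d x0 x1 x2 x3 x4 hs g1
  have k2 := rowR _ _ _ _ _ _ _ _ _ _ a b c d x0 x1 x2 x3 x4 hs g2
  have k3 := rowR _ _ _ _ _ _ _ _ _ _ a b c d x0 x1 x2 x3 x4 hs g3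
  have k7 := rowR _ _ _ _ _ _ _ _ _ _ a b c d x0 x1 x2 x3 x4 hs g7
  have k8 := rowR _ _ _ _ _ _ _ _ _ _ a b c d x0 x1 x2 x3 x4 hs g8
  have k9 := rowR _ _ _ _ _ _ _ _ _ _ a b c d x0 x1 x2 x3 x4 hs g9
  unfold cC at hk
  rw [Bool.or_eq_true, Bool.or_eq_true] at hk
  have hf : x1 = 0 ∧ x2 = 0 ∧ x3 = 0 ∧ x4 = 0 := by
    rcases hk with hk | hk | hk
    · exfalso
      have := Nat.eq_of_beq_eq_true hk
      change a + b + c + d = 0 at this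
      omega
    · exact det4_kill _ _ _ _ _ _ _ _ _ _ _ _ _ _ _ _ _ _ _ _ hk k0 k3 k7 k8
    · exact det4_kill _ _ _ _ _ _ _ _ _ _ _ _ _ _ _ _ _ _ _ _ hk k0 k1 k2 k9
  obtain ⟨f1, f2, f3, f4⟩ := hf
  refine ⟨?_, f1, f2, f3, f4⟩
  rw [f1, f2, f3, f4] at hs
  simpa using hs

end Pool.Agent.Lib.MP_c53f59_gt.K60
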