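import Pool.Agent.Lib.MP_c53f59_gt.K60.ATab
import Pool.Agent.Lib.MP_c53f59_gt.K60.S2
import Pool.Agent.Lib.MP_c53f59_gt.K60.Base

/-! Two or more zero entries against exactly one: impossible modulo 23. -/

namespace Pool.Agent.Lib.MP_c53f59_gt.K60

def c23 : ZMod 5 → ZMod 23 := ![14, 10, 6, 11, 4]

theorem T5_shift {R : Type*} [CommRing R] (y0 y1 y2 y3 y4 : R) (a b c d e : ℕ) :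
    T5 y0 y1 y2 y3 y4 a b c d e = T5 y1 y2 y3 y4 y0 a b c d e := by
  unfold T5
  ring

theorem T5_mod {R : Type*} [CommRing R] (y0 y1 y2 y3 y4 : R) (h0 : y0 ^ 22 = 1) (h1 : y1 ^ 22 = 1)
    (h2 : y2 ^ 22 = 1) (h3 : y3 ^ 22 = 1) (h4 : y4 ^ 22 = 1) (a b c d e : ℕ) :
    T5 y0 y1 y2 y3 y4 a b c d e = T5 y0 y1 y2 y3 y4 (a % 22) (b % 22) (c % 22) (d % 22) (e % 22) := by
  unfold T5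
  have g0 : ∀ n, y0 ^ n = y0 ^ (n % 22) := fun n => pow_eq_pow_mod n h0
  have g1 : ∀ n, y1 ^ n = y1 ^ (n % 22) := fun n => pow_eq_pow_mod n h1
  have g2 : ∀ n, y2 ^ n = y2 ^ (n % 22) := fun n => pow_eq_pow_mod n h2
  have g3 : ∀ n, y3 ^ n = y3 ^ (n % 22) := fun n => pow_eq_pow_mod n h3
  have g4 : ∀ n, y4 ^ n = y4 ^ (n % 22) := fun n => pow_eq_pow_mod n h4
  rw [g0 a, g1 b, g2 c, g3 d, g4 e, g1 a, g2 b, g3 c, g4 d, g0 e, g2 a, g3 b, g4 c, g0 d, g1 e,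
    g3 a, g4 b, g0 c, g1 d, g2 e, g4 a, g0 b, g1 c, g2 d, g3 e]

theorem cast_nT (d0 d1 d2 d3 d4 a b c d : ℕ) : ((nT d0 d1 d2 d3 d4 a b c d : ℕ) : ZMod 23) =
    T5 (d0 : ZMod 23) d1 d2 d3 d4 0 a b c d := by
  change (((d1 ^ a * d2 ^ b * d3 ^ c * d4 ^ d + d2 ^ a * d3 ^ b * d4 ^ c * d0 ^ d +
    d3 ^ a * d4 ^ b * d0 ^ c * d1 ^ d + d4 ^ a * d0 ^ b * d1 ^ c * d2 ^ d +
    d0 ^ a * d1 ^ b * d2 ^ c * d3 ^ d) % 23 : ℕ) : ZMod 23) = _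
  rw [ZMod.natCast_mod]
  unfold T5
  push_cast
  ring

theorem cast_inj23 (x y : ℕ) (hx : x < 23) (hy : y < 23) (h : (x : ZMod 23) = y) : x = y := by
  rw [ZMod.natCast_eq_natCast_iff'] at h
  rwa [Nat.mod_eq_of_lt hx, Nat.mod_eq_of_lt hy] at h

theorem cast_pr5 (R0 R1 R2 R3 R4 a b c d e : ℕ) : ((pr5 R0 R1 R2 R3 R4 a b c d e : ℕ) : ZMod 23) =
    R0 ^ a * R1 ^ b * R2 ^ c * R3 ^ d * R4 ^ e := by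
  change (((R0 ^ a * R1 ^ b * R2 ^ c * R3 ^ d * R4 ^ e) % 23 : ℕ) : ZMod 23) = _
  rw [ZMod.natCast_mod]
  push_cast
  rfl

theorem pr5_lt (R0 R1 R2 R3 R4 a b c d e : ℕ) : pr5 R0 R1 R2 R3 R4 a b c d e < 23 :=
  Nat.mod_lt _ (by norm_num)

theorem cast_nG (l0 l1 l2 l3 l4 G1 G2 G3 G4 : ℕ) :
    ((nG l0 l1 l2 l3 l4 G1 G2 G3 G4 : ℕ) : ZMod 23) =
    (G1 : ZMod 23) ^ l1 * (G2 : ZMod 23) ^ l2 * (G3 : ZMod 23) ^ l3 * (G4 : ZMod 23) ^ l4 +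
    (G1 : ZMod 23) ^ l2 * (G2 : ZMod 23) ^ l3 * (G3 : ZMod 23) ^ l4 * (G4 : ZMod 23) ^ l0 +
    (G1 : ZMod 23) ^ l3 * (G2 : ZMod 23) ^ l4 * (G3 : ZMod 23) ^ l0 * (G4 : ZMod 23) ^ l1 +
    (G1 : ZMod 23) ^ l4 * (G2 : ZMod 23) ^ l0 * (G3 : ZMod 23) ^ l1 * (G4 : ZMod 23) ^ l2 +
    (G1 : ZMod 23) ^ l0 * (G2 : ZMod 23) ^ l1 * (G3 : ZMod 23) ^ l2 * (G4 : ZMod 23) ^ l3 := by
  change (((G1 ^ l1 * G2 ^ l2 * G3 ^ l3 * G4 ^ l4 + G1 ^ l2 * G2 ^ l3 * G3 ^ l4 * G4 ^ l0 +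
    G1 ^ l3 * G2 ^ l4 * G3 ^ l0 * G4 ^ l1 + G1 ^ l4 * G2 ^ l0 * G3 ^ l1 * G4 ^ l2 +
    G1 ^ l0 * G2 ^ l1 * G3 ^ l2 * G4 ^ l3) % 23 : ℕ) : ZMod 23) = _
  rw [ZMod.natCast_mod]
  push_cast
  rfl

theorem nG_lt (l0 l1 l2 l3 l4 G1 G2 G3 G4 : ℕ) : nG l0 l1 l2 l3 l4 G1 G2 G3 G4 < 23 :=
  Nat.mod_lt _ (by norm_num)

/-- values at the eight points, as T5 with natural numbers -/
def At8 (f : ZMod 23 → ZMod 23 → ZMod 23 → ZMod 23 → ZMod 23 → Prop) : Prop :=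
  f 9 13 17 12 19 ∧ f 10 14 18 13 20 ∧ f 11 15 19 14 21 ∧ f 12 16 20 15 22 ∧ f 14 18 22 17 1 ∧ f 16 20 1 19 3 ∧ f 17 21 2 20 4 ∧ f 18 22 3 21 5

theorem at8_of (e e' : ZMod 5 → ℕ) (h : ∀ w : ZMod 23, T60 c23 e w = T60 c23 e' w) :
    At8 (fun y0 y1 y2 y3 y4 => T5 y0 y1 y2 y3 y4 (e 0) (e 1) (e 2) (e 3) (e 4) =
      T5 y0 y1 y2 y3 y4 (e' 0) (e' 1) (e' 2) (e' 3) (e' 4)) := by
  simp only [T60_eq] at h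
  refine ⟨h 0, h 1, h 2, h 3, h 5, h 7, h 8, h 9⟩

theorem exp_swap (D : ZMod 23) (l b : ℕ) (h : D = 5 ^ l) : D ^ b = ((5 : ZMod 23) ^ b) ^ l := by
  rw [h, ← pow_mul, ← pow_mul, mul_comm]

theorem five22 (b : ℕ) : ((5 : ZMod 23) ^ b) ^ 22 = 1 := by
  rw [← pow_mul, mul_comm, pow_mul]
  have : (5 : ZMod 23) ^ 22 = 1 := by decide
  rw [this, one_pow]

/-- the five values at the points c j determine the powers of 5 and satisfy a relation -/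
theorem logs (R0 R1 R2 R3 R4 : ℕ) (b1 b2 b3 b4 : ℕ)
    (h0 : (R0 : ZMod 23) = 4 ^ b1 * 8 ^ b2 * 3 ^ b3 * 10 ^ b4)
    (h1 : (R1 : ZMod 23) = 4 ^ b1 * 22 ^ b2 * 6 ^ b3 * 19 ^ b4)
    (h2 : (R2 : ZMod 23) = 18 ^ b1 * 2 ^ b2 * 15 ^ b3 * 19 ^ b4)
    (h3 : (R3 : ZMod 23) = 7 ^ b1 * 20 ^ b2 * 1 ^ b3 * 5 ^ b4)
    (h4 : (R4 : ZMod 23) = 13 ^ b1 * 17 ^ b2 * 21 ^ b3 * 16 ^ b4)
    : tst R0 R1 R2 R3 R4 = true ∧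
    ((pr5 R0 R1 R2 R3 R4 8 0 7 1 3 : ℕ) : ZMod 23) = 5 ^ b1 ∧
    ((pr5 R0 R1 R2 R3 R4 3 8 3 6 5 : ℕ) : ZMod 23) = 5 ^ b2 ∧
    ((pr5 R0 R1 R2 R3 R4 1 8 1 16 0 : ℕ) : ZMod 23) = 5 ^ b3 ∧
    ((pr5 R0 R1 R2 R3 R4 1 2 0 0 18 : ℕ) : ZMod 23) = 5 ^ b4 := by
  rw [exp_swap 4 4 b1 (by decide)] at h0
  rw [exp_swap 8 6 b2 (by decide)] at h0
  rw [exp_swap 3 16 b3 (by decide)] at h0
  rw [exp_swap 10 3 b4 (by decide)] at h0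
  rw [exp_swap 4 4 b1 (by decide)] at h1
  rw [exp_swap 22 11 b2 (by decide)] at h1
  rw [exp_swap 6 18 b3 (by decide)] at h1
  rw [exp_swap 19 15 b4 (by decide)] at h1
  rw [exp_swap 18 12 b1 (by decide)] at h2
  rw [exp_swap 2 2 b2 (by decide)] at h2
  rw [exp_swap 15 17 b3 (by decide)] at h2
  rw [exp_swap 19 15 b4 (by decide)] at h2
  rw [exp_swap 7 19 b1 (by decide)] at h3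
  rw [exp_swap 20 5 b2 (by decide)] at h3
  rw [exp_swap 1 0 b3 (by decide)] at h3
  rw [exp_swap 5 1 b4 (by decide)] at h3
  rw [exp_swap 13 14 b1 (by decide)] at h4
  rw [exp_swap 17 7 b2 (by decide)] at h4
  rw [exp_swap 21 13 b3 (by decide)] at h4
  rw [exp_swap 16 8 b4 (by decide)] at h4
  have e1 := five22 b1
  have e2 := five22 b2
  have e3 := five22 b3
  have e4 := five22 b4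
  generalize (5 : ZMod 23) ^ b1 = g1 at *
  generalize (5 : ZMod 23) ^ b2 = g2 at *
  generalize (5 : ZMod 23) ^ b3 = g3 at *
  generalize (5 : ZMod 23) ^ b4 = g4 at *
  refine ⟨?_, ?_, ?_, ?_, ?_⟩
  · have hc : ((pr5 R0 R1 R2 R3 R4 12 3 9 16 15 : ℕ) : ZMod 23) = (1 : ℕ) := by
      rw [cast_pr5, h0, h1, h2, h3, h4]
      have : ∀ g1 g2 g3 g4 : ZMod 23, (g1 ^ 4 * g2 ^ 6 * g3 ^ 16 * g4 ^ 3) ^ 12 * (g1 ^ 4 * g2 ^ 11 * g3 ^ 18 * g4 ^ 15) ^ 3 * (g1 ^ 12 * g2 ^ 2 * g3 ^ 17 * g4 ^ 15) ^ 9 * (g1 ^ 19 * g2 ^ 5 * g3 ^ 0 * g4 ^ 1) ^ 16 * (g1 ^ 14 * g2 ^ 7 * g3 ^ 13 * g4 ^ 8) ^ 15 =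
        (g1 ^ 22) ^ 31 * (g2 ^ 22) ^ 14 * (g3 ^ 22) ^ 27 * (g4 ^ 22) ^ 16 := by
        intro g1 g2 g3 g4
        ring
      rw [this, e1, e2, e3, e4]
      simp
    have := cast_inj23 _ _ (pr5_lt _ _ _ _ _ _ _ _ _ _) (by norm_num) hc
    unfold tst
    rw [this]
    rfl
  · rw [cast_pr5, h0, h1, h2, h3, h4]
    have : ∀ g1 g2 g3 g4 : ZMod 23, (g1 ^ 4 * g2 ^ 6 * g3 ^ 16 * g4 ^ 3) ^ 8 * (g1 ^ 4 * g2 ^ 11 * g3 ^ 18 * g4 ^ 15) ^ 0 * (g1 ^ 12 * g2 ^ 2 * g3 ^ 17 * g4 ^ 15) ^ 7 * (g1 ^ 19 * g2 ^ 5 * g3 ^ 0 * g4 ^ 1) ^ 1 * (g1 ^ 14 * g2 ^ 7 * g3 ^ 13 * g4 ^ 8) ^ 3 =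
      g1 * ((g1 ^ 22) ^ 8 * (g2 ^ 22) ^ 4 * (g3 ^ 22) ^ 13 * (g4 ^ 22) ^ 7) := by
      intro g1 g2 g3 g4
      ring
    rw [this, e1, e2, e3, e4]
    simp
  · rw [cast_pr5, h0, h1, h2, h3, h4]
    have : ∀ g1 g2 g3 g4 : ZMod 23, (g1 ^ 4 * g2 ^ 6 * g3 ^ 16 * g4 ^ 3) ^ 3 * (g1 ^ 4 * g2 ^ 11 * g3 ^ 18 * g4 ^ 15) ^ 8 * (g1 ^ 12 * g2 ^ 2 * g3 ^ 17 * g4 ^ 15) ^ 3 * (g1 ^ 19 * g2 ^ 5 * g3 ^ 0 * g4 ^ 1) ^ 6 * (g1 ^ 14 * g2 ^ 7 * g3 ^ 13 * g4 ^ 8) ^ 5 =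
      g2 * ((g1 ^ 22) ^ 12 * (g2 ^ 22) ^ 8 * (g3 ^ 22) ^ 14 * (g4 ^ 22) ^ 10) := by
      intro g1 g2 g3 g4
      ring
    rw [this, e1, e2, e3, e4]
    simp
  · rw [cast_pr5, h0, h1, h2, h3, h4]
    have : ∀ g1 g2 g3 g4 : ZMod 23, (g1 ^ 4 * g2 ^ 6 * g3 ^ 16 * g4 ^ 3) ^ 1 * (g1 ^ 4 * g2 ^ 11 * g3 ^ 18 * g4 ^ 15) ^ 8 * (g1 ^ 12 * g2 ^ 2 * g3 ^ 17 * g4 ^ 15) ^ 1 * (g1 ^ 19 * g2 ^ 5 * g3 ^ 0 * g4 ^ 1) ^ 16 * (g1 ^ 14 * g2 ^ 7 * g3 ^ 13 * g4 ^ 8) ^ 0 =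
      g3 * ((g1 ^ 22) ^ 16 * (g2 ^ 22) ^ 8 * (g3 ^ 22) ^ 8 * (g4 ^ 22) ^ 7) := by
      intro g1 g2 g3 g4
      ring
    rw [this, e1, e2, e3, e4]
    simp
  · rw [cast_pr5, h0, h1, h2, h3, h4]
    have : ∀ g1 g2 g3 g4 : ZMod 23, (g1 ^ 4 * g2 ^ 6 * g3 ^ 16 * g4 ^ 3) ^ 1 * (g1 ^ 4 * g2 ^ 11 * g3 ^ 18 * g4 ^ 15) ^ 2 * (g1 ^ 12 * g2 ^ 2 * g3 ^ 17 * g4 ^ 15) ^ 0 * (g1 ^ 19 * g2 ^ 5 * g3 ^ 0 * g4 ^ 1) ^ 0 * (g1 ^ 14 * g2 ^ 7 * g3 ^ 13 * g4 ^ 8) ^ 18 =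
      g4 * ((g1 ^ 22) ^ 12 * (g2 ^ 22) ^ 7 * (g3 ^ 22) ^ 13 * (g4 ^ 22) ^ 8) := by
      intro g1 g2 g3 g4
      ring
    rw [this, e1, e2, e3, e4]
    simp

end Pool.Agent.Lib.MP_c53f59_gt.K60
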