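import Pool.Agent.Lib.MP_c53f59_gt.K60.A

/-! Two or more zero entries against exactly one: impossible modulo 23, conclusion. -/

namespace Pool.Agent.Lib.MP_c53f59_gt.K60

theorem neT_one (d0 d1 d2 d3 d4 l0 l1 l2 l3 l4 a b c d b1 b2 b3 b4 G1 G2 G3 G4 : ℕ)
    (e0 : (d0 : ZMod 23) = 5 ^ l0) (e1 : (d1 : ZMod 23) = 5 ^ l1) (e2 : (d2 : ZMod 23) = 5 ^ l2)
    (e3 : (d3 : ZMod 23) = 5 ^ l3) (e4 : (d4 : ZMod 23) = 5 ^ l4)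
    (g1 : (G1 : ZMod 23) = 5 ^ b1) (g2 : (G2 : ZMod 23) = 5 ^ b2) (g3 : (G3 : ZMod 23) = 5 ^ b3)
    (g4 : (G4 : ZMod 23) = 5 ^ b4)
    (h : T5 (d0 : ZMod 23) d1 d2 d3 d4 0 a b c d = T5 (d0 : ZMod 23) d1 d2 d3 d4 0 b1 b2 b3 b4) :
    Bool.not (Nat.beq (nT d0 d1 d2 d3 d4 (a % 22) (b % 22) (c % 22) (d % 22))
      (nG l0 l1 l2 l3 l4 G1 G2 G3 G4)) = false := by
  have h5 : (5 : ZMod 23) ^ 22 = 1 := by decide
  have hp : ∀ (x : ZMod 23) (l : ℕ), x = 5 ^ l → x ^ 22 = 1 := by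
    intro x l hx
    rw [hx, ← pow_mul, mul_comm, pow_mul, h5, one_pow]
  have key : nT d0 d1 d2 d3 d4 (a % 22) (b % 22) (c % 22) (d % 22) =
      nG l0 l1 l2 l3 l4 G1 G2 G3 G4 := by
    apply cast_inj23 _ _ (nT_lt _ _ _ _ _ _ _ _ _) (nG_lt _ _ _ _ _ _ _ _ _)
    rw [cast_nT]
    have := T5_mod (d0 : ZMod 23) d1 d2 d3 d4 (hp _ _ e0) (hp _ _ e1) (hp _ _ e2) (hp _ _ e3)
      (hp _ _ e4) 0 a b c d
    rw [Nat.zero_mod] at this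
    rw [← this, h, cast_nG, g1, g2, g3, g4, e0, e1, e2, e3, e4]
    unfold T5
    simp only [← pow_mul, pow_zero]
    ring
  rw [key, Nat.beq_refl]
  rfl

theorem neT_false (a b c d b1 b2 b3 b4 G1 G2 G3 G4 : ℕ)
    (g1 : (G1 : ZMod 23) = 5 ^ b1) (g2 : (G2 : ZMod 23) = 5 ^ b2) (g3 : (G3 : ZMod 23) = 5 ^ b3)
    (g4 : (G4 : ZMod 23) = 5 ^ b4)
    (h : At8 (fun y0 y1 y2 y3 y4 => T5 y0 y1 y2 y3 y4 0 a b c d = T5 y0 y1 y2 y3 y4 0 b1 b2 b3 b4)) :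
    neT (a % 22) (b % 22) (c % 22) (d % 22) G1 G2 G3 G4 = false := by
  obtain ⟨h0, h1, h2, h3, h4, h5, h6, h7⟩ := h
  unfold neT
  have k0 := neT_one 9 13 17 12 19 10 14 7 20 15 a b c d b1 b2 b3 b4 G1 G2 G3 G4 (by decide) (by decide)
    (by decide) (by decide) (by decide) g1 g2 g3 g4 h0
  have k1 := neT_one 10 14 18 13 20 3 21 12 14 5 a b c d b1 b2 b3 b4 G1 G2 G3 G4 (by decide) (by decide)
    (by decide) (by decide) (by decide) g1 g2 g3 g4 h1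
  have k2 := neT_one 11 15 19 14 21 9 17 15 21 13 a b c d b1 b2 b3 b4 G1 G2 G3 G4 (by decide) (by decide)
    (by decide) (by decide) (by decide) g1 g2 g3 g4 h2
  have k3 := neT_one 12 16 20 15 22 20 8 5 17 11 a b c d b1 b2 b3 b4 G1 G2 G3 G4 (by decide) (by decide)
    (by decide) (by decide) (by decide) g1 g2 g3 g4 h3
  have k4 := neT_one 14 18 22 17 1 21 12 11 7 0 a b c d b1 b2 b3 b4 G1 G2 G3 G4 (by decide) (by decide)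
    (by decide) (by decide) (by decide) g1 g2 g3 g4 h4
  have k5 := neT_one 16 20 1 19 3 8 5 0 15 16 a b c d b1 b2 b3 b4 G1 G2 G3 G4 (by decide) (by decide)
    (by decide) (by decide) (by decide) g1 g2 g3 g4 h5
  have k6 := neT_one 17 21 2 20 4 7 13 2 5 4 a b c d b1 b2 b3 b4 G1 G2 G3 G4 (by decide) (by decide)
    (by decide) (by decide) (by decide) g1 g2 g3 g4 h6
  have k7 := neT_one 18 22 3 21 5 12 11 16 13 1 a b c d b1 b2 b3 b4 G1 G2 G3 G4 (by decide) (by decide)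
    (by decide) (by decide) (by decide) g1 g2 g3 g4 h7
  rw [k0, k1, k2, k3, k4, k5, k6, k7]
  rfl

theorem neR_false (a b c d b1 b2 b3 b4 R0 R1 R2 R3 R4 : ℕ)
    (h0 : (R0 : ZMod 23) = 4 ^ b1 * 8 ^ b2 * 3 ^ b3 * 10 ^ b4)
    (h1 : (R1 : ZMod 23) = 4 ^ b1 * 22 ^ b2 * 6 ^ b3 * 19 ^ b4)
    (h2 : (R2 : ZMod 23) = 18 ^ b1 * 2 ^ b2 * 15 ^ b3 * 19 ^ b4)
    (h3 : (R3 : ZMod 23) = 7 ^ b1 * 20 ^ b2 * 1 ^ b3 * 5 ^ b4)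
    (h4 : (R4 : ZMod 23) = 13 ^ b1 * 17 ^ b2 * 21 ^ b3 * 16 ^ b4)
    (h : At8 (fun y0 y1 y2 y3 y4 => T5 y0 y1 y2 y3 y4 0 a b c d = T5 y0 y1 y2 y3 y4 0 b1 b2 b3 b4)) :
    neR (a % 22) (b % 22) (c % 22) (d % 22) R0 R1 R2 R3 R4 = false := by
  obtain ⟨t, g1, g2, g3, g4⟩ := logs R0 R1 R2 R3 R4 b1 b2 b3 b4 h0 h1 h2 h3 h4
  unfold neR
  rw [t, neT_false a b c d b1 b2 b3 b4 _ _ _ _ g1 g2 g3 g4 h]
  rfl

theorem T5_shift2 {R : Type*} [CommRing R] (y0 y1 y2 y3 y4 : R) (a b c d e : ℕ) :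
    T5 y0 y1 y2 y3 y4 a b c d e = T5 y2 y3 y4 y0 y1 a b c d e := by
  unfold T5
  ring

theorem T5_shift3 {R : Type*} [CommRing R] (y0 y1 y2 y3 y4 : R) (a b c d e : ℕ) :
    T5 y0 y1 y2 y3 y4 a b c d e = T5 y3 y4 y0 y1 y2 a b c d e := by
  unfold T5
  ring

theorem T5_shift4 {R : Type*} [CommRing R] (y0 y1 y2 y3 y4 : R) (a b c d e : ℕ) :
    T5 y0 y1 y2 y3 y4 a b c d e = T5 y4 y0 y1 y2 y3 a b c d e := by
  unfold T5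
  ring

/-- the five values at the points c j -/
def At5 (f : ZMod 23 → ZMod 23 → ZMod 23 → ZMod 23 → Prop) : Prop :=
  f 4 8 3 10 ∧ f 4 22 6 19 ∧ f 18 2 15 19 ∧ f 7 20 1 5 ∧ f 13 17 21 16

theorem at5_of (e e' : ZMod 5 → ℕ) (h : ∀ w : ZMod 23, T60 c23 e w = T60 c23 e' w) :
    At5 (fun y1 y2 y3 y4 => T5 0 y1 y2 y3 y4 (e 0) (e 1) (e 2) (e 3) (e 4) =
      T5 0 y1 y2 y3 y4 (e' 0) (e' 1) (e' 2) (e' 3) (e' 4)) := by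
  simp only [T60_eq] at h
  refine ⟨h 14, ?_, ?_, ?_, ?_⟩
  · exact (T5_shift _ _ _ _ _ _ _ _ _ _).symm.trans ((h 10).trans (T5_shift _ _ _ _ _ _ _ _ _ _))
  · exact (T5_shift2 _ _ _ _ _ _ _ _ _ _).symm.trans ((h 6).trans (T5_shift2 _ _ _ _ _ _ _ _ _ _))
  · exact (T5_shift3 _ _ _ _ _ _ _ _ _ _).symm.trans ((h 11).trans (T5_shift3 _ _ _ _ _ _ _ _ _ _))
  · exact (T5_shift4 _ _ _ _ _ _ _ _ _ _).symm.trans ((h 4).trans (T5_shift4 _ _ _ _ _ _ _ _ _ _))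

theorem single (y1 y2 y3 y4 : ZMod 23) (b1 b2 b3 b4 : ℕ) (h1 : b1 ≠ 0) (h2 : b2 ≠ 0) (h3 : b3 ≠ 0)
    (h4 : b4 ≠ 0) : T5 0 y1 y2 y3 y4 0 b1 b2 b3 b4 = y1 ^ b1 * y2 ^ b2 * y3 ^ b3 * y4 ^ b4 := by
  unfold T5
  simp [h1, h2, h3, h4]

end Pool.Agent.Lib.MP_c53f59_gt.K60
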