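import Pool.Agent.Lib.MP_c53f59_gt.K60.A2

/-! Two or more zero entries against exactly one: contradiction. -/

namespace Pool.Agent.Lib.MP_c53f59_gt.K60

theorem cast_tm (x y z p q r : ℕ) : ((tm x y z p q r : ℕ) : ZMod 23) = x ^ p * y ^ q * z ^ r := by
  change ((x ^ p * y ^ q * z ^ r : ℕ) : ZMod 23) = _
  push_cast
  rfl

theorem pm (D : ℕ) (h : (D : ZMod 23) ^ 22 = 1) (n : ℕ) :
    (D : ZMod 23) ^ (n % 22) = (D : ZMod 23) ^ n := (pow_eq_pow_mod n h).symm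

theorem cast_m2 (x y : ℕ) : ((Nat.mod (Nat.add x y) 23 : ℕ) : ZMod 23) = x + y := by
  change (((x + y) % 23 : ℕ) : ZMod 23) = _
  rw [ZMod.natCast_mod]
  push_cast
  rfl

theorem cast_m3 (x y z : ℕ) :
    ((Nat.mod (Nat.add (Nat.add x y) z) 23 : ℕ) : ZMod 23) = x + y + z := by
  change (((x + y + z) % 23 : ℕ) : ZMod 23) = _
  rw [ZMod.natCast_mod]
  push_cast
  rfl

theorem cast_m4 (x y z u : ℕ) :
    ((Nat.mod (Nat.add (Nat.add (Nat.add x y) z) u) 23 : ℕ) : ZMod 23) = x + y + z + u := by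
  change (((x + y + z + u) % 23 : ℕ) : ZMod 23) = _
  rw [ZMod.natCast_mod]
  push_cast
  rfl

theorem patt0 (D1 D2 D3 D4 : ℕ) (h1 : (D1 : ZMod 23) ^ 22 = 1) (h2 : (D2 : ZMod 23) ^ 22 = 1)
    (h3 : (D3 : ZMod 23) ^ 22 = 1) (h4 : (D4 : ZMod 23) ^ 22 = 1) (p q r : ℕ) (hp : p ≠ 0)
    (hq : q ≠ 0) (hr : r ≠ 0) :
    ((Nat.mod (Nat.add (tm D2 D3 D4 (p % 22) (q % 22) (r % 22))
      (tm D1 D2 D3 (p % 22) (q % 22) (r % 22))) 23 : ℕ) : ZMod 23) =
    T5 0 (D1 : ZMod 23) D2 D3 D4 0 0 p q r := by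
  rw [cast_m2, cast_tm, cast_tm]
  simp only [pm _ h1, pm _ h2, pm _ h3, pm _ h4]
  unfold T5
  simp [hp, hq, hr]

theorem patt1 (D1 D2 D3 D4 : ℕ) (h1 : (D1 : ZMod 23) ^ 22 = 1) (h2 : (D2 : ZMod 23) ^ 22 = 1)
    (h3 : (D3 : ZMod 23) ^ 22 = 1) (h4 : (D4 : ZMod 23) ^ 22 = 1) (p q r : ℕ) (hp : p ≠ 0)
    (hq : q ≠ 0) (hr : r ≠ 0) :
    ((Nat.mod (Nat.add (tm D1 D3 D4 (p % 22) (q % 22) (r % 22))
      (tm D4 D1 D2 (p % 22) (q % 22) (r % 22))) 23 : ℕ) : ZMod 23) =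
    T5 0 (D1 : ZMod 23) D2 D3 D4 0 p 0 q r := by
  rw [cast_m2, cast_tm, cast_tm]
  simp only [pm _ h1, pm _ h2, pm _ h3, pm _ h4]
  unfold T5
  simp [hp, hq, hr]

theorem patt2 (D1 D2 D3 D4 : ℕ) (h1 : (D1 : ZMod 23) ^ 22 = 1) (h2 : (D2 : ZMod 23) ^ 22 = 1)
    (h3 : (D3 : ZMod 23) ^ 22 = 1) (h4 : (D4 : ZMod 23) ^ 22 = 1) (q r : ℕ)
    (hq : q ≠ 0) (hr : r ≠ 0) :
    ((Nat.mod (Nat.add (Nat.add (tm 1 D3 D4 0 (q % 22) (r % 22))
      (tm 1 D2 D3 0 (q % 22) (r % 22))) (tm 1 D1 D2 0 (q % 22) (r % 22))) 23 : ℕ) : ZMod 23) =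
    T5 0 (D1 : ZMod 23) D2 D3 D4 0 0 0 q r := by
  rw [cast_m3, cast_tm, cast_tm, cast_tm]
  simp only [pm _ h1, pm _ h2, pm _ h3, pm _ h4]
  unfold T5
  simp [hq, hr]
  ring

theorem patt3 (D1 D2 D3 D4 : ℕ) (h1 : (D1 : ZMod 23) ^ 22 = 1) (h2 : (D2 : ZMod 23) ^ 22 = 1)
    (h3 : (D3 : ZMod 23) ^ 22 = 1) (h4 : (D4 : ZMod 23) ^ 22 = 1) (p r : ℕ)
    (hp : p ≠ 0) (hr : r ≠ 0) :
    ((Nat.mod (Nat.add (Nat.add (tm D2 1 D4 (p % 22) 0 (r % 22))
      (tm D1 1 D3 (p % 22) 0 (r % 22))) (tm D4 1 D1 (p % 22) 0 (r % 22))) 23 : ℕ) : ZMod 23) =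
    T5 0 (D1 : ZMod 23) D2 D3 D4 0 0 p 0 r := by
  rw [cast_m3, cast_tm, cast_tm, cast_tm]
  simp only [pm _ h1, pm _ h2, pm _ h3, pm _ h4]
  unfold T5
  simp [hp, hr]
  ring

theorem patt4 (D1 D2 D3 D4 : ℕ) (h1 : (D1 : ZMod 23) ^ 22 = 1) (h2 : (D2 : ZMod 23) ^ 22 = 1)
    (h3 : (D3 : ZMod 23) ^ 22 = 1) (h4 : (D4 : ZMod 23) ^ 22 = 1) (r : ℕ) (hr : r ≠ 0) :
    ((Nat.mod (Nat.add (Nat.add (Nat.add (tm 1 1 D4 0 0 (r % 22))
      (tm 1 1 D3 0 0 (r % 22))) (tm 1 1 D2 0 0 (r % 22))) (tm 1 1 D1 0 0 (r % 22))) 23 : ℕ) :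
      ZMod 23) =
    T5 0 (D1 : ZMod 23) D2 D3 D4 0 0 0 0 r := by
  rw [cast_m4, cast_tm, cast_tm, cast_tm, cast_tm]
  simp only [pm _ h1, pm _ h2, pm _ h3, pm _ h4]
  unfold T5
  simp [hr]
  ring

/-- no vector with one zero has the values of a vector with two or more zeros -/
theorem A_false (a b c d b1 b2 b3 b4 : ℕ) (n1 : b1 ≠ 0) (n2 : b2 ≠ 0) (n3 : b3 ≠ 0) (n4 : b4 ≠ 0)
    (hp : (a = 0 ∧ b ≠ 0 ∧ c ≠ 0 ∧ d ≠ 0) ∨ (a ≠ 0 ∧ b = 0 ∧ c ≠ 0 ∧ d ≠ 0) ∨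
      (a = 0 ∧ b = 0 ∧ c ≠ 0 ∧ d ≠ 0) ∨ (a = 0 ∧ b ≠ 0 ∧ c = 0 ∧ d ≠ 0) ∨
      (a = 0 ∧ b = 0 ∧ c = 0 ∧ d ≠ 0))
    (h5 : At5 (fun y1 y2 y3 y4 => T5 0 y1 y2 y3 y4 0 a b c d = T5 0 y1 y2 y3 y4 0 b1 b2 b3 b4))
    (h8 : At8 (fun y0 y1 y2 y3 y4 => T5 y0 y1 y2 y3 y4 0 a b c d =
      T5 y0 y1 y2 y3 y4 0 b1 b2 b3 b4)) : False := by
  obtain ⟨g0, g1, g2, g3, g4⟩ := h5
  have m : ∀ n : ℕ, n % 22 < 22 := fun n => Nat.mod_lt _ (by norm_num)
  have sg := fun y1 y2 y3 y4 => single y1 y2 y3 y4 b1 b2 b3 b4 n1 n2 n3 n4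
  rw [sg] at g0 g1 g2 g3 g4
  rcases hp with ⟨rfl, hb, hc, hd⟩ | ⟨ha, rfl, hc, hd⟩ | ⟨rfl, rfl, hc, hd⟩ | ⟨rfl, hb, rfl, hd⟩ |
    ⟨rfl, rfl, rfl, hd⟩
  · have hk := all22 _ (all22 _ (all22 _ kA0 _ (m b)) _ (m c)) _ (m d)
    have hf := neR_false 0 b c d b1 b2 b3 b4 _ _ _ _ _
      ((patt0 4 8 3 10 (by decide) (by decide) (by decide) (by decide) b c d hb hc hd).trans g0)
      ((patt0 4 22 6 19 (by decide) (by decide) (by decide) (by decide) b c d hb hc hd).trans g1)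
      ((patt0 18 2 15 19 (by decide) (by decide) (by decide) (by decide) b c d hb hc hd).trans g2)
      ((patt0 7 20 1 5 (by decide) (by decide) (by decide) (by decide) b c d hb hc hd).trans g3)
      ((patt0 13 17 21 16 (by decide) (by decide) (by decide) (by decide) b c d hb hc hd).trans g4)
      h8
    unfold cA0 at hk
    exact absurd (hk.symm.trans hf) (by decide)
  · have hk := all22 _ (all22 _ (all22 _ kA1 _ (m a)) _ (m c)) _ (m d)
    have hf := neR_false a 0 c d b1 b2 b3 b4 _ _ _ _ _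
      ((patt1 4 8 3 10 (by decide) (by decide) (by decide) (by decide) a c d ha hc hd).trans g0)
      ((patt1 4 22 6 19 (by decide) (by decide) (by decide) (by decide) a c d ha hc hd).trans g1)
      ((patt1 18 2 15 19 (by decide) (by decide) (by decide) (by decide) a c d ha hc hd).trans g2)
      ((patt1 7 20 1 5 (by decide) (by decide) (by decide) (by decide) a c d ha hc hd).trans g3)
      ((patt1 13 17 21 16 (by decide) (by decide) (by decide) (by decide) a c d ha hc hd).trans g4)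
      h8
    unfold cA1 at hk
    exact absurd (hk.symm.trans hf) (by decide)
  · have hk := all22 _ (all22 _ kA2 _ (m c)) _ (m d)
    have hf := neR_false 0 0 c d b1 b2 b3 b4 _ _ _ _ _
      ((patt2 4 8 3 10 (by decide) (by decide) (by decide) (by decide) c d hc hd).trans g0)
      ((patt2 4 22 6 19 (by decide) (by decide) (by decide) (by decide) c d hc hd).trans g1)
      ((patt2 18 2 15 19 (by decide) (by decide) (by decide) (by decide) c d hc hd).trans g2)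
      ((patt2 7 20 1 5 (by decide) (by decide) (by decide) (by decide) c d hc hd).trans g3)
      ((patt2 13 17 21 16 (by decide) (by decide) (by decide) (by decide) c d hc hd).trans g4)
      h8
    unfold cA2 at hk
    exact absurd (hk.symm.trans hf) (by decide)
  · have hk := all22 _ (all22 _ kA3 _ (m b)) _ (m d)
    have hf := neR_false 0 b 0 d b1 b2 b3 b4 _ _ _ _ _
      ((patt3 4 8 3 10 (by decide) (by decide) (by decide) (by decide) b d hb hd).trans g0)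
      ((patt3 4 22 6 19 (by decide) (by decide) (by decide) (by decide) b d hb hd).trans g1)
      ((patt3 18 2 15 19 (by decide) (by decide) (by decide) (by decide) b d hb hd).trans g2)
      ((patt3 7 20 1 5 (by decide) (by decide) (by decide) (by decide) b d hb hd).trans g3)
      ((patt3 13 17 21 16 (by decide) (by decide) (by decide) (by decide) b d hb hd).trans g4)
      h8
    unfold cA3 at hk
    exact absurd (hk.symm.trans hf) (by decide)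
  · have hk := all22 _ kA4 _ (m d)
    have hf := neR_false 0 0 0 d b1 b2 b3 b4 _ _ _ _ _
      ((patt4 4 8 3 10 (by decide) (by decide) (by decide) (by decide) d hd).trans g0)
      ((patt4 4 22 6 19 (by decide) (by decide) (by decide) (by decide) d hd).trans g1)
      ((patt4 18 2 15 19 (by decide) (by decide) (by decide) (by decide) d hd).trans g2)
      ((patt4 7 20 1 5 (by decide) (by decide) (by decide) (by decide) d hd).trans g3)
      ((patt4 13 17 21 16 (by decide) (by decide) (by decide) (by decide) d hd).trans g4)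
      h8
    unfold cA4 at hk
    exact absurd (hk.symm.trans hf) (by decide)

end Pool.Agent.Lib.MP_c53f59_gt.K60
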