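import Pool.Agent.Lib.MP_c53f59_gt.K60.S1Tab

/-! Kernel check (sieve modulo 23): two or more zero entries against exactly one. -/

namespace Pool.Agent.Lib.MP_c53f59_gt.K60

def pr5 (R0 R1 R2 R3 R4 a b c d e : Nat) : Nat :=
  Nat.mod (Nat.mul (Nat.mul (Nat.mul (Nat.mul (Nat.pow R0 a) (Nat.pow R1 b)) (Nat.pow R2 c))
    (Nat.pow R3 d)) (Nat.pow R4 e)) 23

/-- T for the second vector, from the four values G i = 5 ^ b i and the logarithms -/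
def nG (l0 l1 l2 l3 l4 G1 G2 G3 G4 : Nat) : Nat :=
  Nat.mod (Nat.add (Nat.add (Nat.add (Nat.add (tm4 G1 G2 G3 G4 l1 l2 l3 l4)
    (tm4 G1 G2 G3 G4 l2 l3 l4 l0)) (tm4 G1 G2 G3 G4 l3 l4 l0 l1))
    (tm4 G1 G2 G3 G4 l4 l0 l1 l2)) (tm4 G1 G2 G3 G4 l0 l1 l2 l3)) 23

def tst (R0 R1 R2 R3 R4 : Nat) : Bool := Nat.beq (pr5 R0 R1 R2 R3 R4 12 3 9 16 15) 1

def neT (a b c d G1 G2 G3 G4 : Nat) : Bool :=
  Bool.not (Nat.beq (nT 9 13 17 12 19 a b c d) (nG 10 14 7 20 15 G1 G2 G3 G4)) ||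
  (Bool.not (Nat.beq (nT 10 14 18 13 20 a b c d) (nG 3 21 12 14 5 G1 G2 G3 G4)) ||
  (Bool.not (Nat.beq (nT 11 15 19 14 21 a b c d) (nG 9 17 15 21 13 G1 G2 G3 G4)) ||
  (Bool.not (Nat.beq (nT 12 16 20 15 22 a b c d) (nG 20 8 5 17 11 G1 G2 G3 G4)) ||
  (Bool.not (Nat.beq (nT 14 18 22 17 1 a b c d) (nG 21 12 11 7 0 G1 G2 G3 G4)) ||
  (Bool.not (Nat.beq (nT 16 20 1 19 3 a b c d) (nG 8 5 0 15 16 G1 G2 G3 G4)) ||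
  (Bool.not (Nat.beq (nT 17 21 2 20 4 a b c d) (nG 7 13 2 5 4 G1 G2 G3 G4)) ||
  (Bool.not (Nat.beq (nT 18 22 3 21 5 a b c d) (nG 12 11 16 13 1 G1 G2 G3 G4)))))))))

def neR (a b c d R0 R1 R2 R3 R4 : Nat) : Bool :=
  Bool.not (tst R0 R1 R2 R3 R4) || neT a b c d
    (pr5 R0 R1 R2 R3 R4 8 0 7 1 3) (pr5 R0 R1 R2 R3 R4 3 8 3 6 5)
    (pr5 R0 R1 R2 R3 R4 1 8 1 16 0) (pr5 R0 R1 R2 R3 R4 1 2 0 0 18)

def cA0 (p q r : Nat) : Bool :=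
  neR 0 p q r
    (Nat.mod (Nat.add (tm 8 3 10 p q r) (tm 4 8 3 p q r)) 23)
    (Nat.mod (Nat.add (tm 22 6 19 p q r) (tm 4 22 6 p q r)) 23)
    (Nat.mod (Nat.add (tm 2 15 19 p q r) (tm 18 2 15 p q r)) 23)
    (Nat.mod (Nat.add (tm 20 1 5 p q r) (tm 7 20 1 p q r)) 23)
    (Nat.mod (Nat.add (tm 17 21 16 p q r) (tm 13 17 21 p q r)) 23)

def cA1 (p q r : Nat) : Bool :=
  neR p 0 q r
    (Nat.mod (Nat.add (tm 4 3 10 p q r) (tm 10 4 8 p q r)) 23)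
    (Nat.mod (Nat.add (tm 4 6 19 p q r) (tm 19 4 22 p q r)) 23)
    (Nat.mod (Nat.add (tm 18 15 19 p q r) (tm 19 18 2 p q r)) 23)
    (Nat.mod (Nat.add (tm 7 1 5 p q r) (tm 5 7 20 p q r)) 23)
    (Nat.mod (Nat.add (tm 13 21 16 p q r) (tm 16 13 17 p q r)) 23)

def cA2 (q r : Nat) : Bool :=
  neR 0 0 q r
    (Nat.mod (Nat.add (Nat.add (tm 1 3 10 0 q r) (tm 1 8 3 0 q r)) (tm 1 4 8 0 q r)) 23)
    (Nat.mod (Nat.add (Nat.add (tm 1 6 19 0 q r) (tm 1 22 6 0 q r)) (tm 1 4 22 0 q r)) 23)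
    (Nat.mod (Nat.add (Nat.add (tm 1 15 19 0 q r) (tm 1 2 15 0 q r)) (tm 1 18 2 0 q r)) 23)
    (Nat.mod (Nat.add (Nat.add (tm 1 1 5 0 q r) (tm 1 20 1 0 q r)) (tm 1 7 20 0 q r)) 23)
    (Nat.mod (Nat.add (Nat.add (tm 1 21 16 0 q r) (tm 1 17 21 0 q r)) (tm 1 13 17 0 q r)) 23)

def cA3 (p r : Nat) : Bool :=
  neR 0 p 0 r
    (Nat.mod (Nat.add (Nat.add (tm 8 1 10 p 0 r) (tm 4 1 3 p 0 r)) (tm 10 1 4 p 0 r)) 23)
    (Nat.mod (Nat.add (Nat.add (tm 22 1 19 p 0 r) (tm 4 1 6 p 0 r)) (tm 19 1 4 p 0 r)) 23)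
    (Nat.mod (Nat.add (Nat.add (tm 2 1 19 p 0 r) (tm 18 1 15 p 0 r)) (tm 19 1 18 p 0 r)) 23)
    (Nat.mod (Nat.add (Nat.add (tm 20 1 5 p 0 r) (tm 7 1 1 p 0 r)) (tm 5 1 7 p 0 r)) 23)
    (Nat.mod (Nat.add (Nat.add (tm 17 1 16 p 0 r) (tm 13 1 21 p 0 r)) (tm 16 1 13 p 0 r)) 23)

def cA4 (r : Nat) : Bool :=
  neR 0 0 0 r
    (Nat.mod (Nat.add (Nat.add (Nat.add (tm 1 1 10 0 0 r) (tm 1 1 3 0 0 r)) (tm 1 1 8 0 0 r)) (tm 1 1 4 0 0 r)) 23)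
    (Nat.mod (Nat.add (Nat.add (Nat.add (tm 1 1 19 0 0 r) (tm 1 1 6 0 0 r)) (tm 1 1 22 0 0 r)) (tm 1 1 4 0 0 r)) 23)
    (Nat.mod (Nat.add (Nat.add (Nat.add (tm 1 1 19 0 0 r) (tm 1 1 15 0 0 r)) (tm 1 1 2 0 0 r)) (tm 1 1 18 0 0 r)) 23)
    (Nat.mod (Nat.add (Nat.add (Nat.add (tm 1 1 5 0 0 r) (tm 1 1 1 0 0 r)) (tm 1 1 20 0 0 r)) (tm 1 1 7 0 0 r)) 23)
    (Nat.mod (Nat.add (Nat.add (Nat.add (tm 1 1 16 0 0 r) (tm 1 1 21 0 0 r)) (tm 1 1 17 0 0 r)) (tm 1 1 13 0 0 r)) 23)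

set_option maxRecDepth 100000 in
theorem kA0 : (L22.all fun p => L22.all fun q => L22.all fun r => cA0 p q r) = true := by
  decide +kernel

set_option maxRecDepth 100000 in
theorem kA1 : (L22.all fun p => L22.all fun q => L22.all fun r => cA1 p q r) = true := by
  decide +kernel

set_option maxRecDepth 100000 in
theorem kA2 : (L22.all fun q => L22.all fun r => cA2 q r) = true := by
  decide +kernel

set_option maxRecDepth 100000 in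
theorem kA3 : (L22.all fun p => L22.all fun r => cA3 p r) = true := by
  decide +kernel

set_option maxRecDepth 100000 in
theorem kA4 : (L22.all fun r => cA4 r) = true := by
  decide +kernel

end Pool.Agent.Lib.MP_c53f59_gt.K60
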