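import Pool.Agent.Lib.MP_c53f59_gt.K60.Exp

/-! All residues zero: the values at the points c j modulo 529. -/

namespace Pool.Agent.Lib.MP_c53f59_gt.K60

/-- 1 for zero, 0 otherwise -/
def iz (n : Nat) : Nat := Nat.sub 1 n

def Zn (a b c d e : Nat) : Nat := Nat.add (Nat.add (Nat.add (Nat.add (iz a) (iz b)) (iz c)) (iz d)) (iz e)

/-- sum of the entries i places after a zero -/
def Sn (a b c d e x y z u v : Nat) : Nat :=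
  Nat.add (Nat.add (Nat.add (Nat.add (Nat.mul (iz a) x) (Nat.mul (iz b) y)) (Nat.mul (iz c) z))
    (Nat.mul (iz d) u)) (Nat.mul (iz e) v)

theorem zpow0 (n : ℕ) : (0 : ZMod 529) ^ (22 * n) = ((iz n : ℕ) : ZMod 529) := by
  cases n with
  | zero => simp [iz]
  | succ n =>
    have h : iz (n + 1) = 0 := by
      change 1 - (n + 1) = 0
      omega
    rw [h, zero_pow (by omega)]
    simp

theorem mono4 (D1 D2 D3 D4 t1 t2 t3 t4 : ZMod 529) (h1 : D1 ^ 22 = 1 + 23 * t1)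
    (h2 : D2 ^ 22 = 1 + 23 * t2) (h3 : D3 ^ 22 = 1 + 23 * t3) (h4 : D4 ^ 22 = 1 + 23 * t4)
    (m1 m2 m3 m4 : ℕ) : D1 ^ (22 * m1) * D2 ^ (22 * m2) * D3 ^ (22 * m3) * D4 ^ (22 * m4) =
      1 + 23 * (m1 * t1 + m2 * t2 + m3 * t3 + m4 * t4) := by
  have hz : (23 : ZMod 529) * 23 = 0 := by decide
  have e2 : ∀ u v : ZMod 529, (1 + 23 * u) * (1 + 23 * v) = 1 + 23 * (u + v) := by
    intro u v
    linear_combination u * v * hz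
  rw [pow_mul, pow_mul, pow_mul, pow_mul, h1, h2, h3, h4, pow_lin, pow_lin, pow_lin, pow_lin,
    e2, e2, e2]

theorem deg_point (D1 D2 D3 D4 t1 t2 t3 t4 : ZMod 529) (h1 : D1 ^ 22 = 1 + 23 * t1)
    (h2 : D2 ^ 22 = 1 + 23 * t2) (h3 : D3 ^ 22 = 1 + 23 * t3) (h4 : D4 ^ 22 = 1 + 23 * t4)
    (m0 m1 m2 m3 m4 : ℕ) :
    T5 0 D1 D2 D3 D4 (22 * m0) (22 * m1) (22 * m2) (22 * m3) (22 * m4) =
    ((Zn m0 m1 m2 m3 m4 : ℕ) : ZMod 529) + 23 *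
      (((Sn m0 m1 m2 m3 m4 m1 m2 m3 m4 m0 : ℕ) : ZMod 529) * t1 +
       ((Sn m0 m1 m2 m3 m4 m2 m3 m4 m0 m1 : ℕ) : ZMod 529) * t2 +
       ((Sn m0 m1 m2 m3 m4 m3 m4 m0 m1 m2 : ℕ) : ZMod 529) * t3 +
       ((Sn m0 m1 m2 m3 m4 m4 m0 m1 m2 m3 : ℕ) : ZMod 529) * t4) := by
  have hm := mono4 D1 D2 D3 D4 t1 t2 t3 t4 h1 h2 h3 h4
  have hZ : ((Zn m0 m1 m2 m3 m4 : ℕ) : ZMod 529) = (iz m0 : ℕ) + (iz m1 : ℕ) + (iz m2 : ℕ) +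
      (iz m3 : ℕ) + (iz m4 : ℕ) := by
    change ((iz m0 + iz m1 + iz m2 + iz m3 + iz m4 : ℕ) : ZMod 529) = _
    push_cast
    rfl
  have hS : ∀ x y z u v : ℕ, ((Sn m0 m1 m2 m3 m4 x y z u v : ℕ) : ZMod 529) =
      (iz m0 : ℕ) * x + (iz m1 : ℕ) * y + (iz m2 : ℕ) * z + (iz m3 : ℕ) * u + (iz m4 : ℕ) * v := by
    intro x y z u v
    change ((iz m0 * x + iz m1 * y + iz m2 * z + iz m3 * u + iz m4 * v : ℕ) : ZMod 529) = _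
    push_cast
    rfl
  rw [hZ, hS, hS, hS, hS]
  unfold T5
  rw [zpow0, zpow0, zpow0, zpow0, zpow0]
  linear_combination ((iz m0 : ℕ) : ZMod 529) * hm m1 m2 m3 m4 +
    ((iz m4 : ℕ) : ZMod 529) * hm m0 m1 m2 m3 + ((iz m3 : ℕ) : ZMod 529) * hm m4 m0 m1 m2 +
    ((iz m2 : ℕ) : ZMod 529) * hm m3 m4 m0 m1 + ((iz m1 : ℕ) : ZMod 529) * hm m2 m3 m4 m0

/-- the five values modulo 529 at the points c j -/
def Pt5 (f : ZMod 529 → ZMod 529 → ZMod 529 → ZMod 529 → Prop) : Prop :=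
  f 165 146 72 447 ∧ f 510 436 282 364 ∧ f 455 301 383 19 ∧ f 375 457 93 74 ∧ f 82 247 228 154

theorem pt5_of (e e' : ZMod 5 → ℕ) (h : ∀ w : ZMod 529, T60 c529 e w = T60 c529 e' w) :
    Pt5 (fun y1 y2 y3 y4 => T5 0 y1 y2 y3 y4 (e 0) (e 1) (e 2) (e 3) (e 4) =
      T5 0 y1 y2 y3 y4 (e' 0) (e' 1) (e' 2) (e' 3) (e' 4)) := by
  simp only [T60_eq] at h
  refine ⟨h 60, ?_, ?_, ?_, ?_⟩
  · exact (T5_shift _ _ _ _ _ _ _ _ _ _).symm.trans ((h 424).trans (T5_shift _ _ _ _ _ _ _ _ _ _))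
  · exact (T5_shift2 _ _ _ _ _ _ _ _ _ _).symm.trans ((h 443).trans (T5_shift2 _ _ _ _ _ _ _ _ _ _))
  · exact (T5_shift3 _ _ _ _ _ _ _ _ _ _).symm.trans ((h 517).trans (T5_shift3 _ _ _ _ _ _ _ _ _ _))
  · exact (T5_shift4 _ _ _ _ _ _ _ _ _ _).symm.trans ((h 142).trans (T5_shift4 _ _ _ _ _ _ _ _ _ _))

theorem deg_red (Z Z' : ℕ) (hZ : Z ≤ 5) (hZ' : Z' ≤ 5) (x y : ZMod 529)
    (h : (Z : ZMod 529) + 23 * x = Z' + 23 * y) : Z = Z' ∧ red x = red y := by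
  have h23' : red 23 = 0 := by decide
  have h1 := congrArg red h
  rw [map_add, map_add, map_mul, map_mul, map_natCast, map_natCast, h23', zero_mul, zero_mul,
    add_zero, add_zero] at h1
  have hz : Z = Z' := cast_inj23 Z Z' (by omega) (by omega) h1
  refine ⟨hz, ?_⟩
  subst hz
  have := red_of (x - y) (by linear_combination h)
  rw [map_sub] at this
  linear_combination this

theorem Zn_le (a b c d e : ℕ) : Zn a b c d e ≤ 5 := by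
  change iz a + iz b + iz c + iz d + iz e ≤ 5
  have h : ∀ n, iz n ≤ 1 := fun n => Nat.sub_le 1 n
  have h1 := h a
  have h2 := h b
  have h3 := h c
  have h4 := h d
  have h5 := h e
  omega

theorem deg_eqs (m0 m1 m2 m3 m4 n0 n1 n2 n3 n4 : ℕ)
    (h : Pt5 (fun y1 y2 y3 y4 =>
      T5 0 y1 y2 y3 y4 (22 * m0) (22 * m1) (22 * m2) (22 * m3) (22 * m4) =
      T5 0 y1 y2 y3 y4 (22 * n0) (22 * n1) (22 * n2) (22 * n3) (22 * n4))) :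
    Zn m0 m1 m2 m3 m4 = Zn n0 n1 n2 n3 n4 ∧
    ((Sn m0 m1 m2 m3 m4 m1 m2 m3 m4 m0 : ℕ) : ZMod 23) = (Sn n0 n1 n2 n3 n4 n1 n2 n3 n4 n0 : ℕ) ∧
    ((Sn m0 m1 m2 m3 m4 m2 m3 m4 m0 m1 : ℕ) : ZMod 23) = (Sn n0 n1 n2 n3 n4 n2 n3 n4 n0 n1 : ℕ) ∧
    ((Sn m0 m1 m2 m3 m4 m3 m4 m0 m1 m2 : ℕ) : ZMod 23) = (Sn n0 n1 n2 n3 n4 n3 n4 n0 n1 n2 : ℕ) ∧
    ((Sn m0 m1 m2 m3 m4 m4 m0 m1 m2 m3 : ℕ) : ZMod 23) = (Sn n0 n1 n2 n3 n4 n4 n0 n1 n2 n3 : ℕ) := by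
  obtain ⟨g0, g1, g2, g3, g4⟩ := h
  rw [deg_point 165 146 72 447 15 10 16 13 (by decide) (by decide) (by decide) (by decide),
    deg_point 165 146 72 447 15 10 16 13 (by decide) (by decide) (by decide) (by decide)] at g0
  have r0 := deg_red _ _ (Zn_le _ _ _ _ _) (Zn_le _ _ _ _ _) _ _ g0
  have q0 := r0.2
  simp only [map_add, map_mul, map_natCast] at q0
  change _ * (15 : ZMod 23) + _ * (10 : ZMod 23) + _ * (16 : ZMod 23) + _ * (13 : ZMod 23) =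
    _ * (15 : ZMod 23) + _ * (10 : ZMod 23) + _ * (16 : ZMod 23) + _ * (13 : ZMod 23) at q0
  rw [deg_point 510 436 282 364 17 19 9 15 (by decide) (by decide) (by decide) (by decide),
    deg_point 510 436 282 364 17 19 9 15 (by decide) (by decide) (by decide) (by decide)] at g1
  have r1 := deg_red _ _ (Zn_le _ _ _ _ _) (Zn_le _ _ _ _ _) _ _ g1
  have q1 := r1.2
  simp only [map_add, map_mul, map_natCast] at q1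
  change _ * (17 : ZMod 23) + _ * (19 : ZMod 23) + _ * (9 : ZMod 23) + _ * (15 : ZMod 23) =
    _ * (17 : ZMod 23) + _ * (19 : ZMod 23) + _ * (9 : ZMod 23) + _ * (15 : ZMod 23) at q1
  rw [deg_point 455 301 383 19 18 22 10 17 (by decide) (by decide) (by decide) (by decide),
    deg_point 455 301 383 19 18 22 10 17 (by decide) (by decide) (by decide) (by decide)] at g2
  have r2 := deg_red _ _ (Zn_le _ _ _ _ _) (Zn_le _ _ _ _ _) _ _ g2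
  have q2 := r2.2
  simp only [map_add, map_mul, map_natCast] at q2
  change _ * (18 : ZMod 23) + _ * (22 : ZMod 23) + _ * (10 : ZMod 23) + _ * (17 : ZMod 23) =
    _ * (18 : ZMod 23) + _ * (22 : ZMod 23) + _ * (10 : ZMod 23) + _ * (17 : ZMod 23) at q2
  rw [deg_point 375 457 93 74 13 16 19 18 (by decide) (by decide) (by decide) (by decide),
    deg_point 375 457 93 74 13 16 19 18 (by decide) (by decide) (by decide) (by decide)] at g3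
  have r3 := deg_red _ _ (Zn_le _ _ _ _ _) (Zn_le _ _ _ _ _) _ _ g3
  have q3 := r3.2
  simp only [map_add, map_mul, map_natCast] at q3
  change _ * (13 : ZMod 23) + _ * (16 : ZMod 23) + _ * (19 : ZMod 23) + _ * (18 : ZMod 23) =
    _ * (13 : ZMod 23) + _ * (16 : ZMod 23) + _ * (19 : ZMod 23) + _ * (18 : ZMod 23) at q3
  rw [deg_point 82 247 228 154 13 9 22 13 (by decide) (by decide) (by decide) (by decide),
    deg_point 82 247 228 154 13 9 22 13 (by decide) (by decide) (by decide) (by decide)] at g4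
  have r4 := deg_red _ _ (Zn_le _ _ _ _ _) (Zn_le _ _ _ _ _) _ _ g4
  have q4 := r4.2
  simp only [map_add, map_mul, map_natCast] at q4
  change _ * (13 : ZMod 23) + _ * (9 : ZMod 23) + _ * (22 : ZMod 23) + _ * (13 : ZMod 23) =
    _ * (13 : ZMod 23) + _ * (9 : ZMod 23) + _ * (22 : ZMod 23) + _ * (13 : ZMod 23) at q4
  refine ⟨r0.1, ?_, ?_, ?_, ?_⟩
  · linear_combination 16 * q0 + 16 * q1 + 9 * q2 + 19 * q3 -
      (40 * (((Sn m0 m1 m2 m3 m4 m1 m2 m3 m4 m0 : ℕ) : ZMod 23) - ((Sn n0 n1 n2 n3 n4 n1 n2 n3 n4 n0 : ℕ) : ZMod 23)) + 42 * (((Sn m0 m1 m2 m3 m4 m2 m3 m4 m0 m1 : ℕ) : ZMod 23) - ((Sn n0 n1 n2 n3 n4 n2 n3 n4 n0 n1 : ℕ) : ZMod 23)) + 37 * (((Sn m0 m1 m2 m3 m4 m3 m4 m0 m1 m2 : ℕ) : ZMod 23) - ((Sn n0 n1 n2 n3 n4 n3 n4 n0 n1 n2 : ℕ) : ZMod 23)) + 41 * (((Sn m0 m1 m2 m3 m4 m4 m0 m1 m2 m3 : ℕ) : ZMod 23) - ((Sn n0 n1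 n2 n3 n4 n4 n0 n1 n2 n3 : ℕ) : ZMod 23))) * h23
  · linear_combination 3 * q0 + 1 * q1 + 20 * q3 -
      (14 * (((Sn m0 m1 m2 m3 m4 m1 m2 m3 m4 m0 : ℕ) : ZMod 23) - ((Sn n0 n1 n2 n3 n4 n1 n2 n3 n4 n0 : ℕ) : ZMod 23)) + 16 * (((Sn m0 m1 m2 m3 m4 m2 m3 m4 m0 m1 : ℕ) : ZMod 23) - ((Sn n0 n1 n2 n3 n4 n2 n3 n4 n0 n1 : ℕ) : ZMod 23)) + 19 * (((Sn m0 m1 m2 m3 m4 m3 m4 m0 m1 m2 : ℕ) : ZMod 23) - ((Sn n0 n1 n2 n3 n4 n3 n4 n0 n1 n2 : ℕ) : ZMod 23)) + 18 * (((Sn m0 m1 m2 m3 m4 m4 m0 m1 m2 m3 : ℕ) : ZMod 23) - ((Sn n0 n1 n2 n3 n4 n4 n0 n1 n2 n3 : ℕ) : ZMod 23))) * h23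
  · linear_combination 13 * q0 + 14 * q1 + 7 * q2 + 3 * q3 -
      (26 * (((Sn m0 m1 m2 m3 m4 m1 m2 m3 m4 m0 : ℕ) : ZMod 23) - ((Sn n0 n1 n2 n3 n4 n1 n2 n3 n4 n0 : ℕ) : ZMod 23)) + 26 * (((Sn m0 m1 m2 m3 m4 m2 m3 m4 m0 m1 : ℕ) : ZMod 23) - ((Sn n0 n1 n2 n3 n4 n2 n3 n4 n0 n1 : ℕ) : ZMod 23)) + 20 * (((Sn m0 m1 m2 m3 m4 m3 m4 m0 m1 m2 : ℕ) : ZMod 23) - ((Sn n0 n1 n2 n3 n4 n3 n4 n0 n1 n2 : ℕ) : ZMod 23)) + 24 * (((Sn m0 m1 m2 m3 m4 m4 m0 m1 m2 m3 : ℕ) : ZMod 23) - ((Sn n0 n1 n2 n3 n4 n4 n0 n1 n2 n3 : ℕ) : ZMod 23))) * h23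
  · linear_combination 4 * q0 + 6 * q1 + 4 * q2 + 5 * q3 -
      (13 * (((Sn m0 m1 m2 m3 m4 m1 m2 m3 m4 m0 : ℕ) : ZMod 23) - ((Sn n0 n1 n2 n3 n4 n1 n2 n3 n4 n0 : ℕ) : ZMod 23)) + 14 * (((Sn m0 m1 m2 m3 m4 m2 m3 m4 m0 m1 : ℕ) : ZMod 23) - ((Sn n0 n1 n2 n3 n4 n2 n3 n4 n0 n1 : ℕ) : ZMod 23)) + 11 * (((Sn m0 m1 m2 m3 m4 m3 m4 m0 m1 m2 : ℕ) : ZMod 23) - ((Sn n0 n1 n2 n3 n4 n3 n4 n0 n1 n2 : ℕ) : ZMod 23)) + 13 * (((Sn m0 m1 m2 m3 m4 m4 m0 m1 m2 m3 : ℕ) : ZMod 23) - ((Sn n0 n1 n2 n3 n4 n4 n0 n1 n2 n3 : ℕ) : ZMod 23))) * h23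

/-- the finite check for the multiples of 22 -/
def dgc (a b c d a' b' c' d' : Nat) : Bool :=
  Bool.not (Nat.beq (Zn 0 a b c d) (Zn 0 a' b' c' d')) ||
  (Bool.not (Nat.beq (Sn 0 a b c d a b c d 0) (Sn 0 a' b' c' d' a' b' c' d' 0)) ||
  (Bool.not (Nat.beq (Sn 0 a b c d b c d 0 a) (Sn 0 a' b' c' d' b' c' d' 0 a')) ||
  (Bool.not (Nat.beq (Sn 0 a b c d c d 0 a b) (Sn 0 a' b' c' d' c' d' 0 a' b')) ||
  (Bool.not (Nat.beq (Sn 0 a b c d d 0 a b c) (Sn 0 a' b' c' d' d' 0 a' b' c')) ||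
  isrot 0 a b c d 0 a' b' c' d'))))

def L5 : List Nat := [0, 1, 2, 3, 4]

def in3 (f : Nat → Nat → Nat → Bool) : Bool :=
  L5.all fun p => L5.all fun q => L5.all fun r => Nat.ble 5 (Nat.add (Nat.add p q) r) || f p q r

set_option maxRecDepth 100000 in
theorem kD : (in3 fun p q r => in3 fun p' q' r' => dgc 0 p q r 0 p' q' r' && (dgc 0 p q r p' 0 q' r' &&
    (dgc p 0 q r 0 p' q' r' && dgc p 0 q r p' 0 q' r'))) = true := by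
  decide +kernel

end Pool.Agent.Lib.MP_c53f59_gt.K60
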