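import Pool.Agent.Lib.MP_c53f59_gt.K60.A3

/-! The linear systems of the descent at the exceptional classes. -/

namespace Pool.Agent.Lib.MP_c53f59_gt.K60

/-- the left side of the linear equation at one point, for the residue vector (0,a,b,c,d) -/
def LE (d0 d1 d2 d3 d4 t0 t1 t2 t3 t4 : ZMod 23) (a b c d : ℕ) (x0 x1 x2 x3 x4 : ZMod 23) : ZMod 23 :=
  (d1 ^ a * d2 ^ b * d3 ^ c * d4 ^ d) * (x0 * t0 + x1 * t1 + x2 * t2 + x3 * t3 + x4 * t4) +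
  (d2 ^ a * d3 ^ b * d4 ^ c * d0 ^ d) * (x0 * t1 + x1 * t2 + x2 * t3 + x3 * t4 + x4 * t0) +
  (d3 ^ a * d4 ^ b * d0 ^ c * d1 ^ d) * (x0 * t2 + x1 * t3 + x2 * t4 + x3 * t0 + x4 * t1) +
  (d4 ^ a * d0 ^ b * d1 ^ c * d2 ^ d) * (x0 * t3 + x1 * t4 + x2 * t0 + x3 * t1 + x4 * t2) +
  (d0 ^ a * d1 ^ b * d2 ^ c * d3 ^ d) * (x0 * t4 + x1 * t0 + x2 * t1 + x3 * t2 + x4 * t3)

theorem exc_e1 (m0 m1 m2 m3 m4 n0 n1 n2 n3 n4 : ZMod 23)
    (hs : m0 + m1 + m2 + m3 + m4 = n0 + n1 + n2 + n3 + n4)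
    (h0 : LE 9 13 17 12 19 19 20 4 5 21 0 0 1 1 m0 m1 m2 m3 m4 -
      LE 9 13 17 12 19 19 20 4 5 21 0 1 0 1 n0 n1 n2 n3 n4 = 0)
    (h1 : LE 10 14 18 13 20 6 9 1 15 15 0 0 1 1 m0 m1 m2 m3 m4 -
      LE 10 14 18 13 20 6 9 1 15 15 0 1 0 1 n0 n1 n2 n3 n4 = 0)
    (h2 : LE 11 15 19 14 21 1 20 12 6 14 0 0 1 1 m0 m1 m2 m3 m4 -
      LE 11 15 19 14 21 1 20 12 6 14 0 1 0 1 n0 n1 n2 n3 n4 = 0)
    (h3 : LE 12 16 20 15 22 11 16 3 8 17 0 0 1 1 m0 m1 m2 m3 m4 -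
      LE 12 16 20 15 22 11 16 3 8 17 0 1 0 1 n0 n1 n2 n3 n4 = 0)
    (h5 : LE 14 18 22 17 1 21 15 4 15 6 0 0 1 1 m0 m1 m2 m3 m4 -
      LE 14 18 22 17 1 21 15 4 15 6 0 1 0 1 n0 n1 n2 n3 n4 = 0)
    (h7 : LE 16 20 1 19 3 15 11 19 17 19 0 0 1 1 m0 m1 m2 m3 m4 -
      LE 16 20 1 19 3 15 11 19 17 19 0 1 0 1 n0 n1 n2 n3 n4 = 0)
    (h8 : LE 17 21 2 20 4 3 8 15 2 1 0 0 1 1 m0 m1 m2 m3 m4 -
      LE 17 21 2 20 4 3 8 15 2 1 0 1 0 1 n0 n1 n2 n3 n4 = 0)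
    (h9 : LE 18 22 3 21 5 9 5 8 6 6 0 0 1 1 m0 m1 m2 m3 m4 -
      LE 18 22 3 21 5 9 5 8 6 6 0 1 0 1 n0 n1 n2 n3 n4 = 0) :
    m1 = m0 ∧ m2 = m0 ∧ m3 = m0 ∧ m4 = m0 ∧ n0 = m0 ∧ n1 = m0 ∧ n2 = m0 ∧ n3 = m0 ∧ n4 = m0 := by
  unfold LE at *
  refine ⟨?_, ?_, ?_, ?_, ?_, ?_, ?_, ?_, ?_⟩
  · linear_combination 6 * h1 + 12 * h2 + 1 * h3 + 19 * h5 + 17 * h7 + 3 * h8 + 10 * h9 + 5 * hs - ((27180) * m0 + (30329) * m1 + (31238) * m2 + (29543) * m3 + (26127) * m4 + (-29780) * n0 + (-33508) * n1 + (-33976) * n2 + (-30660) * n3 + (-33766) * n4) * h23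
  · linear_combination 8 * h0 + 20 * h1 + 6 * h2 + 19 * h3 + 5 * h5 + 4 * h7 + 5 * h8 + 15 * h9 + 12 * hs - ((39008) * m0 + (38647) * m1 + (36035) * m2 + (37640) * m3 + (35902) * m4 + (-36967) * n0 + (-44053) * n1 + (-38784) * n2 + (-39624) * n3 + (-44066) * n4) * h23
  · linear_combination 15 * h0 + 12 * h1 + 6 * h2 + 8 * h3 + 19 * h5 + 14 * h7 + 22 * h8 + 19 * h9 + 17 * hs - ((46749) * m0 + (46490) * m1 + (45343) * m2 + (44221) * m3 + (42110) * m4 + (-46830) * n0 + (-54160) * n1 + (-50205) * n2 + (-49985) * n3 + (-51744) * n4) * h23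
  · linear_combination 2 * h0 + 4 * h1 + 21 * h2 + 3 * h3 + 3 * h5 + 14 * h7 + 12 * h8 + 7 * h9 + 2 * hs - ((27549) * m0 + (27017) * m1 + (26030) * m2 + (26650) * m3 + (24816) * m4 + (-27980) * n0 + (-34073) * n1 + (-30537) * n2 + (-31077) * n3 + (-32674) * n4) * h23
  · linear_combination 10 * h0 + 1 * h1 + 14 * h2 + 11 * h3 + 12 * h5 + 12 * h7 + 11 * h8 + 16 * h9 + 11 * hs - ((37645) * m0 + (38805) * m1 + (37556) * m2 + (37148) * m3 + (34563) * m4 + (-38330) * n0 + (-44665) * n1 + (-41705) * n2 + (-40075) * n3 + (-43839) * n4) * h23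
  · linear_combination 8 * h0 + 4 * h1 + 5 * h2 + 16 * h3 + 17 * h5 + 14 * h7 + 18 * h8 + 5 * h9 + 13 * hs - ((38728) * m0 + (39312) * m1 + (38387) * m2 + (36731) * m3 + (35208) * m4 + (-38919) * n0 + (-44139) * n1 + (-42086) * n2 + (-40810) * n3 + (-42653) * n4) * h23
  · linear_combination 9 * h0 + 11 * h1 + 4 * h2 + 12 * h3 + 7 * h5 + 17 * h7 + 8 * h8 + 1 * h9 + 14 * hs - ((32440) * m0 + (32349) * m1 + (31084) * m2 + (30439) * m3 + (29089) * m4 + (-33162) * n0 + (-37684) * n1 + (-34238) * n2 + (-35505) * n3 + (-37180) * n4) * h23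
  · linear_combination 4 * h0 + 11 * h1 + 15 * h2 + 15 * h3 + 8 * h5 + 1 * h7 + 10 * h8 + 19 * h9 + 0 * hs - ((36942) * m0 + (37122) * m1 + (35032) * m2 + (36569) * m3 + (34447) * m4 + (-34853) * n0 + (-42436) * n1 + (-38430) * n2 + (-37199) * n3 + (-41803) * n4) * h23
  · linear_combination 17 * h0 + 15 * h1 + 7 * h2 + 2 * h5 + 5 * h7 + 18 * h8 + 10 * h9 + 20 * hs - ((30694) * m0 + (28126) * m1 + (25916) * m2 + (26853) * m3 + (26726) * m4 + (-28888) * n0 + (-34917) * n1 + (-29660) * n2 + (-32210) * n3 + (-32725) * n4) * h23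

theorem exc_f1 (m0 m1 m2 m3 m4 n0 n1 n2 n3 n4 : ZMod 23)
    (hs : m0 + m1 + m2 + m3 + m4 = n0 + n1 + n2 + n3 + n4)
    (h0 : LE 9 13 17 12 19 19 20 4 5 21 0 0 1 2 m0 m1 m2 m3 m4 -
      LE 9 13 17 12 19 19 20 4 5 21 0 1 0 2 n0 n1 n2 n3 n4 = 0)
    (h1 : LE 10 14 18 13 20 6 9 1 15 15 0 0 1 2 m0 m1 m2 m3 m4 -
      LE 10 14 18 13 20 6 9 1 15 15 0 1 0 2 n0 n1 n2 n3 n4 = 0)
    (h2 : LE 11 15 19 14 21 1 20 12 6 14 0 0 1 2 m0 m1 m2 m3 m4 -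
      LE 11 15 19 14 21 1 20 12 6 14 0 1 0 2 n0 n1 n2 n3 n4 = 0)
    (h3 : LE 12 16 20 15 22 11 16 3 8 17 0 0 1 2 m0 m1 m2 m3 m4 -
      LE 12 16 20 15 22 11 16 3 8 17 0 1 0 2 n0 n1 n2 n3 n4 = 0)
    (h5 : LE 14 18 22 17 1 21 15 4 15 6 0 0 1 2 m0 m1 m2 m3 m4 -
      LE 14 18 22 17 1 21 15 4 15 6 0 1 0 2 n0 n1 n2 n3 n4 = 0)
    (h7 : LE 16 20 1 19 3 15 11 19 17 19 0 0 1 2 m0 m1 m2 m3 m4 -
      LE 16 20 1 19 3 15 11 19 17 19 0 1 0 2 n0 n1 n2 n3 n4 = 0)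
    (h8 : LE 17 21 2 20 4 3 8 15 2 1 0 0 1 2 m0 m1 m2 m3 m4 -
      LE 17 21 2 20 4 3 8 15 2 1 0 1 0 2 n0 n1 n2 n3 n4 = 0)
    (h9 : LE 18 22 3 21 5 9 5 8 6 6 0 0 1 2 m0 m1 m2 m3 m4 -
      LE 18 22 3 21 5 9 5 8 6 6 0 1 0 2 n0 n1 n2 n3 n4 = 0) :
    m1 = m0 ∧ m2 = m0 ∧ m3 = m0 ∧ m4 = m0 ∧ n0 = m0 ∧ n1 = m0 ∧ n2 = m0 ∧ n3 = m0 ∧ n4 = m0 := by
  unfold LE at *
  refine ⟨?_, ?_, ?_, ?_, ?_, ?_, ?_, ?_, ?_⟩
  · linear_combination 8 * h0 + 8 * h1 + 1 * h2 + 10 * h3 + 10 * h5 + 11 * h7 + 11 * h8 + 20 * h9 + 3 * hs - ((535349) * m0 + (542470) * m1 + (494279) * m2 + (513643) * m3 + (466090) * m4 + (-558711) * n0 + (-672260) * n1 + (-565963) * n2 + (-618731) * n3 + (-616372) * n4) * h23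
  · linear_combination 12 * h1 + 12 * h3 + 12 * h5 + 6 * h7 + 22 * h8 + 17 * h9 + 22 * hs - ((547284) * m0 + (509554) * m1 + (461856) * m2 + (496596) * m3 + (464978) * m4 + (-522529) * n0 + (-641735) * n1 + (-543976) * n2 + (-611812) * n3 + (-561106) * n4) * h23
  · linear_combination 22 * h0 + 20 * h1 + 7 * h2 + 8 * h3 + 7 * h5 + 6 * h7 + 18 * h8 + 21 * h9 + 21 * hs - ((744448) * m0 + (756860) * m1 + (635119) * m2 + (694442) * m3 + (669794) * m4 + (-735221) * n0 + (-927092) * n1 + (-737712) * n2 + (-820606) * n3 + (-852767) * n4) * h23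
  · linear_combination 15 * h0 + 13 * h2 + 17 * h3 + 9 * h5 + 18 * h7 + 9 * h8 + 20 * h9 + 15 * hs - ((729965) * m0 + (803020) * m1 + (714738) * m2 + (728920) * m3 + (676390) * m4 + (-784156) * n0 + (-970959) * n1 + (-817326) * n2 + (-845620) * n3 + (-915706) * n4) * h23
  · linear_combination 1 * h0 + 19 * h1 + 3 * h2 + 18 * h3 + 13 * h5 + 17 * h7 + 11 * h9 + 5 * hs - ((630777) * m0 + (699212) * m1 + (637116) * m2 + (658167) * m3 + (589155) * m4 + (-666323) * n0 + (-791721) * n1 + (-682663) * n2 + (-725327) * n3 + (-775233) * n4) * h23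
  · linear_combination 3 * h0 + 6 * h1 + 3 * h2 + 8 * h3 + 18 * h5 + 11 * h7 + 12 * h8 + 20 * h9 + 1 * hs - ((543045) * m0 + (564119) * m1 + (550321) * m2 + (549554) * m3 + (483815) * m4 + (-562147) * n0 + (-664333) * n1 + (-612193) * n2 + (-617449) * n3 + (-610639) * n4) * h23
  · linear_combination 6 * h0 + 18 * h1 + 7 * h2 + 8 * h3 + 19 * h5 + 8 * h7 + 13 * h8 + 9 * h9 + 21 * hs - ((635119) * m0 + (679482) * m1 + (631216) * m2 + (644160) * m3 + (594498) * m4 + (-620971) * n0 + (-748506) * n1 + (-684237) * n2 + (-681200) * n3 + (-707245) * n4) * h23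
  · linear_combination 11 * h0 + 17 * h1 + 19 * h2 + 20 * h3 + 18 * h5 + 13 * h7 + 10 * h8 + 20 * h9 + 14 * hs - ((947876) * m0 + (1063226) * m1 + (947472) * m2 + (988617) * m3 + (917444) * m4 + (-960422) * n0 + (-1206387) * n1 + (-1043936) * n2 + (-1046171) * n3 + (-1157550) * n4) * h23
  · linear_combination 1 * h0 + 3 * h1 + 12 * h2 + 16 * h3 + 16 * h5 + 15 * h7 + 2 * h8 + 18 * h9 + 19 * hs - ((611197) * m0 + (704871) * m1 + (665388) * m2 + (667845) * m3 + (590680) * m4 + (-655680) * n0 + (-800930) * n1 + (-725368) * n2 + (-704074) * n3 + (-774456) * n4) * h23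

theorem exc_f2 (m0 m1 m2 m3 m4 n0 n1 n2 n3 n4 : ZMod 23)
    (hs : m0 + m1 + m2 + m3 + m4 = n0 + n1 + n2 + n3 + n4)
    (h0 : LE 9 13 17 12 19 19 20 4 5 21 0 0 1 2 m0 m1 m2 m3 m4 -
      LE 9 13 17 12 19 19 20 4 5 21 0 2 0 1 n0 n1 n2 n3 n4 = 0)
    (h1 : LE 10 14 18 13 20 6 9 1 15 15 0 0 1 2 m0 m1 m2 m3 m4 -
      LE 10 14 18 13 20 6 9 1 15 15 0 2 0 1 n0 n1 n2 n3 n4 = 0)
    (h2 : LE 11 15 19 14 21 1 20 12 6 14 0 0 1 2 m0 m1 m2 m3 m4 -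
      LE 11 15 19 14 21 1 20 12 6 14 0 2 0 1 n0 n1 n2 n3 n4 = 0)
    (h3 : LE 12 16 20 15 22 11 16 3 8 17 0 0 1 2 m0 m1 m2 m3 m4 -
      LE 12 16 20 15 22 11 16 3 8 17 0 2 0 1 n0 n1 n2 n3 n4 = 0)
    (h5 : LE 14 18 22 17 1 21 15 4 15 6 0 0 1 2 m0 m1 m2 m3 m4 -
      LE 14 18 22 17 1 21 15 4 15 6 0 2 0 1 n0 n1 n2 n3 n4 = 0)
    (h7 : LE 16 20 1 19 3 15 11 19 17 19 0 0 1 2 m0 m1 m2 m3 m4 -
      LE 16 20 1 19 3 15 11 19 17 19 0 2 0 1 n0 n1 n2 n3 n4 = 0)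
    (h8 : LE 17 21 2 20 4 3 8 15 2 1 0 0 1 2 m0 m1 m2 m3 m4 -
      LE 17 21 2 20 4 3 8 15 2 1 0 2 0 1 n0 n1 n2 n3 n4 = 0)
    (h9 : LE 18 22 3 21 5 9 5 8 6 6 0 0 1 2 m0 m1 m2 m3 m4 -
      LE 18 22 3 21 5 9 5 8 6 6 0 2 0 1 n0 n1 n2 n3 n4 = 0) :
    m1 = m0 ∧ m2 = m0 ∧ m3 = m0 ∧ m4 = m0 ∧ n0 = m0 ∧ n1 = m0 ∧ n2 = m0 ∧ n3 = m0 ∧ n4 = m0 := by
  unfold LE at *
  refine ⟨?_, ?_, ?_, ?_, ?_, ?_, ?_, ?_, ?_⟩
  · linear_combination 2 * h0 + 15 * h1 + 3 * h2 + 20 * h3 + 8 * h5 + 13 * h7 + 18 * h8 + 5 * h9 + 11 * hs - ((640771) * m0 + (637186) * m1 + (550497) * m2 + (585924) * m3 + (565988) * m4 + (-601154) * n0 + (-760775) * n1 + (-666439) * n2 + (-708193) * n3 + (-747090) * n4) * h23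
  · linear_combination 1 * h0 + 15 * h1 + 9 * h2 + 16 * h3 + 3 * h5 + 4 * h7 + 20 * h8 + 2 * h9 + 8 * hs - ((533439) * m0 + (524495) * m1 + (423341) * m2 + (480286) * m3 + (488148) * m4 + (-468245) * n0 + (-628430) * n1 + (-546655) * n2 + (-565693) * n3 + (-609143) * n4) * h23
  · linear_combination 21 * h0 + 18 * h1 + 22 * h2 + 3 * h3 + 22 * h5 + 15 * h7 + 18 * h8 + 17 * h9 + 5 * hs - ((938326) * m0 + (1031063) * m1 + (941343) * m2 + (958954) * m3 + (894118) * m4 + (-930269) * n0 + (-1147005) * n1 + (-1078526) * n2 + (-992290) * n3 + (-1171431) * n4) * h23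
  · linear_combination 4 * h0 + 6 * h1 + 9 * h2 + 6 * h3 + 3 * h5 + 6 * h7 + 16 * h8 + 20 * h9 + 16 * hs - ((439732) * m0 + (423685) * m1 + (361759) * m2 + (408946) * m3 + (387224) * m4 + (-429681) * n0 + (-577242) * n1 + (-482967) * n2 + (-514227) * n3 + (-538216) * n4) * h23
  · linear_combination 21 * h0 + 16 * h1 + 22 * h2 + 7 * h3 + 15 * h5 + 17 * h7 + 9 * h8 + 14 * h9 + 11 * hs - ((864427) * m0 + (979062) * m1 + (873431) * m2 + (895895) * m3 + (837112) * m4 + (-888887) * n0 + (-1080948) * n1 + (-1009310) * n2 + (-933840) * n3 + (-1137943) * n4) * h23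
  · linear_combination 11 * h0 + 16 * h1 + 21 * h2 + 5 * h3 + 14 * h5 + 13 * h7 + 10 * h8 + 12 * h9 + 6 * hs - ((716206) * m0 + (803966) * m1 + (722752) * m2 + (750969) * m3 + (699100) * m4 + (-721024) * n0 + (-898048) * n1 + (-840956) * n2 + (-769932) * n3 + (-930002) * n4) * h23
  · linear_combination 9 * h0 + 12 * h1 + 3 * h2 + 21 * h3 + 12 * h5 + 11 * h7 + 19 * h8 + 22 * h9 + 7 * hs - ((782580) * m0 + (792257) * m1 + (696776) * m2 + (738137) * m3 + (693443) * m4 + (-752073) * n0 + (-947982) * n1 + (-828028) * n2 + (-858367) * n3 + (-933443) * n4) * h23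
  · linear_combination 17 * h0 + 16 * h1 + 2 * h2 + 12 * h3 + 22 * h5 + 7 * h7 + 2 * h8 + 11 * h9 + 17 * hs - ((688204) * m0 + (789551) * m1 + (733753) * m2 + (725105) * m3 + (659162) * m4 + (-667459) * n0 + (-779823) * n1 + (-756050) * n2 + (-675537) * n3 + (-846055) * n4) * h23
  · linear_combination 16 * h0 + 17 * h1 + 18 * h2 + 19 * h5 + 13 * h7 + 9 * h8 + 8 * h9 + 21 * hs - ((704098) * m0 + (800442) * m1 + (740512) * m2 + (743401) * m3 + (686897) * m4 + (-704688) * n0 + (-854012) * n1 + (-824370) * n2 + (-733890) * n3 + (-894727) * n4) * h23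

theorem exc_f3 (m0 m1 m2 m3 m4 n0 n1 n2 n3 n4 : ZMod 23)
    (hs : m0 + m1 + m2 + m3 + m4 = n0 + n1 + n2 + n3 + n4)
    (h0 : LE 9 13 17 12 19 19 20 4 5 21 0 1 0 2 m0 m1 m2 m3 m4 -
      LE 9 13 17 12 19 19 20 4 5 21 0 2 0 1 n0 n1 n2 n3 n4 = 0)
    (h1 : LE 10 14 18 13 20 6 9 1 15 15 0 1 0 2 m0 m1 m2 m3 m4 -
      LE 10 14 18 13 20 6 9 1 15 15 0 2 0 1 n0 n1 n2 n3 n4 = 0)
    (h2 : LE 11 15 19 14 21 1 20 12 6 14 0 1 0 2 m0 m1 m2 m3 m4 -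
      LE 11 15 19 14 21 1 20 12 6 14 0 2 0 1 n0 n1 n2 n3 n4 = 0)
    (h3 : LE 12 16 20 15 22 11 16 3 8 17 0 1 0 2 m0 m1 m2 m3 m4 -
      LE 12 16 20 15 22 11 16 3 8 17 0 2 0 1 n0 n1 n2 n3 n4 = 0)
    (h5 : LE 14 18 22 17 1 21 15 4 15 6 0 1 0 2 m0 m1 m2 m3 m4 -
      LE 14 18 22 17 1 21 15 4 15 6 0 2 0 1 n0 n1 n2 n3 n4 = 0)
    (h7 : LE 16 20 1 19 3 15 11 19 17 19 0 1 0 2 m0 m1 m2 m3 m4 -
      LE 16 20 1 19 3 15 11 19 17 19 0 2 0 1 n0 n1 n2 n3 n4 = 0)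
    (h8 : LE 17 21 2 20 4 3 8 15 2 1 0 1 0 2 m0 m1 m2 m3 m4 -
      LE 17 21 2 20 4 3 8 15 2 1 0 2 0 1 n0 n1 n2 n3 n4 = 0)
    (h9 : LE 18 22 3 21 5 9 5 8 6 6 0 1 0 2 m0 m1 m2 m3 m4 -
      LE 18 22 3 21 5 9 5 8 6 6 0 2 0 1 n0 n1 n2 n3 n4 = 0) :
    m1 = m0 ∧ m2 = m0 ∧ m3 = m0 ∧ m4 = m0 ∧ n0 = m0 ∧ n1 = m0 ∧ n2 = m0 ∧ n3 = m0 ∧ n4 = m0 := by
  unfold LE at *
  refine ⟨?_, ?_, ?_, ?_, ?_, ?_, ?_, ?_, ?_⟩
  · linear_combination 13 * h0 + 10 * h1 + 20 * h2 + 7 * h3 + 14 * h5 + 10 * h7 + 17 * h8 + 6 * h9 + 0 * hs - ((691811) * m0 + (877389) * m1 + (777924) * m2 + (762324) * m3 + (825465) * m4 + (-683362) * n0 + (-849064) * n1 + (-803852) * n2 + (-729140) * n3 + (-866033) * n4) * h23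
  · linear_combination 6 * h0 + 2 * h2 + 10 * h3 + 15 * h5 + 14 * h8 + 7 * h9 + 10 * hs - ((383072) * m0 + (455351) * m1 + (437803) * m2 + (400658) * m3 + (412464) * m4 + (-363649) * n0 + (-443825) * n1 + (-432122) * n2 + (-381702) * n3 + (-435258) * n4) * h23
  · linear_combination 15 * h0 + 10 * h1 + 4 * h2 + 19 * h3 + 12 * h5 + 22 * h7 + 20 * h8 + 12 * h9 + 22 * hs - ((865319) * m0 + (1034556) * m1 + (870146) * m2 + (951499) * m3 + (954229) * m4 + (-837102) * n0 + (-1015222) * n1 + (-899228) * n2 + (-944734) * n3 + (-1010419) * n4) * h23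
  · linear_combination 9 * h1 + 12 * h2 + 19 * h3 + 3 * h5 + 17 * h7 + 5 * h8 + 16 * h9 + 20 * hs - ((632832) * m0 + (807965) * m1 + (646809) * m2 + (721303) * m3 + (767118) * m4 + (-628759) * n0 + (-789529) * n1 + (-686917) * n2 + (-704721) * n3 + (-809685) * n4) * h23
  · linear_combination 1 * h0 + 9 * h1 + 2 * h2 + 8 * h3 + 4 * h5 + 7 * h7 + 11 * h8 + 11 * h9 + 6 * hs - ((358759) * m0 + (448870) * m1 + (359291) * m2 + (422417) * m3 + (402820) * m4 + (-342803) * n0 + (-448822) * n1 + (-377545) * n2 + (-416195) * n3 + (-424964) * n4) * h23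
  · linear_combination 1 * h0 + 1 * h1 + 19 * h2 + 15 * h3 + 6 * h5 + 21 * h7 + 2 * h9 + 19 * hs - ((571646) * m0 + (718848) * m1 + (625543) * m2 + (624851) * m3 + (708119) * m4 + (-584069) * n0 + (-691599) * n1 + (-652947) * n2 + (-601723) * n3 + (-744879) * n4) * h23
  · linear_combination 19 * h0 + 15 * h1 + 20 * h2 + 13 * h3 + 13 * h5 + 11 * h7 + 3 * h8 + 13 * h9 + 17 * hs - ((828782) * m0 + (1044229) * m1 + (898168) * m2 + (879102) * m3 + (1022809) * m4 + (-821563) * n0 + (-995951) * n1 + (-937129) * n2 + (-841900) * n3 + (-1078483) * n4) * h23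
  · linear_combination 22 * h0 + 15 * h1 + 12 * h2 + 15 * h3 + 10 * h5 + 16 * h7 + 9 * h8 + 17 * h9 + 18 * hs - ((883728) * m0 + (1091309) * m1 + (905100) * m2 + (952052) * m3 + (1042048) * m4 + (-866329) * n0 + (-1052509) * n1 + (-947226) * n2 + (-933007) * n3 + (-1102652) * n4) * h23
  · linear_combination 14 * h0 + 12 * h1 + 8 * h2 + 4 * h3 + 11 * h5 + 17 * h7 + 10 * h8 + 21 * h9 + 14 * hs - ((683977) * m0 + (830750) * m1 + (704169) * m2 + (756663) * m3 + (776777) * m4 + (-667088) * n0 + (-819694) * n1 + (-725867) * n2 + (-741893) * n3 + (-821248) * n4) * h23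

theorem exc_g1 (m0 m1 m2 m3 m4 n0 n1 n2 n3 n4 : ZMod 23)
    (hs : m0 + m1 + m2 + m3 + m4 = n0 + n1 + n2 + n3 + n4)
    (h0 : LE 9 13 17 12 19 19 20 4 5 21 0 0 1 3 m0 m1 m2 m3 m4 -
      LE 9 13 17 12 19 19 20 4 5 21 0 3 0 1 n0 n1 n2 n3 n4 = 0)
    (h1 : LE 10 14 18 13 20 6 9 1 15 15 0 0 1 3 m0 m1 m2 m3 m4 -
      LE 10 14 18 13 20 6 9 1 15 15 0 3 0 1 n0 n1 n2 n3 n4 = 0)
    (h2 : LE 11 15 19 14 21 1 20 12 6 14 0 0 1 3 m0 m1 m2 m3 m4 -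
      LE 11 15 19 14 21 1 20 12 6 14 0 3 0 1 n0 n1 n2 n3 n4 = 0)
    (h3 : LE 12 16 20 15 22 11 16 3 8 17 0 0 1 3 m0 m1 m2 m3 m4 -
      LE 12 16 20 15 22 11 16 3 8 17 0 3 0 1 n0 n1 n2 n3 n4 = 0)
    (h5 : LE 14 18 22 17 1 21 15 4 15 6 0 0 1 3 m0 m1 m2 m3 m4 -
      LE 14 18 22 17 1 21 15 4 15 6 0 3 0 1 n0 n1 n2 n3 n4 = 0)
    (h7 : LE 16 20 1 19 3 15 11 19 17 19 0 0 1 3 m0 m1 m2 m3 m4 -
      LE 16 20 1 19 3 15 11 19 17 19 0 3 0 1 n0 n1 n2 n3 n4 = 0)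
    (h8 : LE 17 21 2 20 4 3 8 15 2 1 0 0 1 3 m0 m1 m2 m3 m4 -
      LE 17 21 2 20 4 3 8 15 2 1 0 3 0 1 n0 n1 n2 n3 n4 = 0)
    (h9 : LE 18 22 3 21 5 9 5 8 6 6 0 0 1 3 m0 m1 m2 m3 m4 -
      LE 18 22 3 21 5 9 5 8 6 6 0 3 0 1 n0 n1 n2 n3 n4 = 0) :
    m1 = m0 ∧ m2 = m0 ∧ m3 = m0 ∧ m4 = m0 ∧ n0 = m0 ∧ n1 = m0 ∧ n2 = m0 ∧ n3 = m0 ∧ n4 = m0 := by
  unfold LE at *
  refine ⟨?_, ?_, ?_, ?_, ?_, ?_, ?_, ?_, ?_⟩
  · linear_combination 7 * h0 + 16 * h1 + 8 * h2 + 2 * h3 + 1 * h5 + 17 * h7 + 3 * h8 + 12 * h9 + 10 * hs - ((7460032) * m0 + (8241626) * m1 + (6593588) * m2 + (7589430) * m3 + (6859109) * m4 + (-8278285) * n0 + (-10812397) * n1 + (-9103155) * n2 + (-9896061) * n3 + (-11164302) * n4) * h23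
  · linear_combination 22 * h0 + 10 * h1 + 11 * h2 + 11 * h3 + 16 * h5 + 6 * h7 + 19 * h8 + 9 * h9 + 13 * hs - ((13554184) * m0 + (14944041) * m1 + (12684539) * m2 + (13246693) * m3 + (12764120) * m4 + (-12361101) * n0 + (-15885522) * n1 + (-14792686) * n2 + (-13672782) * n3 + (-16678073) * n4) * h23
  · linear_combination 16 * h0 + 16 * h1 + 4 * h2 + 2 * h3 + 10 * h5 + 22 * h7 + 4 * h8 + 14 * h9 + 17 * hs - ((10530342) * m0 + (11423581) * m1 + (10181853) * m2 + (10568870) * m3 + (9223103) * m4 + (-11156459) * n0 + (-13770403) * n1 + (-12031913) * n2 + (-12782157) * n3 + (-14380429) * n4) * h23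
  · linear_combination 2 * h0 + 20 * h1 + 10 * h2 + 4 * h3 + 22 * h5 + 15 * h7 + 10 * h8 + 1 * h9 + 3 * hs - ((11117827) * m0 + (12299435) * m1 + (11761146) * m2 + (11888025) * m3 + (10426328) * m4 + (-10045187) * n0 + (-12943535) * n1 + (-12369568) * n2 + (-11216922) * n3 + (-13336362) * n4) * h23
  · linear_combination 18 * h1 + 21 * h2 + 7 * h3 + 17 * h5 + 15 * h7 + 10 * h8 + 6 * h9 + 13 * hs - ((11997985) * m0 + (14079338) * m1 + (12526824) * m2 + (13274969) * m3 + (12074170) * m4 + (-11643014) * n0 + (-15384726) * n1 + (-14519231) * n2 + (-12745783) * n3 + (-16087578) * n4) * h23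
  · linear_combination 14 * h0 + 15 * h1 + 10 * h2 + 20 * h3 + 20 * h5 + 5 * h7 + 19 * h8 + 9 * h9 + 19 * hs - ((15420868) * m0 + (17111075) * m1 + (14551711) * m2 + (15447570) * m3 + (14638793) * m4 + (-13577739) * n0 + (-17787752) * n1 + (-16574046) * n2 + (-15166814) * n3 + (-18743230) * n4) * h23
  · linear_combination 12 * h0 + 18 * h1 + 8 * h3 + 12 * h5 + 18 * h7 + 6 * h8 + 18 * h9 + 7 * hs - ((11468780) * m0 + (12090825) * m1 + (10705689) * m2 + (11411491) * m3 + (9891869) * m4 + (-11401545) * n0 + (-14485113) * n1 + (-12471006) * n2 + (-13392335) * n3 + (-14901475) * n4) * h23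
  · linear_combination 5 * h0 + 18 * h1 + 8 * h2 + 7 * h3 + 1 * h5 + 13 * h7 + 1 * h8 + 13 * h9 + 10 * hs - ((7850465) * m0 + (9041901) * m1 + (6964171) * m2 + (8273184) * m3 + (7540291) * m4 + (-8390128) * n0 + (-11180262) * n1 + (-9484915) * n2 + (-9920316) * n3 + (-11864486) * n4) * h23
  · linear_combination 16 * h0 + 16 * h1 + 17 * h2 + 22 * h5 + 9 * h7 + 13 * h9 + 16 * hs - ((11503742) * m0 + (14345934) * m1 + (13297470) * m2 + (13469273) * m3 + (11784579) * m4 + (-11346377) * n0 + (-14198902) * n1 + (-13862080) * n2 + (-11274808) * n3 + (-15809154) * n4) * h23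

theorem exc_h1 (m0 m1 m2 m3 m4 n0 n1 n2 n3 n4 : ZMod 23)
    (hs : m0 + m1 + m2 + m3 + m4 = n0 + n1 + n2 + n3 + n4)
    (h0 : LE 9 13 17 12 19 19 20 4 5 21 0 21 21 21 m0 m1 m2 m3 m4 -
      LE 9 13 17 12 19 19 20 4 5 21 21 0 21 21 n0 n1 n2 n3 n4 + 16 = 0)
    (h1 : LE 10 14 18 13 20 6 9 1 15 15 0 21 21 21 m0 m1 m2 m3 m4 -
      LE 10 14 18 13 20 6 9 1 15 15 21 0 21 21 n0 n1 n2 n3 n4 + 9 = 0)
    (h2 : LE 11 15 19 14 21 1 20 12 6 14 0 21 21 21 m0 m1 m2 m3 m4 -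
      LE 11 15 19 14 21 1 20 12 6 14 21 0 21 21 n0 n1 n2 n3 n4 + 3 = 0)
    (h3 : LE 12 16 20 15 22 11 16 3 8 17 0 21 21 21 m0 m1 m2 m3 m4 -
      LE 12 16 20 15 22 11 16 3 8 17 21 0 21 21 n0 n1 n2 n3 n4 + 7 = 0)
    (h5 : LE 14 18 22 17 1 21 15 4 15 6 0 21 21 21 m0 m1 m2 m3 m4 -
      LE 14 18 22 17 1 21 15 4 15 6 21 0 21 21 n0 n1 n2 n3 n4 + 4 = 0)
    (h7 : LE 16 20 1 19 3 15 11 19 17 19 0 21 21 21 m0 m1 m2 m3 m4 -
      LE 16 20 1 19 3 15 11 19 17 19 21 0 21 21 n0 n1 n2 n3 n4 + 16 = 0)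
    (h8 : LE 17 21 2 20 4 3 8 15 2 1 0 21 21 21 m0 m1 m2 m3 m4 -
      LE 17 21 2 20 4 3 8 15 2 1 21 0 21 21 n0 n1 n2 n3 n4 = 0)
    (h9 : LE 18 22 3 21 5 9 5 8 6 6 0 21 21 21 m0 m1 m2 m3 m4 -
      LE 18 22 3 21 5 9 5 8 6 6 21 0 21 21 n0 n1 n2 n3 n4 + 2 = 0) :
    m1 = m0 ∧ m2 = m0 + 22 := by
  unfold LE at *
  refine ⟨?_, ?_⟩
  · linear_combination 10 * h0 + 8 * h1 + 4 * h2 + 17 * h3 + 4 * h5 + 5 * h8 + 6 * h9 + 8 * hs - ((1591271817468553216259479041536078520355505267077830226578880796168509276987696419) * m0 + (2841962895726010838486338812273239922061758063974239340601399605821766317283337935) * m1 + (1029941578439361140983069272863010065317946345913709566567094938346162081364765200) * m2 + (1148327878487489322790846279261141819477014268143086433890691639351149396829566494) * m3 + (2698539790603582019292065980091582497599303629723498777070055283312887312848931820)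 * m4 + (-49961850681075081053126710587102742359177024191044898641193159822624707561010944586) * n0 + (-40925082841018342584237350625585676473697736007035483252596558009587320370148243274) * n1 + (-37890054187874024456861671325688119875085800810459558431395901584139698649583772612) * n2 + (-56950753871702881251790603035699897684116419337208749645389692486617813753535445250) * n3 + (-30085531108566684872420265913118835333944093861323883825767780631620900715823075618) * n4 + (17)) * h23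
  · linear_combination 8 * h0 + 12 * h1 + 3 * h2 + 18 * h3 + 22 * h5 + 9 * h7 + 11 * h8 + 21 * h9 + 6 * hs - ((2873314069595470635143046185048086865812094961961180112378810382500570714463185641) * m0 + (7014322174479263992963350430192579698143164090804455248150396851314570223460041492) * m1 + (4005724538424334185894648886985310481576188109408682790765213930843880099804929121) * m2 + (2023080225772935462032713839181033406141249882532128836292339080864897888228327320) * m3 + (5717431726392216243613018120724157124128092242539915429689945515996313035724541853) * m4 + (-162269523529103432554374040114035999528410450386887008458047612781378784503466628260) * n0 + (-123453331262206101209579112949429329780226677813619874959385710378167208557791521924) * n1 + (-120060258281565356080163428743124143795543476664866560243434171450749115047103355637) * n2 + (-180336415942212128811117538442183247889877303200274155908232935774887326212590915092)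 * n3 + (-99913176639440511783459147049090358615132533894167153892826290076592765879170139735) * n4 + (29)) * h23

end Pool.Agent.Lib.MP_c53f59_gt.K60
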