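import Pool.Agent.Lib.MP_c53f59_gt.K60.Exc

/-! Expansion of T modulo 529 to the first order, and the linear equations. -/

namespace Pool.Agent.Lib.MP_c53f59_gt.K60

theorem pow_lin (t : ZMod 529) (m : ℕ) : (1 + 23 * t) ^ m = 1 + 23 * ((m : ZMod 529) * t) := by
  have h0 : (23 : ZMod 529) * 23 = 0 := by decide
  induction m with
  | zero => simp
  | succ m ih =>
    rw [pow_succ, ih]
    push_cast
    linear_combination (m : ZMod 529) * t * t * h0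

theorem mono_lin (y0 y1 y2 y3 y4 t0 t1 t2 t3 t4 : ZMod 529) (h0 : y0 ^ 22 = 1 + 23 * t0)
    (h1 : y1 ^ 22 = 1 + 23 * t1) (h2 : y2 ^ 22 = 1 + 23 * t2) (h3 : y3 ^ 22 = 1 + 23 * t3)
    (h4 : y4 ^ 22 = 1 + 23 * t4) (a b c d e m0 m1 m2 m3 m4 : ℕ) :
    y0 ^ (a + 22 * m0) * y1 ^ (b + 22 * m1) * y2 ^ (c + 22 * m2) * y3 ^ (d + 22 * m3) *
      y4 ^ (e + 22 * m4) = y0 ^ a * y1 ^ b * y2 ^ c * y3 ^ d * y4 ^ e +
      23 * (y0 ^ a * y1 ^ b * y2 ^ c * y3 ^ d * y4 ^ e *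
        (m0 * t0 + m1 * t1 + m2 * t2 + m3 * t3 + m4 * t4)) := by
  have hz : (23 : ZMod 529) * 23 = 0 := by decide
  have e2 : ∀ u v : ZMod 529, (1 + 23 * u) * (1 + 23 * v) = 1 + 23 * (u + v) := by
    intro u v
    linear_combination u * v * hz
  rw [pow_add, pow_add, pow_add, pow_add, pow_add, pow_mul, pow_mul, pow_mul, pow_mul, pow_mul,
    h0, h1, h2, h3, h4, pow_lin, pow_lin, pow_lin, pow_lin, pow_lin]
  calc y0 ^ a * (1 + 23 * ((m0 : ZMod 529) * t0)) * (y1 ^ b * (1 + 23 * ((m1 : ZMod 529) * t1))) *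
      (y2 ^ c * (1 + 23 * ((m2 : ZMod 529) * t2))) * (y3 ^ d * (1 + 23 * ((m3 : ZMod 529) * t3))) *
      (y4 ^ e * (1 + 23 * ((m4 : ZMod 529) * t4)))
      = y0 ^ a * y1 ^ b * y2 ^ c * y3 ^ d * y4 ^ e * ((1 + 23 * ((m0 : ZMod 529) * t0)) *
        (1 + 23 * ((m1 : ZMod 529) * t1)) * (1 + 23 * ((m2 : ZMod 529) * t2)) *
        (1 + 23 * ((m3 : ZMod 529) * t3)) * (1 + 23 * ((m4 : ZMod 529) * t4))) := by ring
    _ = _ := by
      rw [e2, e2, e2, e2]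
      ring

/-- the first order part -/
def LA {R : Type*} [CommRing R] (y0 y1 y2 y3 y4 t0 t1 t2 t3 t4 : R) (a b c d : ℕ)
    (x0 x1 x2 x3 x4 : R) : R :=
  (y1 ^ a * y2 ^ b * y3 ^ c * y4 ^ d) * (x0 * t0 + x1 * t1 + x2 * t2 + x3 * t3 + x4 * t4) +
  (y2 ^ a * y3 ^ b * y4 ^ c * y0 ^ d) * (x0 * t1 + x1 * t2 + x2 * t3 + x3 * t4 + x4 * t0) +
  (y3 ^ a * y4 ^ b * y0 ^ c * y1 ^ d) * (x0 * t2 + x1 * t3 + x2 * t4 + x3 * t0 + x4 * t1) +
  (y4 ^ a * y0 ^ b * y1 ^ c * y2 ^ d) * (x0 * t3 + x1 * t4 + x2 * t0 + x3 * t1 + x4 * t2) +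
  (y0 ^ a * y1 ^ b * y2 ^ c * y3 ^ d) * (x0 * t4 + x1 * t0 + x2 * t1 + x3 * t2 + x4 * t3)

theorem expand (y0 y1 y2 y3 y4 t0 t1 t2 t3 t4 : ZMod 529) (h0 : y0 ^ 22 = 1 + 23 * t0)
    (h1 : y1 ^ 22 = 1 + 23 * t1) (h2 : y2 ^ 22 = 1 + 23 * t2) (h3 : y3 ^ 22 = 1 + 23 * t3)
    (h4 : y4 ^ 22 = 1 + 23 * t4) (a b c d m0 m1 m2 m3 m4 : ℕ) :
    T5 y0 y1 y2 y3 y4 (0 + 22 * m0) (a + 22 * m1) (b + 22 * m2) (c + 22 * m3) (d + 22 * m4) =
    T5 y0 y1 y2 y3 y4 0 a b c d + 23 * LA y0 y1 y2 y3 y4 t0 t1 t2 t3 t4 a b c d m0 m1 m2 m3 m4 := by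
  unfold T5 LA
  rw [mono_lin y0 y1 y2 y3 y4 t0 t1 t2 t3 t4 h0 h1 h2 h3 h4,
    mono_lin y1 y2 y3 y4 y0 t1 t2 t3 t4 t0 h1 h2 h3 h4 h0,
    mono_lin y2 y3 y4 y0 y1 t2 t3 t4 t0 t1 h2 h3 h4 h0 h1,
    mono_lin y3 y4 y0 y1 y2 t3 t4 t0 t1 t2 h3 h4 h0 h1 h2,
    mono_lin y4 y0 y1 y2 y3 t4 t0 t1 t2 t3 h4 h0 h1 h2 h3]
  ring

/-- reduction modulo 23 -/
def red : ZMod 529 →+* ZMod 23 := ZMod.castHom (by norm_num : 23 ∣ 529) (ZMod 23)

theorem red_of (x : ZMod 529) (h : 23 * x = 0) : red x = 0 := by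
  have : ∀ x : ZMod 529, 23 * x = 0 → red x = 0 := by decide +kernel
  exact this x h

theorem red_LA (y0 y1 y2 y3 y4 t0 t1 t2 t3 t4 : ZMod 529) (a b c d m0 m1 m2 m3 m4 : ℕ) :
    red (LA y0 y1 y2 y3 y4 t0 t1 t2 t3 t4 a b c d m0 m1 m2 m3 m4) =
    LA (red y0) (red y1) (red y2) (red y3) (red y4) (red t0) (red t1) (red t2) (red t3) (red t4)
      a b c d m0 m1 m2 m3 m4 := by
  unfold LA
  simp only [map_add, map_mul, map_pow, map_natCast]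

/-- one point: equality of T for two vectors with residues (0,a,b,c,d) and (0,a',b',c',d') -/
theorem point (y0 y1 y2 y3 y4 t0 t1 t2 t3 t4 : ZMod 529) (h0 : y0 ^ 22 = 1 + 23 * t0)
    (h1 : y1 ^ 22 = 1 + 23 * t1) (h2 : y2 ^ 22 = 1 + 23 * t2) (h3 : y3 ^ 22 = 1 + 23 * t3)
    (h4 : y4 ^ 22 = 1 + 23 * t4) (k : ZMod 529) (a b c d a' b' c' d' m0 m1 m2 m3 m4
    n0 n1 n2 n3 n4 : ℕ) (hk : T5 y0 y1 y2 y3 y4 0 a b c d = T5 y0 y1 y2 y3 y4 0 a' b' c' d' + 23 * k)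
    (h : T5 y0 y1 y2 y3 y4 (0 + 22 * m0) (a + 22 * m1) (b + 22 * m2) (c + 22 * m3) (d + 22 * m4) =
      T5 y0 y1 y2 y3 y4 (0 + 22 * n0) (a' + 22 * n1) (b' + 22 * n2) (c' + 22 * n3)
        (d' + 22 * n4)) :
    LA (red y0) (red y1) (red y2) (red y3) (red y4) (red t0) (red t1) (red t2) (red t3) (red t4)
      a b c d m0 m1 m2 m3 m4 - LA (red y0) (red y1) (red y2) (red y3) (red y4)
      (red t0) (red t1) (red t2) (red t3) (red t4) a' b' c' d' n0 n1 n2 n3 n4 + red k = 0 := by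
  rw [expand _ _ _ _ _ _ _ _ _ _ h0 h1 h2 h3 h4, expand _ _ _ _ _ _ _ _ _ _ h0 h1 h2 h3 h4,
    hk] at h
  have := red_of (LA y0 y1 y2 y3 y4 t0 t1 t2 t3 t4 a b c d m0 m1 m2 m3 m4 -
    LA y0 y1 y2 y3 y4 t0 t1 t2 t3 t4 a' b' c' d' n0 n1 n2 n3 n4 + k) (by linear_combination h)
  rw [map_add, map_sub, red_LA, red_LA] at this
  exact this

/-- all eight points -/
def Pt8 (f : ZMod 529 → ZMod 529 → ZMod 529 → ZMod 529 → ZMod 529 → Prop) : Prop :=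
  f 469 105 86 12 387 ∧
  f 470 106 87 13 388 ∧
  f 471 107 88 14 389 ∧
  f 472 108 89 15 390 ∧
  f 474 110 91 17 392 ∧
  f 476 112 93 19 394 ∧
  f 477 113 94 20 395 ∧
  f 478 114 95 21 396

theorem pt8_of (e e' : ZMod 5 → ℕ) (h : ∀ w : ZMod 529, T60 c529 e w = T60 c529 e' w) :
    Pt8 (fun y0 y1 y2 y3 y4 => T5 y0 y1 y2 y3 y4 (e 0) (e 1) (e 2) (e 3) (e 4) =
      T5 y0 y1 y2 y3 y4 (e' 0) (e' 1) (e' 2) (e' 3) (e' 4)) := by
  simp only [T60_eq] at h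
  refine ⟨h 0, h 1, h 2, h 3, h 5, h 7, h 8, h 9⟩

theorem to23 (e e' : ZMod 5 → ℕ) (h : ∀ w : ZMod 529, T60 c529 e w = T60 c529 e' w)
    (w : ZMod 23) : T60 c23 e w = T60 c23 e' w := by
  obtain ⟨v, rfl⟩ : ∃ v : ZMod 529, red v = w := ZMod.castHom_surjective (by norm_num) w
  have hc : (fun x => red (c529 x)) = c23 := by
    funext x
    have : ∀ x : ZMod 5, red (c529 x) = c23 x := by decide
    exact this x
  have := congrArg red (h v)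
  rwa [T60_map, T60_map, hc] at this

/-- the same residues: the eight linear equations for the differences -/
theorem lin8_of (a b c d m0 m1 m2 m3 m4 n0 n1 n2 n3 n4 : ℕ)
    (h : Pt8 (fun y0 y1 y2 y3 y4 =>
      T5 y0 y1 y2 y3 y4 (0 + 22 * m0) (a + 22 * m1) (b + 22 * m2) (c + 22 * m3) (d + 22 * m4) =
      T5 y0 y1 y2 y3 y4 (0 + 22 * n0) (a + 22 * n1) (b + 22 * n2) (c + 22 * n3) (d + 22 * n4))) :
    Lin8 a b c d ((m0 : ZMod 23) - n0) (m1 - n1) (m2 - n2) (m3 - n3) (m4 - n4) := by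
  obtain ⟨g0, g1, g2, g3, g4, g5, g6, g7⟩ := h
  have k0 := point _ _ _ _ _ 19 20 4 5 21 (by decide) (by decide) (by decide) (by decide) (by decide) 0
    a b c d a b c d m0 m1 m2 m3 m4 n0 n1 n2 n3 n4 (by simp) g0
  have k1 := point _ _ _ _ _ 6 9 1 15 15 (by decide) (by decide) (by decide) (by decide) (by decide) 0
    a b c d a b c d m0 m1 m2 m3 m4 n0 n1 n2 n3 n4 (by simp) g1
  have k2 := point _ _ _ _ _ 1 20 12 6 14 (by decide) (by decide) (by decide) (by decide) (by decide) 0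
    a b c d a b c d m0 m1 m2 m3 m4 n0 n1 n2 n3 n4 (by simp) g2
  have k3 := point _ _ _ _ _ 11 16 3 8 17 (by decide) (by decide) (by decide) (by decide) (by decide) 0
    a b c d a b c d m0 m1 m2 m3 m4 n0 n1 n2 n3 n4 (by simp) g3
  have k4 := point _ _ _ _ _ 21 15 4 15 6 (by decide) (by decide) (by decide) (by decide) (by decide) 0
    a b c d a b c d m0 m1 m2 m3 m4 n0 n1 n2 n3 n4 (by simp) g4
  have k5 := point _ _ _ _ _ 15 11 19 17 19 (by decide) (by decide) (by decide) (by decide) (by decide) 0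
    a b c d a b c d m0 m1 m2 m3 m4 n0 n1 n2 n3 n4 (by simp) g5
  have k6 := point _ _ _ _ _ 3 8 15 2 1 (by decide) (by decide) (by decide) (by decide) (by decide) 0
    a b c d a b c d m0 m1 m2 m3 m4 n0 n1 n2 n3 n4 (by simp) g6
  have k7 := point _ _ _ _ _ 9 5 8 6 6 (by decide) (by decide) (by decide) (by decide) (by decide) 0
    a b c d a b c d m0 m1 m2 m3 m4 n0 n1 n2 n3 n4 (by simp) g7
  refine ⟨?_, ?_, ?_, ?_, ?_, ?_, ?_, ?_⟩
  · change LA (9 : ZMod 23) 13 17 12 19 19 20 4 5 21 a b c d m0 m1 m2 m3 m4 -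
      LA (9 : ZMod 23) 13 17 12 19 19 20 4 5 21 a b c d n0 n1 n2 n3 n4 + 0 = 0 at k0
    unfold LA at k0
    unfold Lin
    push_cast
    linear_combination k0
  · change LA (10 : ZMod 23) 14 18 13 20 6 9 1 15 15 a b c d m0 m1 m2 m3 m4 -
      LA (10 : ZMod 23) 14 18 13 20 6 9 1 15 15 a b c d n0 n1 n2 n3 n4 + 0 = 0 at k1
    unfold LA at k1
    unfold Lin
    push_cast
    linear_combination k1
  · change LA (11 : ZMod 23) 15 19 14 21 1 20 12 6 14 a b c d m0 m1 m2 m3 m4 -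
      LA (11 : ZMod 23) 15 19 14 21 1 20 12 6 14 a b c d n0 n1 n2 n3 n4 + 0 = 0 at k2
    unfold LA at k2
    unfold Lin
    push_cast
    linear_combination k2
  · change LA (12 : ZMod 23) 16 20 15 22 11 16 3 8 17 a b c d m0 m1 m2 m3 m4 -
      LA (12 : ZMod 23) 16 20 15 22 11 16 3 8 17 a b c d n0 n1 n2 n3 n4 + 0 = 0 at k3
    unfold LA at k3
    unfold Lin
    push_cast
    linear_combination k3
  · change LA (14 : ZMod 23) 18 22 17 1 21 15 4 15 6 a b c d m0 m1 m2 m3 m4 -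
      LA (14 : ZMod 23) 18 22 17 1 21 15 4 15 6 a b c d n0 n1 n2 n3 n4 + 0 = 0 at k4
    unfold LA at k4
    unfold Lin
    push_cast
    linear_combination k4
  · change LA (16 : ZMod 23) 20 1 19 3 15 11 19 17 19 a b c d m0 m1 m2 m3 m4 -
      LA (16 : ZMod 23) 20 1 19 3 15 11 19 17 19 a b c d n0 n1 n2 n3 n4 + 0 = 0 at k5
    unfold LA at k5
    unfold Lin
    push_cast
    linear_combination k5
  · change LA (17 : ZMod 23) 21 2 20 4 3 8 15 2 1 a b c d m0 m1 m2 m3 m4 -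
      LA (17 : ZMod 23) 21 2 20 4 3 8 15 2 1 a b c d n0 n1 n2 n3 n4 + 0 = 0 at k6
    unfold LA at k6
    unfold Lin
    push_cast
    linear_combination k6
  · change LA (18 : ZMod 23) 22 3 21 5 9 5 8 6 6 a b c d m0 m1 m2 m3 m4 -
      LA (18 : ZMod 23) 22 3 21 5 9 5 8 6 6 a b c d n0 n1 n2 n3 n4 + 0 = 0 at k7
    unfold LA at k7
    unfold Lin
    push_cast
    linear_combination k7

end Pool.Agent.Lib.MP_c53f59_gt.K60
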