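import Pool.Agent.Lib.MP_c53f59_gt.K60.Deg

/-! Assembly, first part: equal residues. -/

namespace Pool.Agent.Lib.MP_c53f59_gt.K60

theorem all5 {P : ZMod 5 → Prop} (h0 : P 0) (h1 : P 1) (h2 : P 2) (h3 : P 3) (h4 : P 4) :
    ∀ x, P x := by
  intro x
  have : ∀ x : ZMod 5, x = 0 ∨ x = 1 ∨ x = 2 ∨ x = 3 ∨ x = 4 := by decide
  rcases this x with rfl | rfl | rfl | rfl | rfl <;> assumption

theorem eq5_spec {a b c d e a' b' c' d' e' : ℕ} (h : eq5 a b c d e a' b' c' d' e' = true) :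
    a = a' ∧ b = b' ∧ c = c' ∧ d = d' ∧ e = e' := by
  simp only [eq5, Bool.and_eq_true] at h
  obtain ⟨h1, h2, h3, h4, h5⟩ := h
  exact ⟨Nat.eq_of_beq_eq_true h1, Nat.eq_of_beq_eq_true h2, Nat.eq_of_beq_eq_true h3,
    Nat.eq_of_beq_eq_true h4, Nat.eq_of_beq_eq_true h5⟩

theorem isrot_spec (f g : ZMod 5 → ℕ)
    (h : isrot (f 0) (f 1) (f 2) (f 3) (f 4) (g 0) (g 1) (g 2) (g 3) (g 4) = true) :
    ∃ s, ∀ x, g x = f (x + s) := by
  simp only [isrot, Bool.or_eq_true] at h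
  rcases h with h | h | h | h | h
  · obtain ⟨h1, h2, h3, h4, h5⟩ := eq5_spec h
    exact ⟨0, all5 h1.symm h2.symm h3.symm h4.symm h5.symm⟩
  · obtain ⟨h1, h2, h3, h4, h5⟩ := eq5_spec h
    exact ⟨1, all5 h1.symm h2.symm h3.symm h4.symm h5.symm⟩
  · obtain ⟨h1, h2, h3, h4, h5⟩ := eq5_spec h
    exact ⟨2, all5 h1.symm h2.symm h3.symm h4.symm h5.symm⟩
  · obtain ⟨h1, h2, h3, h4, h5⟩ := eq5_spec h
    exact ⟨3, all5 h1.symm h2.symm h3.symm h4.symm h5.symm⟩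
  · obtain ⟨h1, h2, h3, h4, h5⟩ := eq5_spec h
    exact ⟨4, all5 h1.symm h2.symm h3.symm h4.symm h5.symm⟩

theorem L5_spec (f : Nat → Bool) (h : L5.all f = true) (x : Nat) (hx : x < 5) : f x = true := by
  rw [List.all_eq_true] at h
  apply h
  unfold L5
  interval_cases x <;> simp

theorem in3_spec (f : Nat → Nat → Nat → Bool) (h : in3 f = true) (p q r : ℕ) (hs : p + q + r ≤ 4) :
    f p q r = true := by
  have h1 := L5_spec _ (L5_spec _ (L5_spec _ h p (by omega)) q (by omega)) r (by omega)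
  rw [Bool.or_eq_true] at h1
  rcases h1 with h1 | h1
  · exfalso
    have := Nat.le_of_ble_eq_true h1
    change 5 ≤ p + q + r at this
    omega
  · exact h1

theorem Sn_le (a b c d e x y z u v : ℕ) : Sn a b c d e x y z u v ≤ x + y + z + u + v := by
  change iz a * x + iz b * y + iz c * z + iz d * u + iz e * v ≤ _
  have h : ∀ n, iz n ≤ 1 := fun n => Nat.sub_le 1 n
  have h1 := Nat.mul_le_mul_right x (h a)
  have h2 := Nat.mul_le_mul_right y (h b)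
  have h3 := Nat.mul_le_mul_right z (h c)
  have h4 := Nat.mul_le_mul_right u (h d)
  have h5 := Nat.mul_le_mul_right v (h e)
  omega

theorem Sn_inj (a b c d e x y z u v a' b' c' d' e' x' y' z' u' v' : ℕ)
    (h1 : x + y + z + u + v ≤ 4) (h2 : x' + y' + z' + u' + v' ≤ 4)
    (h : ((Sn a b c d e x y z u v : ℕ) : ZMod 23) = (Sn a' b' c' d' e' x' y' z' u' v' : ℕ)) :
    Sn a b c d e x y z u v = Sn a' b' c' d' e' x' y' z' u' v' := by
  have g1 := Sn_le a b c d e x y z u v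
  have g2 := Sn_le a' b' c' d' e' x' y' z' u' v'
  exact cast_inj23 _ _ (by omega) (by omega) h

theorem dgc_rot (a b c d a' b' c' d' : ℕ) (hs : a + b + c + d ≤ 4) (hs' : a' + b' + c' + d' ≤ 4)
    (h : Pt5 (fun y1 y2 y3 y4 =>
      T5 0 y1 y2 y3 y4 (22 * 0) (22 * a) (22 * b) (22 * c) (22 * d) =
      T5 0 y1 y2 y3 y4 (22 * 0) (22 * a') (22 * b') (22 * c') (22 * d')))
    (hk : dgc a b c d a' b' c' d' = true) : isrot 0 a b c d 0 a' b' c' d' = true := by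
  obtain ⟨h0, h1, h2, h3, h4⟩ := deg_eqs _ _ _ _ _ _ _ _ _ _ h
  have k1 := Sn_inj _ _ _ _ _ _ _ _ _ _ _ _ _ _ _ _ _ _ _ _ (by omega) (by omega) h1
  have k2 := Sn_inj _ _ _ _ _ _ _ _ _ _ _ _ _ _ _ _ _ _ _ _ (by omega) (by omega) h2
  have k3 := Sn_inj _ _ _ _ _ _ _ _ _ _ _ _ _ _ _ _ _ _ _ _ (by omega) (by omega) h3
  have k4 := Sn_inj _ _ _ _ _ _ _ _ _ _ _ _ _ _ _ _ _ _ _ _ (by omega) (by omega) h4
  unfold dgc at hk
  rw [h0, k1, k2, k3, k4] at hk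
  simpa [Nat.beq_refl] using hk

/-- all entries divisible by 22 -/
theorem deg_case (f g : ZMod 5 → ℕ) (hT : ∀ w : ZMod 529, T60 c529 f w = T60 c529 g w)
    (hf : ∀ x, f x % 22 = 0) (hg : ∀ x, g x % 22 = 0) (hsum : ∑ x, f x = ∑ x, g x)
    (hle : ∑ x, f x ≤ 108) (hf0 : f 0 = 0) (hg0 : g 0 = 0) (hf1 : f 1 = 0 ∨ f 2 = 0)
    (hg1 : g 1 = 0 ∨ g 2 = 0) : ∃ s, ∀ x, g x = f (x + s) := by
  have hP := pt5_of f g hT
  rw [sum5, sum5] at hsum
  rw [sum5] at hle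
  obtain ⟨m1, e1⟩ : ∃ m, f 1 = 22 * m := ⟨f 1 / 22, by have := hf 1; omega⟩
  obtain ⟨m2, e2⟩ : ∃ m, f 2 = 22 * m := ⟨f 2 / 22, by have := hf 2; omega⟩
  obtain ⟨m3, e3⟩ : ∃ m, f 3 = 22 * m := ⟨f 3 / 22, by have := hf 3; omega⟩
  obtain ⟨m4, e4⟩ : ∃ m, f 4 = 22 * m := ⟨f 4 / 22, by have := hf 4; omega⟩
  obtain ⟨n1, g1⟩ : ∃ m, g 1 = 22 * m := ⟨g 1 / 22, by have := hg 1; omega⟩
  obtain ⟨n2, g2⟩ : ∃ m, g 2 = 22 * m := ⟨g 2 / 22, by have := hg 2; omega⟩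
  obtain ⟨n3, g3⟩ : ∃ m, g 3 = 22 * m := ⟨g 3 / 22, by have := hg 3; omega⟩
  obtain ⟨n4, g4⟩ : ∃ m, g 4 = 22 * m := ⟨g 4 / 22, by have := hg 4; omega⟩
  have ez : (0 : ℕ) = 22 * 0 := rfl
  rw [hf0, e1, e2, e3, e4, hg0, g1, g2, g3, g4] at hP
  have hr : isrot 0 m1 m2 m3 m4 0 n1 n2 n3 n4 = true := by
    apply dgc_rot m1 m2 m3 m4 n1 n2 n3 n4 (by omega) (by omega) hP
    have hk := kD
    have key : ∀ p q r p' q' r' : ℕ, p + q + r ≤ 4 → p' + q' + r' ≤ 4 →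
        (dgc 0 p q r 0 p' q' r' && (dgc 0 p q r p' 0 q' r' &&
        (dgc p 0 q r 0 p' q' r' && dgc p 0 q r p' 0 q' r'))) = true := fun p q r p' q' r' h h' =>
      in3_spec _ (in3_spec _ kD p q r h) p' q' r' h'
    simp only [Bool.and_eq_true] at key
    rcases hf1 with h | h
    · have hm : m1 = 0 := by omega
      subst hm
      rcases hg1 with h' | h'
      · have hn : n1 = 0 := by omega
        subst hn
        exact (key m2 m3 m4 n2 n3 n4 (by omega) (by omega)).1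
      · have hn : n2 = 0 := by omega
        subst hn
        exact (key m2 m3 m4 n1 n3 n4 (by omega) (by omega)).2.1
    · have hm : m2 = 0 := by omega
      subst hm
      rcases hg1 with h' | h'
      · have hn : n1 = 0 := by omega
        subst hn
        exact (key m1 m3 m4 n2 n3 n4 (by omega) (by omega)).2.2.1
      · have hn : n2 = 0 := by omega
        subst hn
        exact (key m1 m3 m4 n1 n3 n4 (by omega) (by omega)).2.2.2
  obtain ⟨s, hs⟩ := isrot_spec (![0, m1, m2, m3, m4] : Fin 5 → ℕ) (![0, n1, n2, n3, n4] : Fin 5 → ℕ) hr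
  refine ⟨s, fun x => ?_⟩
  have fE : ∀ x, f x = 22 * (![0, m1, m2, m3, m4] : Fin 5 → ℕ) x := all5 hf0 e1 e2 e3 e4
  have gE : ∀ x, g x = 22 * (![0, n1, n2, n3, n4] : Fin 5 → ℕ) x := all5 hg0 g1 g2 g3 g4
  rw [fE, gE]
  exact congrArg (fun z => 22 * z) (hs x)

end Pool.Agent.Lib.MP_c53f59_gt.K60
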