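import Pool.Agent.Lib.MP_c53f59_gt.K60.Fin1

/-! Assembly, second part: equal residues. -/

namespace Pool.Agent.Lib.MP_c53f59_gt.K60

theorem small_eq (m n : ℕ) (hm : m ≤ 4) (hn : n ≤ 4) (h : (m : ZMod 23) - n = 0) : m = n :=
  cast_inj23 m n (by omega) (by omega) (sub_eq_zero.1 h)

theorem pos2 (h g : ZMod 5 → ℕ) (hh : ∀ x, h x % 22 = g x % 22)
    (hx : ∃ x y, x ≠ y ∧ h x = 0 ∧ h y = 0) :
    (g 2 % 22 ≠ 0 → g 3 % 22 ≠ 0 → g 4 % 22 ≠ 0 → h 0 = 0 ∧ h 1 = 0) ∧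
    (g 1 % 22 ≠ 0 → g 3 % 22 ≠ 0 → g 4 % 22 ≠ 0 → h 0 = 0 ∧ h 2 = 0) := by
  obtain ⟨x, y, hxy, hx, hy⟩ := hx
  have n1 : h 1 = 0 → g 1 % 22 = 0 := fun h1 => by rw [← hh, h1]
  have n2 : h 2 = 0 → g 2 % 22 = 0 := fun h1 => by rw [← hh, h1]
  have n3 : h 3 = 0 → g 3 % 22 = 0 := fun h1 => by rw [← hh, h1]
  have n4 : h 4 = 0 → g 4 % 22 = 0 := fun h1 => by rw [← hh, h1]
  have c5 : ∀ x : ZMod 5, x = 0 ∨ x = 1 ∨ x = 2 ∨ x = 3 ∨ x = 4 := by decide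
  constructor
  · intro z2 z3 z4
    have cx : ∀ x, h x = 0 → x = 0 ∨ x = 1 := by
      intro x hx
      rcases c5 x with rfl | rfl | rfl | rfl | rfl
      · left; rfl
      · right; rfl
      · exact absurd (n2 hx) z2
      · exact absurd (n3 hx) z3
      · exact absurd (n4 hx) z4
    rcases cx x hx with rfl | rfl
    · rcases cx y hy with rfl | rfl
      · exact absurd rfl hxy
      · exact ⟨hx, hy⟩
    · rcases cx y hy with rfl | rfl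
      · exact ⟨hy, hx⟩
      · exact absurd rfl hxy
  · intro z1 z3 z4
    have cx : ∀ x, h x = 0 → x = 0 ∨ x = 2 := by
      intro x hx
      rcases c5 x with rfl | rfl | rfl | rfl | rfl
      · left; rfl
      · exact absurd (n1 hx) z1
      · right; rfl
      · exact absurd (n3 hx) z3
      · exact absurd (n4 hx) z4
    rcases cx x hx with rfl | rfl
    · rcases cx y hy with rfl | rfl
      · exact absurd rfl hxy
      · exact ⟨hx, hy⟩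
    · rcases cx y hy with rfl | rfl
      · exact ⟨hy, hx⟩
      · exact absurd rfl hxy

theorem core_nz (a b c d m0 m1 m2 m3 m4 n0 n1 n2 n3 n4 : ℕ) (ha : a < 22) (hb : b < 22)
    (hc : c < 22) (hd : d < 22) (hz : ¬ (a = 0 ∧ b = 0 ∧ c = 0 ∧ d = 0)) (h12 : a = 0 ∨ b = 0)
    (hsm : m0 + m1 + m2 + m3 + m4 = n0 + n1 + n2 + n3 + n4) (hm : m0 + m1 + m2 + m3 + m4 ≤ 4)
    (hp1 : b ≠ 0 → c ≠ 0 → d ≠ 0 → m0 = 0 ∧ m1 = 0 ∧ n0 = 0 ∧ n1 = 0)
    (hp2 : a ≠ 0 → c ≠ 0 → d ≠ 0 → m0 = 0 ∧ m2 = 0 ∧ n0 = 0 ∧ n2 = 0)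
    (hL : Lin8 a b c d ((m0 : ZMod 23) - n0) (m1 - n1) (m2 - n2) (m3 - n3) (m4 - n4)) :
    m0 = n0 ∧ m1 = n1 ∧ m2 = n2 ∧ m3 = n3 ∧ m4 = n4 := by
  have hsz : ((m0 : ZMod 23) - n0) + (m1 - n1) + (m2 - n2) + (m3 - n3) + (m4 - n4) = 0 := by
    have := congrArg (fun z : ℕ => (z : ZMod 23)) hsm
    simp only [Nat.cast_add] at this
    linear_combination this
  by_cases hA : (a = 0 ∧ (b = 0 ∨ c = 0 ∨ d = 0)) ∨ (b = 0 ∧ (c = 0 ∨ d = 0))
  · obtain ⟨x0, x1, x2, x3, x4⟩ := desc2 a b c d ha hb hc hd hA hz _ _ _ _ _ hsz hL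
    exact ⟨small_eq _ _ (by omega) (by omega) x0, small_eq _ _ (by omega) (by omega) x1,
      small_eq _ _ (by omega) (by omega) x2, small_eq _ _ (by omega) (by omega) x3,
      small_eq _ _ (by omega) (by omega) x4⟩
  · rcases h12 with ha0 | hb0
    · subst ha0
      have hb' : b ≠ 0 := fun h => hA (Or.inl ⟨rfl, Or.inl h⟩)
      have hc' : c ≠ 0 := fun h => hA (Or.inl ⟨rfl, Or.inr (Or.inl h)⟩)
      have hd' : d ≠ 0 := fun h => hA (Or.inl ⟨rfl, Or.inr (Or.inr h)⟩)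
      obtain ⟨rfl, rfl, rfl, rfl⟩ := hp1 hb' hc' hd'
      simp only [Nat.cast_zero, sub_zero] at hL hsz
      obtain ⟨x2, x3, x4⟩ := desc0 b c d hb hc hd hb' hc' hd' _ _ _ (by linear_combination hsz) hL
      exact ⟨rfl, rfl, small_eq _ _ (by omega) (by omega) x2,
        small_eq _ _ (by omega) (by omega) x3, small_eq _ _ (by omega) (by omega) x4⟩
    · subst hb0
      have ha' : a ≠ 0 := fun h => hA (Or.inl ⟨h, Or.inl rfl⟩)
      have hc' : c ≠ 0 := fun h => hA (Or.inr ⟨rfl, Or.inl h⟩)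
      have hd' : d ≠ 0 := fun h => hA (Or.inr ⟨rfl, Or.inr h⟩)
      obtain ⟨rfl, rfl, rfl, rfl⟩ := hp2 ha' hc' hd'
      simp only [Nat.cast_zero, sub_zero] at hL hsz
      obtain ⟨x2, x3, x4⟩ := desc1 a c d ha hc hd ha' hc' hd' _ _ _ (by linear_combination hsz) hL
      exact ⟨rfl, small_eq _ _ (by omega) (by omega) x2, rfl,
        small_eq _ _ (by omega) (by omega) x3, small_eq _ _ (by omega) (by omega) x4⟩

theorem sum_rot (f : ZMod 5 → ℕ) (s : ZMod 5) : ∑ x, f (x + s) = ∑ x, f x :=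
  Fintype.sum_equiv (Equiv.addRight s) _ _ fun x => rfl

theorem unrot (f g : ZMod 5 → ℕ) (s t u : ZMod 5) (h : ∀ x, g (x + t) = f (x + u + s)) :
    ∃ v, ∀ x, g x = f (x + v) := by
  refine ⟨-t + u + s, fun x => ?_⟩
  have h1 := h (x - t)
  rw [sub_add_cancel] at h1
  rw [h1]
  congr 1
  ring

theorem same_res_z (f g : ZMod 5 → ℕ) (hT : ∀ w : ZMod 529, T60 c529 f w = T60 c529 g w)
    (hres : ∀ x, f x % 22 = g x % 22) (hsum : ∑ x, f x = ∑ x, g x) (hle : ∑ x, f x ≤ 108)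
    (hf : ∃ x y, x ≠ y ∧ f x = 0 ∧ f y = 0) (hg : ∃ x y, x ≠ y ∧ g x = 0 ∧ g y = 0)
    (hz : ∀ x, g x % 22 = 0) : ∃ s, ∀ x, g x = f (x + s) := by
  obtain ⟨s, hs0, hs1⟩ := two_zeros f hf
  obtain ⟨t, ht0, ht1⟩ := two_zeros g hg
  have hT' : ∀ w : ZMod 529, T60 c529 (fun x => f (x + s)) w = T60 c529 (fun x => g (x + t)) w := by
    intro w
    rw [T60_rot, T60_rot]
    exact hT w
  obtain ⟨u, hu⟩ := deg_case (fun x => f (x + s)) (fun x => g (x + t)) hT'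
    (fun x => (hres _).trans (hz _)) (fun x => hz _) (by rw [sum_rot, sum_rot]; exact hsum)
    (by rw [sum_rot]; exact hle) hs0 ht0 hs1 ht1
  exact unrot f g s t u hu

end Pool.Agent.Lib.MP_c53f59_gt.K60
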