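import Pool.Agent.Lib.MP_c53f59_gt.K60.Fin2

namespace Pool.Agent.Lib.MP_c53f59_gt.K60

theorem split22 (x r : ℕ) (h : x % 22 = r) : x = r + 22 * (x / 22) := by omega

theorem same_res_nz (f g : ZMod 5 → ℕ) (hT : ∀ w : ZMod 529, T60 c529 f w = T60 c529 g w)
    (hres : ∀ x, f x % 22 = g x % 22) (hsum : ∑ x, f x = ∑ x, g x) (hle : ∑ x, f x ≤ 108)
    (hf : ∃ x y, x ≠ y ∧ f x = 0 ∧ f y = 0) (hg : ∃ x y, x ≠ y ∧ g x = 0 ∧ g y = 0)
    (h0 : g 0 % 22 = 0) (h12 : g 1 % 22 = 0 ∨ g 2 % 22 = 0) (hz : ¬ ∀ x, g x % 22 = 0) :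
    ∀ x, g x = f x := by
  have pf := pos2 f g hres hf
  have pg := pos2 g g (fun _ => rfl) hg
  have hP := pt8_of f g hT
  rw [sum5, sum5] at hsum
  rw [sum5] at hle
  have hz' : ¬ (g 1 % 22 = 0 ∧ g 2 % 22 = 0 ∧ g 3 % 22 = 0 ∧ g 4 % 22 = 0) := by
    rintro ⟨z1, z2, z3, z4⟩
    exact hz (all5 h0 z1 z2 z3 z4)
  have e0 := split22 (f 0) 0 ((hres 0).trans h0)
  have e1 := split22 (f 1) (g 1 % 22) (hres 1)
  have e2 := split22 (f 2) (g 2 % 22) (hres 2)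
  have e3 := split22 (f 3) (g 3 % 22) (hres 3)
  have e4 := split22 (f 4) (g 4 % 22) (hres 4)
  have k0 := split22 (g 0) 0 h0
  have k1 := split22 (g 1) (g 1 % 22) rfl
  have k2 := split22 (g 2) (g 2 % 22) rfl
  have k3 := split22 (g 3) (g 3 % 22) rfl
  have k4 := split22 (g 4) (g 4 % 22) rfl
  have ha : g 1 % 22 < 22 := Nat.mod_lt _ (by norm_num)
  have hb : g 2 % 22 < 22 := Nat.mod_lt _ (by norm_num)
  have hc : g 3 % 22 < 22 := Nat.mod_lt _ (by norm_num)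
  have hd : g 4 % 22 < 22 := Nat.mod_lt _ (by norm_num)
  clear hT hres hf hg hz
  generalize g 1 % 22 = a at *
  generalize g 2 % 22 = b at *
  generalize g 3 % 22 = c at *
  generalize g 4 % 22 = d at *
  generalize f 0 / 22 = m0 at *
  generalize f 1 / 22 = m1 at *
  generalize f 2 / 22 = m2 at *
  generalize f 3 / 22 = m3 at *
  generalize f 4 / 22 = m4 at *
  generalize g 0 / 22 = n0 at *
  generalize g 1 / 22 = n1 at *
  generalize g 2 / 22 = n2 at *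
  generalize g 3 / 22 = n3 at *
  generalize g 4 / 22 = n4 at *
  rw [e0, e1, e2, e3, e4, k0, k1, k2, k3, k4] at hP
  have hL := lin8_of a b c d m0 m1 m2 m3 m4 n0 n1 n2 n3 n4 hP
  clear hP
  have hr : m0 = n0 ∧ m1 = n1 ∧ m2 = n2 ∧ m3 = n3 ∧ m4 = n4 := by
    refine core_nz a b c d m0 m1 m2 m3 m4 n0 n1 n2 n3 n4 ha hb hc hd hz' h12 (by omega) (by omega)
      ?_ ?_ hL
    · intro z2 z3 z4
      obtain ⟨f0, f1⟩ := pf.1 z2 z3 z4
      obtain ⟨g0, g1⟩ := pg.1 z2 z3 z4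
      refine ⟨by omega, by omega, by omega, by omega⟩
    · intro z2 z3 z4
      obtain ⟨f0, f1⟩ := pf.2 z2 z3 z4
      obtain ⟨g0, g1⟩ := pg.2 z2 z3 z4
      refine ⟨by omega, by omega, by omega, by omega⟩
  obtain ⟨rfl, rfl, rfl, rfl, rfl⟩ := hr
  exact all5 (k0.trans e0.symm) (k1.trans e1.symm) (k2.trans e2.symm) (k3.trans e3.symm)
    (k4.trans e4.symm)

theorem same_res (f g : ZMod 5 → ℕ) (hT : ∀ w : ZMod 529, T60 c529 f w = T60 c529 g w)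
    (hres : ∀ x, f x % 22 = g x % 22) (hsum : ∑ x, f x = ∑ x, g x) (hle : ∑ x, f x ≤ 108)
    (hf : ∃ x y, x ≠ y ∧ f x = 0 ∧ f y = 0) (hg : ∃ x y, x ≠ y ∧ g x = 0 ∧ g y = 0)
    (h0 : g 0 % 22 = 0) (h12 : g 1 % 22 = 0 ∨ g 2 % 22 = 0) : ∃ s, ∀ x, g x = f (x + s) := by
  by_cases hz : ∀ x, g x % 22 = 0
  · exact same_res_z f g hT hres hsum hle hf hg hz
  · refine ⟨0, fun x => ?_⟩
    rw [add_zero]
    exact same_res_nz f g hT hres hsum hle hf hg h0 h12 hz x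

end Pool.Agent.Lib.MP_c53f59_gt.K60
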