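import Pool.Agent.Lib.MP_c53f59_gt.K60.Fin3

/-! Assembly, third part: the exceptional classes. -/

namespace Pool.Agent.Lib.MP_c53f59_gt.K60

theorem zero_nat (m : ℕ) (hm : m ≤ 4) (h : (m : ZMod 23) = 0) : m = 0 :=
  cast_inj23 m 0 (by omega) (by omega) (by simpa using h)

theorem ex_e1 (f g : ZMod 5 → ℕ) (hT : ∀ w : ZMod 529, T60 c529 f w = T60 c529 g w)
    (hsum : ∑ x, f x = ∑ x, g x) (hle : ∑ x, f x ≤ 108) (hf : ∃ x, f x = 0)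
    (hr : ∀ x, f x % 22 = (![0, 0, 0, 1, 1] : Fin 5 → ℕ) x) (hr' : ∀ x, g x % 22 = (![0, 0, 1, 0, 1] : Fin 5 → ℕ) x) : ∑ x, f x = 2 := by
  have hP := pt8_of f g hT
  rw [sum5, sum5] at hsum
  rw [sum5] at hle
  have e0 := split22 (f 0) 0 (hr 0)
  have e1 := split22 (f 1) 0 (hr 1)
  have e2 := split22 (f 2) 0 (hr 2)
  have e3 := split22 (f 3) 1 (hr 3)
  have e4 := split22 (f 4) 1 (hr 4)
  have k0 := split22 (g 0) 0 (hr' 0)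
  have k1 := split22 (g 1) 0 (hr' 1)
  have k2 := split22 (g 2) 1 (hr' 2)
  have k3 := split22 (g 3) 0 (hr' 3)
  have k4 := split22 (g 4) 1 (hr' 4)
  have hx : ∃ x, f x = 0 ∧ f x / 22 = 0 ∧ (![0, 0, 0, 1, 1] : Fin 5 → ℕ) x = 0 := by
    obtain ⟨x, hx⟩ := hf
    refine ⟨x, hx, by rw [hx], ?_⟩
    rw [← hr, hx]
  clear hT hr hr' hf
  generalize hm0 : f 0 / 22 = m0 at *
  generalize hm1 : f 1 / 22 = m1 at *
  generalize hm2 : f 2 / 22 = m2 at *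
  generalize hm3 : f 3 / 22 = m3 at *
  generalize hm4 : f 4 / 22 = m4 at *
  generalize g 0 / 22 = n0 at *
  generalize g 1 / 22 = n1 at *
  generalize g 2 / 22 = n2 at *
  generalize g 3 / 22 = n3 at *
  generalize g 4 / 22 = n4 at *
  rw [e0, e1, e2, e3, e4, k0, k1, k2, k3, k4] at hP
  obtain ⟨g0, g1, g2, g3, g4, g5, g6, g7⟩ := hP
  have q0 := point _ _ _ _ _ 19 20 4 5 21 (by decide) (by decide) (by decide) (by decide) (by decide) 0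
    0 0 1 1 0 1 0 1 m0 m1 m2 m3 m4 n0 n1 n2 n3 n4 (by decide +kernel) g0
  have q1 := point _ _ _ _ _ 6 9 1 15 15 (by decide) (by decide) (by decide) (by decide) (by decide) 0
    0 0 1 1 0 1 0 1 m0 m1 m2 m3 m4 n0 n1 n2 n3 n4 (by decide +kernel) g1
  have q2 := point _ _ _ _ _ 1 20 12 6 14 (by decide) (by decide) (by decide) (by decide) (by decide) 0
    0 0 1 1 0 1 0 1 m0 m1 m2 m3 m4 n0 n1 n2 n3 n4 (by decide +kernel) g2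
  have q3 := point _ _ _ _ _ 11 16 3 8 17 (by decide) (by decide) (by decide) (by decide) (by decide) 0
    0 0 1 1 0 1 0 1 m0 m1 m2 m3 m4 n0 n1 n2 n3 n4 (by decide +kernel) g3
  have q4 := point _ _ _ _ _ 21 15 4 15 6 (by decide) (by decide) (by decide) (by decide) (by decide) 0
    0 0 1 1 0 1 0 1 m0 m1 m2 m3 m4 n0 n1 n2 n3 n4 (by decide +kernel) g4
  have q5 := point _ _ _ _ _ 15 11 19 17 19 (by decide) (by decide) (by decide) (by decide) (by decide) 0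
    0 0 1 1 0 1 0 1 m0 m1 m2 m3 m4 n0 n1 n2 n3 n4 (by decide +kernel) g5
  have q6 := point _ _ _ _ _ 3 8 15 2 1 (by decide) (by decide) (by decide) (by decide) (by decide) 0
    0 0 1 1 0 1 0 1 m0 m1 m2 m3 m4 n0 n1 n2 n3 n4 (by decide +kernel) g6
  have q7 := point _ _ _ _ _ 9 5 8 6 6 (by decide) (by decide) (by decide) (by decide) (by decide) 0
    0 0 1 1 0 1 0 1 m0 m1 m2 m3 m4 n0 n1 n2 n3 n4 (by decide +kernel) g7
  have hsm : m0 + m1 + m2 + m3 + m4 = n0 + n1 + n2 + n3 + n4 := by omega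
  have hs : (m0 : ZMod 23) + m1 + m2 + m3 + m4 = n0 + n1 + n2 + n3 + n4 := by
    have := congrArg (fun z : ℕ => (z : ZMod 23)) hsm
    simpa only [Nat.cast_add] using this
  have p0 : LE 9 13 17 12 19 19 20 4 5 21 0 0 1 1 m0 m1 m2 m3 m4 -
      LE 9 13 17 12 19 19 20 4 5 21 0 1 0 1 n0 n1 n2 n3 n4 = 0 := by
    have : LE 9 13 17 12 19 19 20 4 5 21 0 0 1 1 m0 m1 m2 m3 m4 -
      LE 9 13 17 12 19 19 20 4 5 21 0 1 0 1 n0 n1 n2 n3 n4 + 0 = 0 := q0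
    rwa [add_zero] at this
  have p1 : LE 10 14 18 13 20 6 9 1 15 15 0 0 1 1 m0 m1 m2 m3 m4 -
      LE 10 14 18 13 20 6 9 1 15 15 0 1 0 1 n0 n1 n2 n3 n4 = 0 := by
    have : LE 10 14 18 13 20 6 9 1 15 15 0 0 1 1 m0 m1 m2 m3 m4 -
      LE 10 14 18 13 20 6 9 1 15 15 0 1 0 1 n0 n1 n2 n3 n4 + 0 = 0 := q1
    rwa [add_zero] at this
  have p2 : LE 11 15 19 14 21 1 20 12 6 14 0 0 1 1 m0 m1 m2 m3 m4 -
      LE 11 15 19 14 21 1 20 12 6 14 0 1 0 1 n0 n1 n2 n3 n4 = 0 := by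
    have : LE 11 15 19 14 21 1 20 12 6 14 0 0 1 1 m0 m1 m2 m3 m4 -
      LE 11 15 19 14 21 1 20 12 6 14 0 1 0 1 n0 n1 n2 n3 n4 + 0 = 0 := q2
    rwa [add_zero] at this
  have p3 : LE 12 16 20 15 22 11 16 3 8 17 0 0 1 1 m0 m1 m2 m3 m4 -
      LE 12 16 20 15 22 11 16 3 8 17 0 1 0 1 n0 n1 n2 n3 n4 = 0 := by
    have : LE 12 16 20 15 22 11 16 3 8 17 0 0 1 1 m0 m1 m2 m3 m4 -
      LE 12 16 20 15 22 11 16 3 8 17 0 1 0 1 n0 n1 n2 n3 n4 + 0 = 0 := q3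
    rwa [add_zero] at this
  have p4 : LE 14 18 22 17 1 21 15 4 15 6 0 0 1 1 m0 m1 m2 m3 m4 -
      LE 14 18 22 17 1 21 15 4 15 6 0 1 0 1 n0 n1 n2 n3 n4 = 0 := by
    have : LE 14 18 22 17 1 21 15 4 15 6 0 0 1 1 m0 m1 m2 m3 m4 -
      LE 14 18 22 17 1 21 15 4 15 6 0 1 0 1 n0 n1 n2 n3 n4 + 0 = 0 := q4
    rwa [add_zero] at this
  have p5 : LE 16 20 1 19 3 15 11 19 17 19 0 0 1 1 m0 m1 m2 m3 m4 -
      LE 16 20 1 19 3 15 11 19 17 19 0 1 0 1 n0 n1 n2 n3 n4 = 0 := by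
    have : LE 16 20 1 19 3 15 11 19 17 19 0 0 1 1 m0 m1 m2 m3 m4 -
      LE 16 20 1 19 3 15 11 19 17 19 0 1 0 1 n0 n1 n2 n3 n4 + 0 = 0 := q5
    rwa [add_zero] at this
  have p6 : LE 17 21 2 20 4 3 8 15 2 1 0 0 1 1 m0 m1 m2 m3 m4 -
      LE 17 21 2 20 4 3 8 15 2 1 0 1 0 1 n0 n1 n2 n3 n4 = 0 := by
    have : LE 17 21 2 20 4 3 8 15 2 1 0 0 1 1 m0 m1 m2 m3 m4 -
      LE 17 21 2 20 4 3 8 15 2 1 0 1 0 1 n0 n1 n2 n3 n4 + 0 = 0 := q6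
    rwa [add_zero] at this
  have p7 : LE 18 22 3 21 5 9 5 8 6 6 0 0 1 1 m0 m1 m2 m3 m4 -
      LE 18 22 3 21 5 9 5 8 6 6 0 1 0 1 n0 n1 n2 n3 n4 = 0 := by
    have : LE 18 22 3 21 5 9 5 8 6 6 0 0 1 1 m0 m1 m2 m3 m4 -
      LE 18 22 3 21 5 9 5 8 6 6 0 1 0 1 n0 n1 n2 n3 n4 + 0 = 0 := q7
    rwa [add_zero] at this
  obtain ⟨r1, r2, r3, r4, r5, r6, r7, r8, r9⟩ := exc_e1 m0 m1 m2 m3 m4 n0 n1 n2 n3 n4 hs
    p0 p1 p2 p3 p4 p5 p6 p7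
  have z0 : (m0 : ZMod 23) = 0 := by
    obtain ⟨x, -, hx, -⟩ := hx
    have c5 : ∀ x : ZMod 5, x = 0 ∨ x = 1 ∨ x = 2 ∨ x = 3 ∨ x = 4 := by decide
    rcases c5 x with rfl | rfl | rfl | rfl | rfl
    · rw [hm0] at hx; rw [hx]; rfl
    · rw [hm1] at hx; rw [← r1, hx]; rfl
    · rw [hm2] at hx; rw [← r2, hx]; rfl
    · rw [hm3] at hx; rw [← r3, hx]; rfl
    · rw [hm4] at hx; rw [← r4, hx]; rfl
  rw [z0] at r1 r2 r3 r4
  have y0 := zero_nat m0 (by omega) z0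
  have y1 := zero_nat m1 (by omega) r1
  have y2 := zero_nat m2 (by omega) r2
  have y3 := zero_nat m3 (by omega) r3
  have y4 := zero_nat m4 (by omega) r4
  rw [sum5]
  omega

theorem ex_f1 (f g : ZMod 5 → ℕ) (hT : ∀ w : ZMod 529, T60 c529 f w = T60 c529 g w)
    (hsum : ∑ x, f x = ∑ x, g x) (hle : ∑ x, f x ≤ 108) (hf : ∃ x, f x = 0)
    (hr : ∀ x, f x % 22 = (![0, 0, 0, 1, 2] : Fin 5 → ℕ) x) (hr' : ∀ x, g x % 22 = (![0, 0, 1, 0, 2] : Fin 5 → ℕ) x) : ∑ x, f x = 3 := by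
  have hP := pt8_of f g hT
  rw [sum5, sum5] at hsum
  rw [sum5] at hle
  have e0 := split22 (f 0) 0 (hr 0)
  have e1 := split22 (f 1) 0 (hr 1)
  have e2 := split22 (f 2) 0 (hr 2)
  have e3 := split22 (f 3) 1 (hr 3)
  have e4 := split22 (f 4) 2 (hr 4)
  have k0 := split22 (g 0) 0 (hr' 0)
  have k1 := split22 (g 1) 0 (hr' 1)
  have k2 := split22 (g 2) 1 (hr' 2)
  have k3 := split22 (g 3) 0 (hr' 3)
  have k4 := split22 (g 4) 2 (hr' 4)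
  have hx : ∃ x, f x = 0 ∧ f x / 22 = 0 ∧ (![0, 0, 0, 1, 2] : Fin 5 → ℕ) x = 0 := by
    obtain ⟨x, hx⟩ := hf
    refine ⟨x, hx, by rw [hx], ?_⟩
    rw [← hr, hx]
  clear hT hr hr' hf
  generalize hm0 : f 0 / 22 = m0 at *
  generalize hm1 : f 1 / 22 = m1 at *
  generalize hm2 : f 2 / 22 = m2 at *
  generalize hm3 : f 3 / 22 = m3 at *
  generalize hm4 : f 4 / 22 = m4 at *
  generalize g 0 / 22 = n0 at *
  generalize g 1 / 22 = n1 at *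
  generalize g 2 / 22 = n2 at *
  generalize g 3 / 22 = n3 at *
  generalize g 4 / 22 = n4 at *
  rw [e0, e1, e2, e3, e4, k0, k1, k2, k3, k4] at hP
  obtain ⟨g0, g1, g2, g3, g4, g5, g6, g7⟩ := hP
  have q0 := point _ _ _ _ _ 19 20 4 5 21 (by decide) (by decide) (by decide) (by decide) (by decide) 0
    0 0 1 2 0 1 0 2 m0 m1 m2 m3 m4 n0 n1 n2 n3 n4 (by decide +kernel) g0
  have q1 := point _ _ _ _ _ 6 9 1 15 15 (by decide) (by decide) (by decide) (by decide) (by decide) 0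
    0 0 1 2 0 1 0 2 m0 m1 m2 m3 m4 n0 n1 n2 n3 n4 (by decide +kernel) g1
  have q2 := point _ _ _ _ _ 1 20 12 6 14 (by decide) (by decide) (by decide) (by decide) (by decide) 0
    0 0 1 2 0 1 0 2 m0 m1 m2 m3 m4 n0 n1 n2 n3 n4 (by decide +kernel) g2
  have q3 := point _ _ _ _ _ 11 16 3 8 17 (by decide) (by decide) (by decide) (by decide) (by decide) 0
    0 0 1 2 0 1 0 2 m0 m1 m2 m3 m4 n0 n1 n2 n3 n4 (by decide +kernel) g3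
  have q4 := point _ _ _ _ _ 21 15 4 15 6 (by decide) (by decide) (by decide) (by decide) (by decide) 0
    0 0 1 2 0 1 0 2 m0 m1 m2 m3 m4 n0 n1 n2 n3 n4 (by decide +kernel) g4
  have q5 := point _ _ _ _ _ 15 11 19 17 19 (by decide) (by decide) (by decide) (by decide) (by decide) 0
    0 0 1 2 0 1 0 2 m0 m1 m2 m3 m4 n0 n1 n2 n3 n4 (by decide +kernel) g5
  have q6 := point _ _ _ _ _ 3 8 15 2 1 (by decide) (by decide) (by decide) (by decide) (by decide) 0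
    0 0 1 2 0 1 0 2 m0 m1 m2 m3 m4 n0 n1 n2 n3 n4 (by decide +kernel) g6
  have q7 := point _ _ _ _ _ 9 5 8 6 6 (by decide) (by decide) (by decide) (by decide) (by decide) 0
    0 0 1 2 0 1 0 2 m0 m1 m2 m3 m4 n0 n1 n2 n3 n4 (by decide +kernel) g7
  have hsm : m0 + m1 + m2 + m3 + m4 = n0 + n1 + n2 + n3 + n4 := by omega
  have hs : (m0 : ZMod 23) + m1 + m2 + m3 + m4 = n0 + n1 + n2 + n3 + n4 := by
    have := congrArg (fun z : ℕ => (z : ZMod 23)) hsm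
    simpa only [Nat.cast_add] using this
  have p0 : LE 9 13 17 12 19 19 20 4 5 21 0 0 1 2 m0 m1 m2 m3 m4 -
      LE 9 13 17 12 19 19 20 4 5 21 0 1 0 2 n0 n1 n2 n3 n4 = 0 := by
    have : LE 9 13 17 12 19 19 20 4 5 21 0 0 1 2 m0 m1 m2 m3 m4 -
      LE 9 13 17 12 19 19 20 4 5 21 0 1 0 2 n0 n1 n2 n3 n4 + 0 = 0 := q0
    rwa [add_zero] at this
  have p1 : LE 10 14 18 13 20 6 9 1 15 15 0 0 1 2 m0 m1 m2 m3 m4 -
      LE 10 14 18 13 20 6 9 1 15 15 0 1 0 2 n0 n1 n2 n3 n4 = 0 := by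
    have : LE 10 14 18 13 20 6 9 1 15 15 0 0 1 2 m0 m1 m2 m3 m4 -
      LE 10 14 18 13 20 6 9 1 15 15 0 1 0 2 n0 n1 n2 n3 n4 + 0 = 0 := q1
    rwa [add_zero] at this
  have p2 : LE 11 15 19 14 21 1 20 12 6 14 0 0 1 2 m0 m1 m2 m3 m4 -
      LE 11 15 19 14 21 1 20 12 6 14 0 1 0 2 n0 n1 n2 n3 n4 = 0 := by
    have : LE 11 15 19 14 21 1 20 12 6 14 0 0 1 2 m0 m1 m2 m3 m4 -
      LE 11 15 19 14 21 1 20 12 6 14 0 1 0 2 n0 n1 n2 n3 n4 + 0 = 0 := q2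
    rwa [add_zero] at this
  have p3 : LE 12 16 20 15 22 11 16 3 8 17 0 0 1 2 m0 m1 m2 m3 m4 -
      LE 12 16 20 15 22 11 16 3 8 17 0 1 0 2 n0 n1 n2 n3 n4 = 0 := by
    have : LE 12 16 20 15 22 11 16 3 8 17 0 0 1 2 m0 m1 m2 m3 m4 -
      LE 12 16 20 15 22 11 16 3 8 17 0 1 0 2 n0 n1 n2 n3 n4 + 0 = 0 := q3
    rwa [add_zero] at this
  have p4 : LE 14 18 22 17 1 21 15 4 15 6 0 0 1 2 m0 m1 m2 m3 m4 -
      LE 14 18 22 17 1 21 15 4 15 6 0 1 0 2 n0 n1 n2 n3 n4 = 0 := by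
    have : LE 14 18 22 17 1 21 15 4 15 6 0 0 1 2 m0 m1 m2 m3 m4 -
      LE 14 18 22 17 1 21 15 4 15 6 0 1 0 2 n0 n1 n2 n3 n4 + 0 = 0 := q4
    rwa [add_zero] at this
  have p5 : LE 16 20 1 19 3 15 11 19 17 19 0 0 1 2 m0 m1 m2 m3 m4 -
      LE 16 20 1 19 3 15 11 19 17 19 0 1 0 2 n0 n1 n2 n3 n4 = 0 := by
    have : LE 16 20 1 19 3 15 11 19 17 19 0 0 1 2 m0 m1 m2 m3 m4 -
      LE 16 20 1 19 3 15 11 19 17 19 0 1 0 2 n0 n1 n2 n3 n4 + 0 = 0 := q5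
    rwa [add_zero] at this
  have p6 : LE 17 21 2 20 4 3 8 15 2 1 0 0 1 2 m0 m1 m2 m3 m4 -
      LE 17 21 2 20 4 3 8 15 2 1 0 1 0 2 n0 n1 n2 n3 n4 = 0 := by
    have : LE 17 21 2 20 4 3 8 15 2 1 0 0 1 2 m0 m1 m2 m3 m4 -
      LE 17 21 2 20 4 3 8 15 2 1 0 1 0 2 n0 n1 n2 n3 n4 + 0 = 0 := q6
    rwa [add_zero] at this
  have p7 : LE 18 22 3 21 5 9 5 8 6 6 0 0 1 2 m0 m1 m2 m3 m4 -
      LE 18 22 3 21 5 9 5 8 6 6 0 1 0 2 n0 n1 n2 n3 n4 = 0 := by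
    have : LE 18 22 3 21 5 9 5 8 6 6 0 0 1 2 m0 m1 m2 m3 m4 -
      LE 18 22 3 21 5 9 5 8 6 6 0 1 0 2 n0 n1 n2 n3 n4 + 0 = 0 := q7
    rwa [add_zero] at this
  obtain ⟨r1, r2, r3, r4, r5, r6, r7, r8, r9⟩ := exc_f1 m0 m1 m2 m3 m4 n0 n1 n2 n3 n4 hs
    p0 p1 p2 p3 p4 p5 p6 p7
  have z0 : (m0 : ZMod 23) = 0 := by
    obtain ⟨x, -, hx, -⟩ := hx
    have c5 : ∀ x : ZMod 5, x = 0 ∨ x = 1 ∨ x = 2 ∨ x = 3 ∨ x = 4 := by decide
    rcases c5 x with rfl | rfl | rfl | rfl | rfl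
    · rw [hm0] at hx; rw [hx]; rfl
    · rw [hm1] at hx; rw [← r1, hx]; rfl
    · rw [hm2] at hx; rw [← r2, hx]; rfl
    · rw [hm3] at hx; rw [← r3, hx]; rfl
    · rw [hm4] at hx; rw [← r4, hx]; rfl
  rw [z0] at r1 r2 r3 r4
  have y0 := zero_nat m0 (by omega) z0
  have y1 := zero_nat m1 (by omega) r1
  have y2 := zero_nat m2 (by omega) r2
  have y3 := zero_nat m3 (by omega) r3
  have y4 := zero_nat m4 (by omega) r4
  rw [sum5]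
  omega

theorem ex_f2 (f g : ZMod 5 → ℕ) (hT : ∀ w : ZMod 529, T60 c529 f w = T60 c529 g w)
    (hsum : ∑ x, f x = ∑ x, g x) (hle : ∑ x, f x ≤ 108) (hf : ∃ x, f x = 0)
    (hr : ∀ x, f x % 22 = (![0, 0, 0, 1, 2] : Fin 5 → ℕ) x) (hr' : ∀ x, g x % 22 = (![0, 0, 2, 0, 1] : Fin 5 → ℕ) x) : ∑ x, f x = 3 := by
  have hP := pt8_of f g hT
  rw [sum5, sum5] at hsum
  rw [sum5] at hle
  have e0 := split22 (f 0) 0 (hr 0)
  have e1 := split22 (f 1) 0 (hr 1)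
  have e2 := split22 (f 2) 0 (hr 2)
  have e3 := split22 (f 3) 1 (hr 3)
  have e4 := split22 (f 4) 2 (hr 4)
  have k0 := split22 (g 0) 0 (hr' 0)
  have k1 := split22 (g 1) 0 (hr' 1)
  have k2 := split22 (g 2) 2 (hr' 2)
  have k3 := split22 (g 3) 0 (hr' 3)
  have k4 := split22 (g 4) 1 (hr' 4)
  have hx : ∃ x, f x = 0 ∧ f x / 22 = 0 ∧ (![0, 0, 0, 1, 2] : Fin 5 → ℕ) x = 0 := by
    obtain ⟨x, hx⟩ := hf
    refine ⟨x, hx, by rw [hx], ?_⟩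
    rw [← hr, hx]
  clear hT hr hr' hf
  generalize hm0 : f 0 / 22 = m0 at *
  generalize hm1 : f 1 / 22 = m1 at *
  generalize hm2 : f 2 / 22 = m2 at *
  generalize hm3 : f 3 / 22 = m3 at *
  generalize hm4 : f 4 / 22 = m4 at *
  generalize g 0 / 22 = n0 at *
  generalize g 1 / 22 = n1 at *
  generalize g 2 / 22 = n2 at *
  generalize g 3 / 22 = n3 at *
  generalize g 4 / 22 = n4 at *
  rw [e0, e1, e2, e3, e4, k0, k1, k2, k3, k4] at hP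
  obtain ⟨g0, g1, g2, g3, g4, g5, g6, g7⟩ := hP
  have q0 := point _ _ _ _ _ 19 20 4 5 21 (by decide) (by decide) (by decide) (by decide) (by decide) 0
    0 0 1 2 0 2 0 1 m0 m1 m2 m3 m4 n0 n1 n2 n3 n4 (by decide +kernel) g0
  have q1 := point _ _ _ _ _ 6 9 1 15 15 (by decide) (by decide) (by decide) (by decide) (by decide) 0
    0 0 1 2 0 2 0 1 m0 m1 m2 m3 m4 n0 n1 n2 n3 n4 (by decide +kernel) g1
  have q2 := point _ _ _ _ _ 1 20 12 6 14 (by decide) (by decide) (by decide) (by decide) (by decide) 0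
    0 0 1 2 0 2 0 1 m0 m1 m2 m3 m4 n0 n1 n2 n3 n4 (by decide +kernel) g2
  have q3 := point _ _ _ _ _ 11 16 3 8 17 (by decide) (by decide) (by decide) (by decide) (by decide) 0
    0 0 1 2 0 2 0 1 m0 m1 m2 m3 m4 n0 n1 n2 n3 n4 (by decide +kernel) g3
  have q4 := point _ _ _ _ _ 21 15 4 15 6 (by decide) (by decide) (by decide) (by decide) (by decide) 0
    0 0 1 2 0 2 0 1 m0 m1 m2 m3 m4 n0 n1 n2 n3 n4 (by decide +kernel) g4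
  have q5 := point _ _ _ _ _ 15 11 19 17 19 (by decide) (by decide) (by decide) (by decide) (by decide) 0
    0 0 1 2 0 2 0 1 m0 m1 m2 m3 m4 n0 n1 n2 n3 n4 (by decide +kernel) g5
  have q6 := point _ _ _ _ _ 3 8 15 2 1 (by decide) (by decide) (by decide) (by decide) (by decide) 0
    0 0 1 2 0 2 0 1 m0 m1 m2 m3 m4 n0 n1 n2 n3 n4 (by decide +kernel) g6
  have q7 := point _ _ _ _ _ 9 5 8 6 6 (by decide) (by decide) (by decide) (by decide) (by decide) 0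
    0 0 1 2 0 2 0 1 m0 m1 m2 m3 m4 n0 n1 n2 n3 n4 (by decide +kernel) g7
  have hsm : m0 + m1 + m2 + m3 + m4 = n0 + n1 + n2 + n3 + n4 := by omega
  have hs : (m0 : ZMod 23) + m1 + m2 + m3 + m4 = n0 + n1 + n2 + n3 + n4 := by
    have := congrArg (fun z : ℕ => (z : ZMod 23)) hsm
    simpa only [Nat.cast_add] using this
  have p0 : LE 9 13 17 12 19 19 20 4 5 21 0 0 1 2 m0 m1 m2 m3 m4 -
      LE 9 13 17 12 19 19 20 4 5 21 0 2 0 1 n0 n1 n2 n3 n4 = 0 := by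
    have : LE 9 13 17 12 19 19 20 4 5 21 0 0 1 2 m0 m1 m2 m3 m4 -
      LE 9 13 17 12 19 19 20 4 5 21 0 2 0 1 n0 n1 n2 n3 n4 + 0 = 0 := q0
    rwa [add_zero] at this
  have p1 : LE 10 14 18 13 20 6 9 1 15 15 0 0 1 2 m0 m1 m2 m3 m4 -
      LE 10 14 18 13 20 6 9 1 15 15 0 2 0 1 n0 n1 n2 n3 n4 = 0 := by
    have : LE 10 14 18 13 20 6 9 1 15 15 0 0 1 2 m0 m1 m2 m3 m4 -
      LE 10 14 18 13 20 6 9 1 15 15 0 2 0 1 n0 n1 n2 n3 n4 + 0 = 0 := q1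
    rwa [add_zero] at this
  have p2 : LE 11 15 19 14 21 1 20 12 6 14 0 0 1 2 m0 m1 m2 m3 m4 -
      LE 11 15 19 14 21 1 20 12 6 14 0 2 0 1 n0 n1 n2 n3 n4 = 0 := by
    have : LE 11 15 19 14 21 1 20 12 6 14 0 0 1 2 m0 m1 m2 m3 m4 -
      LE 11 15 19 14 21 1 20 12 6 14 0 2 0 1 n0 n1 n2 n3 n4 + 0 = 0 := q2
    rwa [add_zero] at this
  have p3 : LE 12 16 20 15 22 11 16 3 8 17 0 0 1 2 m0 m1 m2 m3 m4 -
      LE 12 16 20 15 22 11 16 3 8 17 0 2 0 1 n0 n1 n2 n3 n4 = 0 := by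
    have : LE 12 16 20 15 22 11 16 3 8 17 0 0 1 2 m0 m1 m2 m3 m4 -
      LE 12 16 20 15 22 11 16 3 8 17 0 2 0 1 n0 n1 n2 n3 n4 + 0 = 0 := q3
    rwa [add_zero] at this
  have p4 : LE 14 18 22 17 1 21 15 4 15 6 0 0 1 2 m0 m1 m2 m3 m4 -
      LE 14 18 22 17 1 21 15 4 15 6 0 2 0 1 n0 n1 n2 n3 n4 = 0 := by
    have : LE 14 18 22 17 1 21 15 4 15 6 0 0 1 2 m0 m1 m2 m3 m4 -
      LE 14 18 22 17 1 21 15 4 15 6 0 2 0 1 n0 n1 n2 n3 n4 + 0 = 0 := q4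
    rwa [add_zero] at this
  have p5 : LE 16 20 1 19 3 15 11 19 17 19 0 0 1 2 m0 m1 m2 m3 m4 -
      LE 16 20 1 19 3 15 11 19 17 19 0 2 0 1 n0 n1 n2 n3 n4 = 0 := by
    have : LE 16 20 1 19 3 15 11 19 17 19 0 0 1 2 m0 m1 m2 m3 m4 -
      LE 16 20 1 19 3 15 11 19 17 19 0 2 0 1 n0 n1 n2 n3 n4 + 0 = 0 := q5
    rwa [add_zero] at this
  have p6 : LE 17 21 2 20 4 3 8 15 2 1 0 0 1 2 m0 m1 m2 m3 m4 -
      LE 17 21 2 20 4 3 8 15 2 1 0 2 0 1 n0 n1 n2 n3 n4 = 0 := by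
    have : LE 17 21 2 20 4 3 8 15 2 1 0 0 1 2 m0 m1 m2 m3 m4 -
      LE 17 21 2 20 4 3 8 15 2 1 0 2 0 1 n0 n1 n2 n3 n4 + 0 = 0 := q6
    rwa [add_zero] at this
  have p7 : LE 18 22 3 21 5 9 5 8 6 6 0 0 1 2 m0 m1 m2 m3 m4 -
      LE 18 22 3 21 5 9 5 8 6 6 0 2 0 1 n0 n1 n2 n3 n4 = 0 := by
    have : LE 18 22 3 21 5 9 5 8 6 6 0 0 1 2 m0 m1 m2 m3 m4 -
      LE 18 22 3 21 5 9 5 8 6 6 0 2 0 1 n0 n1 n2 n3 n4 + 0 = 0 := q7
    rwa [add_zero] at this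
  obtain ⟨r1, r2, r3, r4, r5, r6, r7, r8, r9⟩ := exc_f2 m0 m1 m2 m3 m4 n0 n1 n2 n3 n4 hs
    p0 p1 p2 p3 p4 p5 p6 p7
  have z0 : (m0 : ZMod 23) = 0 := by
    obtain ⟨x, -, hx, -⟩ := hx
    have c5 : ∀ x : ZMod 5, x = 0 ∨ x = 1 ∨ x = 2 ∨ x = 3 ∨ x = 4 := by decide
    rcases c5 x with rfl | rfl | rfl | rfl | rfl
    · rw [hm0] at hx; rw [hx]; rfl
    · rw [hm1] at hx; rw [← r1, hx]; rfl
    · rw [hm2] at hx; rw [← r2, hx]; rfl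
    · rw [hm3] at hx; rw [← r3, hx]; rfl
    · rw [hm4] at hx; rw [← r4, hx]; rfl
  rw [z0] at r1 r2 r3 r4
  have y0 := zero_nat m0 (by omega) z0
  have y1 := zero_nat m1 (by omega) r1
  have y2 := zero_nat m2 (by omega) r2
  have y3 := zero_nat m3 (by omega) r3
  have y4 := zero_nat m4 (by omega) r4
  rw [sum5]
  omega

theorem ex_f3 (f g : ZMod 5 → ℕ) (hT : ∀ w : ZMod 529, T60 c529 f w = T60 c529 g w)
    (hsum : ∑ x, f x = ∑ x, g x) (hle : ∑ x, f x ≤ 108) (hf : ∃ x, f x = 0)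
    (hr : ∀ x, f x % 22 = (![0, 0, 1, 0, 2] : Fin 5 → ℕ) x) (hr' : ∀ x, g x % 22 = (![0, 0, 2, 0, 1] : Fin 5 → ℕ) x) : ∑ x, f x = 3 := by
  have hP := pt8_of f g hT
  rw [sum5, sum5] at hsum
  rw [sum5] at hle
  have e0 := split22 (f 0) 0 (hr 0)
  have e1 := split22 (f 1) 0 (hr 1)
  have e2 := split22 (f 2) 1 (hr 2)
  have e3 := split22 (f 3) 0 (hr 3)
  have e4 := split22 (f 4) 2 (hr 4)
  have k0 := split22 (g 0) 0 (hr' 0)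
  have k1 := split22 (g 1) 0 (hr' 1)
  have k2 := split22 (g 2) 2 (hr' 2)
  have k3 := split22 (g 3) 0 (hr' 3)
  have k4 := split22 (g 4) 1 (hr' 4)
  have hx : ∃ x, f x = 0 ∧ f x / 22 = 0 ∧ (![0, 0, 1, 0, 2] : Fin 5 → ℕ) x = 0 := by
    obtain ⟨x, hx⟩ := hf
    refine ⟨x, hx, by rw [hx], ?_⟩
    rw [← hr, hx]
  clear hT hr hr' hf
  generalize hm0 : f 0 / 22 = m0 at *
  generalize hm1 : f 1 / 22 = m1 at *
  generalize hm2 : f 2 / 22 = m2 at *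
  generalize hm3 : f 3 / 22 = m3 at *
  generalize hm4 : f 4 / 22 = m4 at *
  generalize g 0 / 22 = n0 at *
  generalize g 1 / 22 = n1 at *
  generalize g 2 / 22 = n2 at *
  generalize g 3 / 22 = n3 at *
  generalize g 4 / 22 = n4 at *
  rw [e0, e1, e2, e3, e4, k0, k1, k2, k3, k4] at hP
  obtain ⟨g0, g1, g2, g3, g4, g5, g6, g7⟩ := hP
  have q0 := point _ _ _ _ _ 19 20 4 5 21 (by decide) (by decide) (by decide) (by decide) (by decide) 0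
    0 1 0 2 0 2 0 1 m0 m1 m2 m3 m4 n0 n1 n2 n3 n4 (by decide +kernel) g0
  have q1 := point _ _ _ _ _ 6 9 1 15 15 (by decide) (by decide) (by decide) (by decide) (by decide) 0
    0 1 0 2 0 2 0 1 m0 m1 m2 m3 m4 n0 n1 n2 n3 n4 (by decide +kernel) g1
  have q2 := point _ _ _ _ _ 1 20 12 6 14 (by decide) (by decide) (by decide) (by decide) (by decide) 0
    0 1 0 2 0 2 0 1 m0 m1 m2 m3 m4 n0 n1 n2 n3 n4 (by decide +kernel) g2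
  have q3 := point _ _ _ _ _ 11 16 3 8 17 (by decide) (by decide) (by decide) (by decide) (by decide) 0
    0 1 0 2 0 2 0 1 m0 m1 m2 m3 m4 n0 n1 n2 n3 n4 (by decide +kernel) g3
  have q4 := point _ _ _ _ _ 21 15 4 15 6 (by decide) (by decide) (by decide) (by decide) (by decide) 0
    0 1 0 2 0 2 0 1 m0 m1 m2 m3 m4 n0 n1 n2 n3 n4 (by decide +kernel) g4
  have q5 := point _ _ _ _ _ 15 11 19 17 19 (by decide) (by decide) (by decide) (by decide) (by decide) 0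
    0 1 0 2 0 2 0 1 m0 m1 m2 m3 m4 n0 n1 n2 n3 n4 (by decide +kernel) g5
  have q6 := point _ _ _ _ _ 3 8 15 2 1 (by decide) (by decide) (by decide) (by decide) (by decide) 0
    0 1 0 2 0 2 0 1 m0 m1 m2 m3 m4 n0 n1 n2 n3 n4 (by decide +kernel) g6
  have q7 := point _ _ _ _ _ 9 5 8 6 6 (by decide) (by decide) (by decide) (by decide) (by decide) 0
    0 1 0 2 0 2 0 1 m0 m1 m2 m3 m4 n0 n1 n2 n3 n4 (by decide +kernel) g7
  have hsm : m0 + m1 + m2 + m3 + m4 = n0 + n1 + n2 + n3 + n4 := by omega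
  have hs : (m0 : ZMod 23) + m1 + m2 + m3 + m4 = n0 + n1 + n2 + n3 + n4 := by
    have := congrArg (fun z : ℕ => (z : ZMod 23)) hsm
    simpa only [Nat.cast_add] using this
  have p0 : LE 9 13 17 12 19 19 20 4 5 21 0 1 0 2 m0 m1 m2 m3 m4 -
      LE 9 13 17 12 19 19 20 4 5 21 0 2 0 1 n0 n1 n2 n3 n4 = 0 := by
    have : LE 9 13 17 12 19 19 20 4 5 21 0 1 0 2 m0 m1 m2 m3 m4 -
      LE 9 13 17 12 19 19 20 4 5 21 0 2 0 1 n0 n1 n2 n3 n4 + 0 = 0 := q0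
    rwa [add_zero] at this
  have p1 : LE 10 14 18 13 20 6 9 1 15 15 0 1 0 2 m0 m1 m2 m3 m4 -
      LE 10 14 18 13 20 6 9 1 15 15 0 2 0 1 n0 n1 n2 n3 n4 = 0 := by
    have : LE 10 14 18 13 20 6 9 1 15 15 0 1 0 2 m0 m1 m2 m3 m4 -
      LE 10 14 18 13 20 6 9 1 15 15 0 2 0 1 n0 n1 n2 n3 n4 + 0 = 0 := q1
    rwa [add_zero] at this
  have p2 : LE 11 15 19 14 21 1 20 12 6 14 0 1 0 2 m0 m1 m2 m3 m4 -
      LE 11 15 19 14 21 1 20 12 6 14 0 2 0 1 n0 n1 n2 n3 n4 = 0 := by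
    have : LE 11 15 19 14 21 1 20 12 6 14 0 1 0 2 m0 m1 m2 m3 m4 -
      LE 11 15 19 14 21 1 20 12 6 14 0 2 0 1 n0 n1 n2 n3 n4 + 0 = 0 := q2
    rwa [add_zero] at this
  have p3 : LE 12 16 20 15 22 11 16 3 8 17 0 1 0 2 m0 m1 m2 m3 m4 -
      LE 12 16 20 15 22 11 16 3 8 17 0 2 0 1 n0 n1 n2 n3 n4 = 0 := by
    have : LE 12 16 20 15 22 11 16 3 8 17 0 1 0 2 m0 m1 m2 m3 m4 -
      LE 12 16 20 15 22 11 16 3 8 17 0 2 0 1 n0 n1 n2 n3 n4 + 0 = 0 := q3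
    rwa [add_zero] at this
  have p4 : LE 14 18 22 17 1 21 15 4 15 6 0 1 0 2 m0 m1 m2 m3 m4 -
      LE 14 18 22 17 1 21 15 4 15 6 0 2 0 1 n0 n1 n2 n3 n4 = 0 := by
    have : LE 14 18 22 17 1 21 15 4 15 6 0 1 0 2 m0 m1 m2 m3 m4 -
      LE 14 18 22 17 1 21 15 4 15 6 0 2 0 1 n0 n1 n2 n3 n4 + 0 = 0 := q4
    rwa [add_zero] at this
  have p5 : LE 16 20 1 19 3 15 11 19 17 19 0 1 0 2 m0 m1 m2 m3 m4 -
      LE 16 20 1 19 3 15 11 19 17 19 0 2 0 1 n0 n1 n2 n3 n4 = 0 := by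
    have : LE 16 20 1 19 3 15 11 19 17 19 0 1 0 2 m0 m1 m2 m3 m4 -
      LE 16 20 1 19 3 15 11 19 17 19 0 2 0 1 n0 n1 n2 n3 n4 + 0 = 0 := q5
    rwa [add_zero] at this
  have p6 : LE 17 21 2 20 4 3 8 15 2 1 0 1 0 2 m0 m1 m2 m3 m4 -
      LE 17 21 2 20 4 3 8 15 2 1 0 2 0 1 n0 n1 n2 n3 n4 = 0 := by
    have : LE 17 21 2 20 4 3 8 15 2 1 0 1 0 2 m0 m1 m2 m3 m4 -
      LE 17 21 2 20 4 3 8 15 2 1 0 2 0 1 n0 n1 n2 n3 n4 + 0 = 0 := q6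
    rwa [add_zero] at this
  have p7 : LE 18 22 3 21 5 9 5 8 6 6 0 1 0 2 m0 m1 m2 m3 m4 -
      LE 18 22 3 21 5 9 5 8 6 6 0 2 0 1 n0 n1 n2 n3 n4 = 0 := by
    have : LE 18 22 3 21 5 9 5 8 6 6 0 1 0 2 m0 m1 m2 m3 m4 -
      LE 18 22 3 21 5 9 5 8 6 6 0 2 0 1 n0 n1 n2 n3 n4 + 0 = 0 := q7
    rwa [add_zero] at this
  obtain ⟨r1, r2, r3, r4, r5, r6, r7, r8, r9⟩ := exc_f3 m0 m1 m2 m3 m4 n0 n1 n2 n3 n4 hs
    p0 p1 p2 p3 p4 p5 p6 p7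
  have z0 : (m0 : ZMod 23) = 0 := by
    obtain ⟨x, -, hx, -⟩ := hx
    have c5 : ∀ x : ZMod 5, x = 0 ∨ x = 1 ∨ x = 2 ∨ x = 3 ∨ x = 4 := by decide
    rcases c5 x with rfl | rfl | rfl | rfl | rfl
    · rw [hm0] at hx; rw [hx]; rfl
    · rw [hm1] at hx; rw [← r1, hx]; rfl
    · rw [hm2] at hx; rw [← r2, hx]; rfl
    · rw [hm3] at hx; rw [← r3, hx]; rfl
    · rw [hm4] at hx; rw [← r4, hx]; rfl
  rw [z0] at r1 r2 r3 r4
  have y0 := zero_nat m0 (by omega) z0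
  have y1 := zero_nat m1 (by omega) r1
  have y2 := zero_nat m2 (by omega) r2
  have y3 := zero_nat m3 (by omega) r3
  have y4 := zero_nat m4 (by omega) r4
  rw [sum5]
  omega

theorem ex_g1 (f g : ZMod 5 → ℕ) (hT : ∀ w : ZMod 529, T60 c529 f w = T60 c529 g w)
    (hsum : ∑ x, f x = ∑ x, g x) (hle : ∑ x, f x ≤ 108) (hf : ∃ x, f x = 0)
    (hr : ∀ x, f x % 22 = (![0, 0, 0, 1, 3] : Fin 5 → ℕ) x) (hr' : ∀ x, g x % 22 = (![0, 0, 3, 0, 1] : Fin 5 → ℕ) x) : ∑ x, f x = 4 := by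
  have hP := pt8_of f g hT
  rw [sum5, sum5] at hsum
  rw [sum5] at hle
  have e0 := split22 (f 0) 0 (hr 0)
  have e1 := split22 (f 1) 0 (hr 1)
  have e2 := split22 (f 2) 0 (hr 2)
  have e3 := split22 (f 3) 1 (hr 3)
  have e4 := split22 (f 4) 3 (hr 4)
  have k0 := split22 (g 0) 0 (hr' 0)
  have k1 := split22 (g 1) 0 (hr' 1)
  have k2 := split22 (g 2) 3 (hr' 2)
  have k3 := split22 (g 3) 0 (hr' 3)
  have k4 := split22 (g 4) 1 (hr' 4)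
  have hx : ∃ x, f x = 0 ∧ f x / 22 = 0 ∧ (![0, 0, 0, 1, 3] : Fin 5 → ℕ) x = 0 := by
    obtain ⟨x, hx⟩ := hf
    refine ⟨x, hx, by rw [hx], ?_⟩
    rw [← hr, hx]
  clear hT hr hr' hf
  generalize hm0 : f 0 / 22 = m0 at *
  generalize hm1 : f 1 / 22 = m1 at *
  generalize hm2 : f 2 / 22 = m2 at *
  generalize hm3 : f 3 / 22 = m3 at *
  generalize hm4 : f 4 / 22 = m4 at *
  generalize g 0 / 22 = n0 at *
  generalize g 1 / 22 = n1 at *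
  generalize g 2 / 22 = n2 at *
  generalize g 3 / 22 = n3 at *
  generalize g 4 / 22 = n4 at *
  rw [e0, e1, e2, e3, e4, k0, k1, k2, k3, k4] at hP
  obtain ⟨g0, g1, g2, g3, g4, g5, g6, g7⟩ := hP
  have q0 := point _ _ _ _ _ 19 20 4 5 21 (by decide) (by decide) (by decide) (by decide) (by decide) 0
    0 0 1 3 0 3 0 1 m0 m1 m2 m3 m4 n0 n1 n2 n3 n4 (by decide +kernel) g0
  have q1 := point _ _ _ _ _ 6 9 1 15 15 (by decide) (by decide) (by decide) (by decide) (by decide) 0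
    0 0 1 3 0 3 0 1 m0 m1 m2 m3 m4 n0 n1 n2 n3 n4 (by decide +kernel) g1
  have q2 := point _ _ _ _ _ 1 20 12 6 14 (by decide) (by decide) (by decide) (by decide) (by decide) 0
    0 0 1 3 0 3 0 1 m0 m1 m2 m3 m4 n0 n1 n2 n3 n4 (by decide +kernel) g2
  have q3 := point _ _ _ _ _ 11 16 3 8 17 (by decide) (by decide) (by decide) (by decide) (by decide) 0
    0 0 1 3 0 3 0 1 m0 m1 m2 m3 m4 n0 n1 n2 n3 n4 (by decide +kernel) g3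
  have q4 := point _ _ _ _ _ 21 15 4 15 6 (by decide) (by decide) (by decide) (by decide) (by decide) 0
    0 0 1 3 0 3 0 1 m0 m1 m2 m3 m4 n0 n1 n2 n3 n4 (by decide +kernel) g4
  have q5 := point _ _ _ _ _ 15 11 19 17 19 (by decide) (by decide) (by decide) (by decide) (by decide) 0
    0 0 1 3 0 3 0 1 m0 m1 m2 m3 m4 n0 n1 n2 n3 n4 (by decide +kernel) g5
  have q6 := point _ _ _ _ _ 3 8 15 2 1 (by decide) (by decide) (by decide) (by decide) (by decide) 0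
    0 0 1 3 0 3 0 1 m0 m1 m2 m3 m4 n0 n1 n2 n3 n4 (by decide +kernel) g6
  have q7 := point _ _ _ _ _ 9 5 8 6 6 (by decide) (by decide) (by decide) (by decide) (by decide) 0
    0 0 1 3 0 3 0 1 m0 m1 m2 m3 m4 n0 n1 n2 n3 n4 (by decide +kernel) g7
  have hsm : m0 + m1 + m2 + m3 + m4 = n0 + n1 + n2 + n3 + n4 := by omega
  have hs : (m0 : ZMod 23) + m1 + m2 + m3 + m4 = n0 + n1 + n2 + n3 + n4 := by
    have := congrArg (fun z : ℕ => (z : ZMod 23)) hsm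
    simpa only [Nat.cast_add] using this
  have p0 : LE 9 13 17 12 19 19 20 4 5 21 0 0 1 3 m0 m1 m2 m3 m4 -
      LE 9 13 17 12 19 19 20 4 5 21 0 3 0 1 n0 n1 n2 n3 n4 = 0 := by
    have : LE 9 13 17 12 19 19 20 4 5 21 0 0 1 3 m0 m1 m2 m3 m4 -
      LE 9 13 17 12 19 19 20 4 5 21 0 3 0 1 n0 n1 n2 n3 n4 + 0 = 0 := q0
    rwa [add_zero] at this
  have p1 : LE 10 14 18 13 20 6 9 1 15 15 0 0 1 3 m0 m1 m2 m3 m4 -
      LE 10 14 18 13 20 6 9 1 15 15 0 3 0 1 n0 n1 n2 n3 n4 = 0 := by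
    have : LE 10 14 18 13 20 6 9 1 15 15 0 0 1 3 m0 m1 m2 m3 m4 -
      LE 10 14 18 13 20 6 9 1 15 15 0 3 0 1 n0 n1 n2 n3 n4 + 0 = 0 := q1
    rwa [add_zero] at this
  have p2 : LE 11 15 19 14 21 1 20 12 6 14 0 0 1 3 m0 m1 m2 m3 m4 -
      LE 11 15 19 14 21 1 20 12 6 14 0 3 0 1 n0 n1 n2 n3 n4 = 0 := by
    have : LE 11 15 19 14 21 1 20 12 6 14 0 0 1 3 m0 m1 m2 m3 m4 -
      LE 11 15 19 14 21 1 20 12 6 14 0 3 0 1 n0 n1 n2 n3 n4 + 0 = 0 := q2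
    rwa [add_zero] at this
  have p3 : LE 12 16 20 15 22 11 16 3 8 17 0 0 1 3 m0 m1 m2 m3 m4 -
      LE 12 16 20 15 22 11 16 3 8 17 0 3 0 1 n0 n1 n2 n3 n4 = 0 := by
    have : LE 12 16 20 15 22 11 16 3 8 17 0 0 1 3 m0 m1 m2 m3 m4 -
      LE 12 16 20 15 22 11 16 3 8 17 0 3 0 1 n0 n1 n2 n3 n4 + 0 = 0 := q3
    rwa [add_zero] at this
  have p4 : LE 14 18 22 17 1 21 15 4 15 6 0 0 1 3 m0 m1 m2 m3 m4 -
      LE 14 18 22 17 1 21 15 4 15 6 0 3 0 1 n0 n1 n2 n3 n4 = 0 := by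
    have : LE 14 18 22 17 1 21 15 4 15 6 0 0 1 3 m0 m1 m2 m3 m4 -
      LE 14 18 22 17 1 21 15 4 15 6 0 3 0 1 n0 n1 n2 n3 n4 + 0 = 0 := q4
    rwa [add_zero] at this
  have p5 : LE 16 20 1 19 3 15 11 19 17 19 0 0 1 3 m0 m1 m2 m3 m4 -
      LE 16 20 1 19 3 15 11 19 17 19 0 3 0 1 n0 n1 n2 n3 n4 = 0 := by
    have : LE 16 20 1 19 3 15 11 19 17 19 0 0 1 3 m0 m1 m2 m3 m4 -
      LE 16 20 1 19 3 15 11 19 17 19 0 3 0 1 n0 n1 n2 n3 n4 + 0 = 0 := q5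
    rwa [add_zero] at this
  have p6 : LE 17 21 2 20 4 3 8 15 2 1 0 0 1 3 m0 m1 m2 m3 m4 -
      LE 17 21 2 20 4 3 8 15 2 1 0 3 0 1 n0 n1 n2 n3 n4 = 0 := by
    have : LE 17 21 2 20 4 3 8 15 2 1 0 0 1 3 m0 m1 m2 m3 m4 -
      LE 17 21 2 20 4 3 8 15 2 1 0 3 0 1 n0 n1 n2 n3 n4 + 0 = 0 := q6
    rwa [add_zero] at this
  have p7 : LE 18 22 3 21 5 9 5 8 6 6 0 0 1 3 m0 m1 m2 m3 m4 -
      LE 18 22 3 21 5 9 5 8 6 6 0 3 0 1 n0 n1 n2 n3 n4 = 0 := by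
    have : LE 18 22 3 21 5 9 5 8 6 6 0 0 1 3 m0 m1 m2 m3 m4 -
      LE 18 22 3 21 5 9 5 8 6 6 0 3 0 1 n0 n1 n2 n3 n4 + 0 = 0 := q7
    rwa [add_zero] at this
  obtain ⟨r1, r2, r3, r4, r5, r6, r7, r8, r9⟩ := exc_g1 m0 m1 m2 m3 m4 n0 n1 n2 n3 n4 hs
    p0 p1 p2 p3 p4 p5 p6 p7
  have z0 : (m0 : ZMod 23) = 0 := by
    obtain ⟨x, -, hx, -⟩ := hx
    have c5 : ∀ x : ZMod 5, x = 0 ∨ x = 1 ∨ x = 2 ∨ x = 3 ∨ x = 4 := by decide
    rcases c5 x with rfl | rfl | rfl | rfl | rfl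
    · rw [hm0] at hx; rw [hx]; rfl
    · rw [hm1] at hx; rw [← r1, hx]; rfl
    · rw [hm2] at hx; rw [← r2, hx]; rfl
    · rw [hm3] at hx; rw [← r3, hx]; rfl
    · rw [hm4] at hx; rw [← r4, hx]; rfl
  rw [z0] at r1 r2 r3 r4
  have y0 := zero_nat m0 (by omega) z0
  have y1 := zero_nat m1 (by omega) r1
  have y2 := zero_nat m2 (by omega) r2
  have y3 := zero_nat m3 (by omega) r3
  have y4 := zero_nat m4 (by omega) r4
  rw [sum5]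
  omega

theorem ex_h1 (f g : ZMod 5 → ℕ) (hT : ∀ w : ZMod 529, T60 c529 f w = T60 c529 g w)
    (hsum : ∑ x, f x = ∑ x, g x) (hle : ∑ x, f x ≤ 108) (hf : ∃ x, f x = 0)
    (hr : ∀ x, f x % 22 = (![0, 0, 21, 21, 21] : Fin 5 → ℕ) x) (hr' : ∀ x, g x % 22 = (![0, 21, 0, 21, 21] : Fin 5 → ℕ) x) : False := by
  have hP := pt8_of f g hT
  rw [sum5, sum5] at hsum
  rw [sum5] at hle
  have e0 := split22 (f 0) 0 (hr 0)
  have e1 := split22 (f 1) 0 (hr 1)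
  have e2 := split22 (f 2) 21 (hr 2)
  have e3 := split22 (f 3) 21 (hr 3)
  have e4 := split22 (f 4) 21 (hr 4)
  have k0 := split22 (g 0) 0 (hr' 0)
  have k1 := split22 (g 1) 21 (hr' 1)
  have k2 := split22 (g 2) 0 (hr' 2)
  have k3 := split22 (g 3) 21 (hr' 3)
  have k4 := split22 (g 4) 21 (hr' 4)
  have hx : ∃ x, f x = 0 ∧ f x / 22 = 0 ∧ (![0, 0, 21, 21, 21] : Fin 5 → ℕ) x = 0 := by
    obtain ⟨x, hx⟩ := hf
    refine ⟨x, hx, by rw [hx], ?_⟩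
    rw [← hr, hx]
  clear hT hr hr' hf
  generalize hm0 : f 0 / 22 = m0 at *
  generalize hm1 : f 1 / 22 = m1 at *
  generalize hm2 : f 2 / 22 = m2 at *
  generalize hm3 : f 3 / 22 = m3 at *
  generalize hm4 : f 4 / 22 = m4 at *
  generalize g 0 / 22 = n0 at *
  generalize g 1 / 22 = n1 at *
  generalize g 2 / 22 = n2 at *
  generalize g 3 / 22 = n3 at *
  generalize g 4 / 22 = n4 at *
  rw [e0, e1, e2, e3, e4, k0, k1, k2, k3, k4] at hP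
  obtain ⟨g0, g1, g2, g3, g4, g5, g6, g7⟩ := hP
  have q0 := point _ _ _ _ _ 19 20 4 5 21 (by decide) (by decide) (by decide) (by decide) (by decide) 16
    0 21 21 21 21 0 21 21 m0 m1 m2 m3 m4 n0 n1 n2 n3 n4 (by decide +kernel) g0
  have q1 := point _ _ _ _ _ 6 9 1 15 15 (by decide) (by decide) (by decide) (by decide) (by decide) 9
    0 21 21 21 21 0 21 21 m0 m1 m2 m3 m4 n0 n1 n2 n3 n4 (by decide +kernel) g1
  have q2 := point _ _ _ _ _ 1 20 12 6 14 (by decide) (by decide) (by decide) (by decide) (by decide) 3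
    0 21 21 21 21 0 21 21 m0 m1 m2 m3 m4 n0 n1 n2 n3 n4 (by decide +kernel) g2
  have q3 := point _ _ _ _ _ 11 16 3 8 17 (by decide) (by decide) (by decide) (by decide) (by decide) 7
    0 21 21 21 21 0 21 21 m0 m1 m2 m3 m4 n0 n1 n2 n3 n4 (by decide +kernel) g3
  have q4 := point _ _ _ _ _ 21 15 4 15 6 (by decide) (by decide) (by decide) (by decide) (by decide) 4
    0 21 21 21 21 0 21 21 m0 m1 m2 m3 m4 n0 n1 n2 n3 n4 (by decide +kernel) g4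
  have q5 := point _ _ _ _ _ 15 11 19 17 19 (by decide) (by decide) (by decide) (by decide) (by decide) 16
    0 21 21 21 21 0 21 21 m0 m1 m2 m3 m4 n0 n1 n2 n3 n4 (by decide +kernel) g5
  have q6 := point _ _ _ _ _ 3 8 15 2 1 (by decide) (by decide) (by decide) (by decide) (by decide) 0
    0 21 21 21 21 0 21 21 m0 m1 m2 m3 m4 n0 n1 n2 n3 n4 (by decide +kernel) g6
  have q7 := point _ _ _ _ _ 9 5 8 6 6 (by decide) (by decide) (by decide) (by decide) (by decide) 2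
    0 21 21 21 21 0 21 21 m0 m1 m2 m3 m4 n0 n1 n2 n3 n4 (by decide +kernel) g7
  have hsm : m0 + m1 + m2 + m3 + m4 = n0 + n1 + n2 + n3 + n4 := by omega
  have hs : (m0 : ZMod 23) + m1 + m2 + m3 + m4 = n0 + n1 + n2 + n3 + n4 := by
    have := congrArg (fun z : ℕ => (z : ZMod 23)) hsm
    simpa only [Nat.cast_add] using this
  have p0 : LE 9 13 17 12 19 19 20 4 5 21 0 21 21 21 m0 m1 m2 m3 m4 -
      LE 9 13 17 12 19 19 20 4 5 21 21 0 21 21 n0 n1 n2 n3 n4 + 16 = 0 := q0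
  have p1 : LE 10 14 18 13 20 6 9 1 15 15 0 21 21 21 m0 m1 m2 m3 m4 -
      LE 10 14 18 13 20 6 9 1 15 15 21 0 21 21 n0 n1 n2 n3 n4 + 9 = 0 := q1
  have p2 : LE 11 15 19 14 21 1 20 12 6 14 0 21 21 21 m0 m1 m2 m3 m4 -
      LE 11 15 19 14 21 1 20 12 6 14 21 0 21 21 n0 n1 n2 n3 n4 + 3 = 0 := q2
  have p3 : LE 12 16 20 15 22 11 16 3 8 17 0 21 21 21 m0 m1 m2 m3 m4 -
      LE 12 16 20 15 22 11 16 3 8 17 21 0 21 21 n0 n1 n2 n3 n4 + 7 = 0 := q3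
  have p4 : LE 14 18 22 17 1 21 15 4 15 6 0 21 21 21 m0 m1 m2 m3 m4 -
      LE 14 18 22 17 1 21 15 4 15 6 21 0 21 21 n0 n1 n2 n3 n4 + 4 = 0 := q4
  have p5 : LE 16 20 1 19 3 15 11 19 17 19 0 21 21 21 m0 m1 m2 m3 m4 -
      LE 16 20 1 19 3 15 11 19 17 19 21 0 21 21 n0 n1 n2 n3 n4 + 16 = 0 := q5
  have p6 : LE 17 21 2 20 4 3 8 15 2 1 0 21 21 21 m0 m1 m2 m3 m4 -
      LE 17 21 2 20 4 3 8 15 2 1 21 0 21 21 n0 n1 n2 n3 n4 = 0 := by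
    have : LE 17 21 2 20 4 3 8 15 2 1 0 21 21 21 m0 m1 m2 m3 m4 -
      LE 17 21 2 20 4 3 8 15 2 1 21 0 21 21 n0 n1 n2 n3 n4 + 0 = 0 := q6
    rwa [add_zero] at this
  have p7 : LE 18 22 3 21 5 9 5 8 6 6 0 21 21 21 m0 m1 m2 m3 m4 -
      LE 18 22 3 21 5 9 5 8 6 6 21 0 21 21 n0 n1 n2 n3 n4 + 2 = 0 := q7
  obtain ⟨r1, r2⟩ := exc_h1 m0 m1 m2 m3 m4 n0 n1 n2 n3 n4 hs p0 p1 p2 p3 p4 p5 p6 p7
  have z0 : (m0 : ZMod 23) = 0 := by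
    obtain ⟨x, -, hx, hx'⟩ := hx
    have c5 : ∀ x : ZMod 5, x = 0 ∨ x = 1 ∨ x = 2 ∨ x = 3 ∨ x = 4 := by decide
    rcases c5 x with rfl | rfl | rfl | rfl | rfl
    · rw [hm0] at hx; rw [hx]; rfl
    · rw [hm1] at hx; rw [← r1, hx]; rfl
    · exact absurd hx' (by decide)
    · exact absurd hx' (by decide)
    · exact absurd hx' (by decide)
  rw [z0] at r2
  have y2 := cast_inj23 m2 22 (by omega) (by norm_num) (by rw [r2]; rfl)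
  omega

end Pool.Agent.Lib.MP_c53f59_gt.K60
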