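import Pool.Agent.Lib.MP_c53f59_gt.K60.Fin4

/-! The finite check: final assembly. -/

namespace Pool.Agent.Lib.MP_c53f59_gt.K60

theorem cls_spec (a b c d e : ℕ) (h : cls a b c d e ≠ 0) :
    (cls a b c d e = 1 ∧ (isrot a b c d e 0 0 0 1 1 = true ∨ isrot a b c d e 0 0 1 0 1 = true)) ∨
    (cls a b c d e = 2 ∧ (isrot a b c d e 0 0 0 1 2 = true ∨ isrot a b c d e 0 0 1 0 2 = true ∨ isrot a b c d e 0 0 2 0 1 = true)) ∨
    (cls a b c d e = 3 ∧ (isrot a b c d e 0 0 0 1 3 = true ∨ isrot a b c d e 0 0 3 0 1 = true)) ∨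
    (cls a b c d e = 4 ∧ (isrot a b c d e 0 0 21 21 21 = true ∨ isrot a b c d e 0 21 0 21 21 = true)) := by
  by_cases h1 : isrot a b c d e 0 0 0 1 1 = true
  · exact Or.inl ⟨by simp [cls, h1], Or.inl h1⟩
  rw [Bool.not_eq_true] at h1
  by_cases h2 : isrot a b c d e 0 0 1 0 1 = true
  · exact Or.inl ⟨by simp [cls, h1, h2], Or.inr (h2)⟩
  rw [Bool.not_eq_true] at h2
  by_cases h3 : isrot a b c d e 0 0 0 1 2 = true
  · exact Or.inr (Or.inl ⟨by simp [cls, h1, h2, h3], Or.inl h3⟩)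
  rw [Bool.not_eq_true] at h3
  by_cases h4 : isrot a b c d e 0 0 1 0 2 = true
  · exact Or.inr (Or.inl ⟨by simp [cls, h1, h2, h3, h4], Or.inr (Or.inl h4)⟩)
  rw [Bool.not_eq_true] at h4
  by_cases h5 : isrot a b c d e 0 0 2 0 1 = true
  · exact Or.inr (Or.inl ⟨by simp [cls, h1, h2, h3, h4, h5], Or.inr (Or.inr (h5))⟩)
  rw [Bool.not_eq_true] at h5
  by_cases h6 : isrot a b c d e 0 0 0 1 3 = true
  · exact Or.inr (Or.inr (Or.inl ⟨by simp [cls, h1, h2, h3, h4, h5, h6], Or.inl h6⟩))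
  rw [Bool.not_eq_true] at h6
  by_cases h7 : isrot a b c d e 0 0 3 0 1 = true
  · exact Or.inr (Or.inr (Or.inl ⟨by simp [cls, h1, h2, h3, h4, h5, h6, h7], Or.inr (h7)⟩))
  rw [Bool.not_eq_true] at h7
  by_cases h8 : isrot a b c d e 0 0 21 21 21 = true
  · exact Or.inr (Or.inr (Or.inr (⟨by simp [cls, h1, h2, h3, h4, h5, h6, h7, h8], Or.inl h8⟩)))
  rw [Bool.not_eq_true] at h8
  by_cases h9 : isrot a b c d e 0 21 0 21 21 = true
  · exact Or.inr (Or.inr (Or.inr (⟨by simp [cls, h1, h2, h3, h4, h5, h6, h7, h8, h9], Or.inr (h9)⟩)))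
  rw [Bool.not_eq_true] at h9
  exfalso
  apply h
  simp [cls, h1, h2, h3, h4, h5, h6, h7, h8, h9]

/-- the conclusion -/
def Concl (f g : ZMod 5 → ℕ) : Prop :=
  (∃ s, ∀ x, g x = f (x + s)) ∨ (∑ x, f x = 2 ∨ ∑ x, f x = 3 ∨ ∑ x, f x = 4)

theorem concl_rot (f g : ZMod 5 → ℕ) (s t : ZMod 5)
    (h : Concl (fun x => f (x + s)) (fun x => g (x + t))) : Concl f g := by
  unfold Concl at h
  rw [sum_rot] at h
  rcases h with ⟨u, hu⟩ | h
  · left
    exact unrot f g s t u hu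
  · right
    exact h

theorem concl_symm (f g : ZMod 5 → ℕ) (hsum : ∑ x, f x = ∑ x, g x) (h : Concl g f) :
    Concl f g := by
  rcases h with ⟨u, hu⟩ | h
  · left
    refine ⟨-u, fun x => ?_⟩
    rw [hu, neg_add_cancel_right]
  · right
    rw [hsum]
    exact h

theorem zero_rot (f : ZMod 5 → ℕ) (s : ZMod 5) (h : ∃ x y, x ≠ y ∧ f x = 0 ∧ f y = 0) :
    ∃ x y, x ≠ y ∧ f (x + s) = 0 ∧ f (y + s) = 0 := by
  obtain ⟨x, y, hxy, hx, hy⟩ := h
  refine ⟨x - s, y - s, fun hh => hxy (sub_left_injective hh), ?_, ?_⟩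
  · rw [sub_add_cancel]; exact hx
  · rw [sub_add_cancel]; exact hy

theorem one_rot (f : ZMod 5 → ℕ) (s : ZMod 5) (h : ∃ x y, x ≠ y ∧ f x = 0 ∧ f y = 0) :
    ∃ x, f (x + s) = 0 := by
  obtain ⟨x, y, hxy, hx, hy⟩ := h
  exact ⟨x - s, by rw [sub_add_cancel]; exact hx⟩

theorem good_case (f g : ZMod 5 → ℕ) (hT : ∀ w : ZMod 529, T60 c529 f w = T60 c529 g w)
    (hsum : ∑ x, f x = ∑ x, g x) (hle : ∑ x, f x ≤ 108)
    (hf : ∃ x y, x ≠ y ∧ f x = 0 ∧ f y = 0) (hg : ∃ x y, x ≠ y ∧ g x = 0 ∧ g y = 0)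
    (hf0 : f 0 % 22 = 0) (hg0 : g 0 % 22 = 0) (h12 : g 1 % 22 = 0 ∨ g 2 % 22 = 0)
    (hG : Good (f 1 % 22) (f 2 % 22) (f 3 % 22) (f 4 % 22) (g 1 % 22) (g 2 % 22) (g 3 % 22)
      (g 4 % 22)) : Concl f g := by
  have hTr : ∀ s t : ZMod 5, ∀ w : ZMod 529,
      T60 c529 (fun x => f (x + s)) w = T60 c529 (fun x => g (x + t)) w := by
    intro s t w
    rw [T60_rot, T60_rot]
    exact hT w
  have hTr' : ∀ s t : ZMod 5, ∀ w : ZMod 529,
      T60 c529 (fun x => g (x + t)) w = T60 c529 (fun x => f (x + s)) w := fun s t w =>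
    (hTr s t w).symm
  have hsr : ∀ s t : ZMod 5, ∑ x, f (x + s) = ∑ x, g (x + t) := by
    intro s t
    rw [sum_rot, sum_rot]
    exact hsum
  have hlr : ∀ s : ZMod 5, ∑ x, f (x + s) ≤ 108 := by
    intro s
    rw [sum_rot]
    exact hle
  have hlg : ∀ s : ZMod 5, ∑ x, g (x + s) ≤ 108 := by
    intro s
    rw [sum_rot, ← hsum]
    exact hle
  rcases hG with h | ⟨h1, h2⟩
  · have h' : isrot (f 0 % 22) (f 1 % 22) (f 2 % 22) (f 3 % 22) (f 4 % 22) (g 0 % 22) (g 1 % 22)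
        (g 2 % 22) (g 3 % 22) (g 4 % 22) = true := by
      rw [hf0, hg0]
      exact h
    obtain ⟨s, hs⟩ := isrot_spec (fun x => f x % 22) (fun x => g x % 22) h'
    apply concl_rot f g s 0
    left
    simp only [add_zero]
    exact same_res (fun x => f (x + s)) g (by simpa only [add_zero] using hTr s 0)
      (fun x => (hs x).symm) (by simpa only [add_zero] using hsr s 0) (hlr s)
      (zero_rot f s hf) hg hg0 h12
  · have h3 : cls 0 (g 1 % 22) (g 2 % 22) (g 3 % 22) (g 4 % 22) ≠ 0 := by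
      rw [← h2]
      exact h1
    have key : ∀ (p : ZMod 5 → ℕ), p 0 % 22 = 0 → ∀ E : Fin 5 → ℕ,
        isrot 0 (p 1 % 22) (p 2 % 22) (p 3 % 22) (p 4 % 22) (E 0) (E 1) (E 2) (E 3) (E 4) = true →
        ∃ s, ∀ x : ZMod 5, p (x + s) % 22 = E x := by
      intro p hp E hh
      have hh' : isrot (p 0 % 22) (p 1 % 22) (p 2 % 22) (p 3 % 22) (p 4 % 22) (E 0) (E 1) (E 2)
          (E 3) (E 4) = true := by
        rw [hp]
        exact hh
      obtain ⟨s, hs⟩ := isrot_spec (fun x => p x % 22) E hh'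
      exact ⟨s, fun x => (hs x).symm⟩
    have cf := cls_spec _ _ _ _ _ h1
    have cg := cls_spec _ _ _ _ _ h3
    rw [← h2] at cg
    rcases cf with ⟨ck, cf⟩ | ⟨ck, cf⟩ | ⟨ck, cf⟩ | ⟨ck, cf⟩
    · have cg' : isrot 0 (g 1 % 22) (g 2 % 22) (g 3 % 22) (g 4 % 22) 0 0 0 1 1 = true ∨ isrot 0 (g 1 % 22) (g 2 % 22) (g 3 % 22) (g 4 % 22) 0 0 1 0 1 = true := by
        rcases cg with ⟨dk, cg⟩ | ⟨dk, cg⟩ | ⟨dk, cg⟩ | ⟨dk, cg⟩
        · exact cg
        · rw [ck] at dk; exact absurd dk (by decide)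
        · rw [ck] at dk; exact absurd dk (by decide)
        · rw [ck] at dk; exact absurd dk (by decide)
      rcases cf with cf | cf
      · obtain ⟨s, hs⟩ := key f hf0 (![0, 0, 0, 1, 1] : Fin 5 → ℕ) cf
        rcases cg' with cg' | cg'
        · obtain ⟨t, ht⟩ := key g hg0 (![0, 0, 0, 1, 1] : Fin 5 → ℕ) cg'
          apply concl_rot f g s t
          exact Or.inl (same_res _ _ (hTr s t) (fun x => (hs x).trans (ht x).symm)
            (hsr s t) (hlr s) (zero_rot f s hf) (zero_rot g t hg) (ht 0) (Or.inl (ht 1)))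
        · obtain ⟨t, ht⟩ := key g hg0 (![0, 0, 1, 0, 1] : Fin 5 → ℕ) cg'
          apply concl_rot f g s t
          exact Or.inr (Or.inl (ex_e1 _ _ (hTr s t) (hsr s t) (hlr s) (one_rot f s hf) hs ht))
      · obtain ⟨s, hs⟩ := key f hf0 (![0, 0, 1, 0, 1] : Fin 5 → ℕ) cf
        rcases cg' with cg' | cg'
        · obtain ⟨t, ht⟩ := key g hg0 (![0, 0, 0, 1, 1] : Fin 5 → ℕ) cg'
          apply concl_rot f g s t
          exact Or.inr (Or.inl ((hsr s t).trans (ex_e1 _ _ (hTr' s t) (hsr s t).symm (hlg t) (one_rot g t hg) ht hs)))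
        · obtain ⟨t, ht⟩ := key g hg0 (![0, 0, 1, 0, 1] : Fin 5 → ℕ) cg'
          apply concl_rot f g s t
          exact Or.inl (same_res _ _ (hTr s t) (fun x => (hs x).trans (ht x).symm)
            (hsr s t) (hlr s) (zero_rot f s hf) (zero_rot g t hg) (ht 0) (Or.inl (ht 1)))
    · have cg' : isrot 0 (g 1 % 22) (g 2 % 22) (g 3 % 22) (g 4 % 22) 0 0 0 1 2 = true ∨ isrot 0 (g 1 % 22) (g 2 % 22) (g 3 % 22) (g 4 % 22) 0 0 1 0 2 = true ∨ isrot 0 (g 1 % 22) (g 2 % 22) (g 3 % 22) (g 4 % 22) 0 0 2 0 1 = true := by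
        rcases cg with ⟨dk, cg⟩ | ⟨dk, cg⟩ | ⟨dk, cg⟩ | ⟨dk, cg⟩
        · rw [ck] at dk; exact absurd dk (by decide)
        · exact cg
        · rw [ck] at dk; exact absurd dk (by decide)
        · rw [ck] at dk; exact absurd dk (by decide)
      rcases cf with cf | cf | cf
      · obtain ⟨s, hs⟩ := key f hf0 (![0, 0, 0, 1, 2] : Fin 5 → ℕ) cf
        rcases cg' with cg' | cg' | cg'
        · obtain ⟨t, ht⟩ := key g hg0 (![0, 0, 0, 1, 2] : Fin 5 → ℕ) cg'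
          apply concl_rot f g s t
          exact Or.inl (same_res _ _ (hTr s t) (fun x => (hs x).trans (ht x).symm)
            (hsr s t) (hlr s) (zero_rot f s hf) (zero_rot g t hg) (ht 0) (Or.inl (ht 1)))
        · obtain ⟨t, ht⟩ := key g hg0 (![0, 0, 1, 0, 2] : Fin 5 → ℕ) cg'
          apply concl_rot f g s t
          exact Or.inr (Or.inr (Or.inl (ex_f1 _ _ (hTr s t) (hsr s t) (hlr s) (one_rot f s hf) hs ht)))
        · obtain ⟨t, ht⟩ := key g hg0 (![0, 0, 2, 0, 1] : Fin 5 → ℕ) cg'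
          apply concl_rot f g s t
          exact Or.inr (Or.inr (Or.inl (ex_f2 _ _ (hTr s t) (hsr s t) (hlr s) (one_rot f s hf) hs ht)))
      · obtain ⟨s, hs⟩ := key f hf0 (![0, 0, 1, 0, 2] : Fin 5 → ℕ) cf
        rcases cg' with cg' | cg' | cg'
        · obtain ⟨t, ht⟩ := key g hg0 (![0, 0, 0, 1, 2] : Fin 5 → ℕ) cg'
          apply concl_rot f g s t
          exact Or.inr (Or.inr (Or.inl ((hsr s t).trans (ex_f1 _ _ (hTr' s t) (hsr s t).symm (hlg t) (one_rot g t hg) ht hs))))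
        · obtain ⟨t, ht⟩ := key g hg0 (![0, 0, 1, 0, 2] : Fin 5 → ℕ) cg'
          apply concl_rot f g s t
          exact Or.inl (same_res _ _ (hTr s t) (fun x => (hs x).trans (ht x).symm)
            (hsr s t) (hlr s) (zero_rot f s hf) (zero_rot g t hg) (ht 0) (Or.inl (ht 1)))
        · obtain ⟨t, ht⟩ := key g hg0 (![0, 0, 2, 0, 1] : Fin 5 → ℕ) cg'
          apply concl_rot f g s t
          exact Or.inr (Or.inr (Or.inl (ex_f3 _ _ (hTr s t) (hsr s t) (hlr s) (one_rot f s hf) hs ht)))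
      · obtain ⟨s, hs⟩ := key f hf0 (![0, 0, 2, 0, 1] : Fin 5 → ℕ) cf
        rcases cg' with cg' | cg' | cg'
        · obtain ⟨t, ht⟩ := key g hg0 (![0, 0, 0, 1, 2] : Fin 5 → ℕ) cg'
          apply concl_rot f g s t
          exact Or.inr (Or.inr (Or.inl ((hsr s t).trans (ex_f2 _ _ (hTr' s t) (hsr s t).symm (hlg t) (one_rot g t hg) ht hs))))
        · obtain ⟨t, ht⟩ := key g hg0 (![0, 0, 1, 0, 2] : Fin 5 → ℕ) cg'
          apply concl_rot f g s t
          exact Or.inr (Or.inr (Or.inl ((hsr s t).trans (ex_f3 _ _ (hTr' s t) (hsr s t).symm (hlg t) (one_rot g t hg) ht hs))))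
        · obtain ⟨t, ht⟩ := key g hg0 (![0, 0, 2, 0, 1] : Fin 5 → ℕ) cg'
          apply concl_rot f g s t
          exact Or.inl (same_res _ _ (hTr s t) (fun x => (hs x).trans (ht x).symm)
            (hsr s t) (hlr s) (zero_rot f s hf) (zero_rot g t hg) (ht 0) (Or.inl (ht 1)))
    · have cg' : isrot 0 (g 1 % 22) (g 2 % 22) (g 3 % 22) (g 4 % 22) 0 0 0 1 3 = true ∨ isrot 0 (g 1 % 22) (g 2 % 22) (g 3 % 22) (g 4 % 22) 0 0 3 0 1 = true := by
        rcases cg with ⟨dk, cg⟩ | ⟨dk, cg⟩ | ⟨dk, cg⟩ | ⟨dk, cg⟩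
        · rw [ck] at dk; exact absurd dk (by decide)
        · rw [ck] at dk; exact absurd dk (by decide)
        · exact cg
        · rw [ck] at dk; exact absurd dk (by decide)
      rcases cf with cf | cf
      · obtain ⟨s, hs⟩ := key f hf0 (![0, 0, 0, 1, 3] : Fin 5 → ℕ) cf
        rcases cg' with cg' | cg'
        · obtain ⟨t, ht⟩ := key g hg0 (![0, 0, 0, 1, 3] : Fin 5 → ℕ) cg'
          apply concl_rot f g s t
          exact Or.inl (same_res _ _ (hTr s t) (fun x => (hs x).trans (ht x).symm)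
            (hsr s t) (hlr s) (zero_rot f s hf) (zero_rot g t hg) (ht 0) (Or.inl (ht 1)))
        · obtain ⟨t, ht⟩ := key g hg0 (![0, 0, 3, 0, 1] : Fin 5 → ℕ) cg'
          apply concl_rot f g s t
          exact Or.inr (Or.inr (Or.inr (ex_g1 _ _ (hTr s t) (hsr s t) (hlr s) (one_rot f s hf) hs ht)))
      · obtain ⟨s, hs⟩ := key f hf0 (![0, 0, 3, 0, 1] : Fin 5 → ℕ) cf
        rcases cg' with cg' | cg'
        · obtain ⟨t, ht⟩ := key g hg0 (![0, 0, 0, 1, 3] : Fin 5 → ℕ) cg'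
          apply concl_rot f g s t
          exact Or.inr (Or.inr (Or.inr ((hsr s t).trans (ex_g1 _ _ (hTr' s t) (hsr s t).symm (hlg t) (one_rot g t hg) ht hs))))
        · obtain ⟨t, ht⟩ := key g hg0 (![0, 0, 3, 0, 1] : Fin 5 → ℕ) cg'
          apply concl_rot f g s t
          exact Or.inl (same_res _ _ (hTr s t) (fun x => (hs x).trans (ht x).symm)
            (hsr s t) (hlr s) (zero_rot f s hf) (zero_rot g t hg) (ht 0) (Or.inl (ht 1)))
    · have cg' : isrot 0 (g 1 % 22) (g 2 % 22) (g 3 % 22) (g 4 % 22) 0 0 21 21 21 = true ∨ isrot 0 (g 1 % 22) (g 2 % 22) (g 3 % 22) (g 4 % 22) 0 21 0 21 21 = true := by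
        rcases cg with ⟨dk, cg⟩ | ⟨dk, cg⟩ | ⟨dk, cg⟩ | ⟨dk, cg⟩
        · rw [ck] at dk; exact absurd dk (by decide)
        · rw [ck] at dk; exact absurd dk (by decide)
        · rw [ck] at dk; exact absurd dk (by decide)
        · exact cg
      rcases cf with cf | cf
      · obtain ⟨s, hs⟩ := key f hf0 (![0, 0, 21, 21, 21] : Fin 5 → ℕ) cf
        rcases cg' with cg' | cg'
        · obtain ⟨t, ht⟩ := key g hg0 (![0, 0, 21, 21, 21] : Fin 5 → ℕ) cg'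
          apply concl_rot f g s t
          exact Or.inl (same_res _ _ (hTr s t) (fun x => (hs x).trans (ht x).symm)
            (hsr s t) (hlr s) (zero_rot f s hf) (zero_rot g t hg) (ht 0) (Or.inl (ht 1)))
        · obtain ⟨t, ht⟩ := key g hg0 (![0, 21, 0, 21, 21] : Fin 5 → ℕ) cg'
          apply concl_rot f g s t
          exact False.elim (ex_h1 _ _ (hTr s t) (hsr s t) (hlr s) (one_rot f s hf) hs ht)
      · obtain ⟨s, hs⟩ := key f hf0 (![0, 21, 0, 21, 21] : Fin 5 → ℕ) cf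
        rcases cg' with cg' | cg'
        · obtain ⟨t, ht⟩ := key g hg0 (![0, 0, 21, 21, 21] : Fin 5 → ℕ) cg'
          apply concl_rot f g s t
          exact False.elim (ex_h1 _ _ (hTr' s t) (hsr s t).symm (hlg t) (one_rot g t hg) ht hs)
        · obtain ⟨t, ht⟩ := key g hg0 (![0, 21, 0, 21, 21] : Fin 5 → ℕ) cg'
          apply concl_rot f g s t
          exact Or.inl (same_res _ _ (hTr s t) (fun x => (hs x).trans (ht x).symm)
            (hsr s t) (hlr s) (zero_rot f s hf) (zero_rot g t hg) (ht 0) (Or.inr (ht 2)))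

/-- canonical positions of the zeros -/
theorem canon (e : ZMod 5 → ℕ) (h : ∃ x y, x ≠ y ∧ e x = 0 ∧ e y = 0) :
    ∃ s, e (0 + s) = 0 ∧ ((e (1 + s) = 0 ∧ e (2 + s) ≠ 0 ∧ e (3 + s) ≠ 0 ∧ e (4 + s) ≠ 0) ∨
      (e (1 + s) ≠ 0 ∧ e (2 + s) = 0 ∧ e (3 + s) ≠ 0 ∧ e (4 + s) ≠ 0) ∨
      (e (1 + s) = 0 ∧ e (2 + s) = 0 ∧ e (3 + s) ≠ 0 ∧ e (4 + s) ≠ 0) ∨
      (e (1 + s) = 0 ∧ e (2 + s) ≠ 0 ∧ e (3 + s) = 0 ∧ e (4 + s) ≠ 0) ∨
      (e (1 + s) = 0 ∧ e (2 + s) = 0 ∧ e (3 + s) = 0 ∧ e (4 + s) ≠ 0) ∨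
      (e (1 + s) = 0 ∧ e (2 + s) = 0 ∧ e (3 + s) = 0 ∧ e (4 + s) = 0)) := by
  have key : ∀ z : Fin 5 → Bool, (∃ x y : Fin 5, x ≠ y ∧ z x = true ∧ z y = true) →
      ∃ s : Fin 5, z (0 + s) = true ∧
      ((z (1 + s) = true ∧ z (2 + s) = false ∧ z (3 + s) = false ∧ z (4 + s) = false) ∨
      (z (1 + s) = false ∧ z (2 + s) = true ∧ z (3 + s) = false ∧ z (4 + s) = false) ∨
      (z (1 + s) = true ∧ z (2 + s) = true ∧ z (3 + s) = false ∧ z (4 + s) = false) ∨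
      (z (1 + s) = true ∧ z (2 + s) = false ∧ z (3 + s) = true ∧ z (4 + s) = false) ∨
      (z (1 + s) = true ∧ z (2 + s) = true ∧ z (3 + s) = true ∧ z (4 + s) = false) ∨
      (z (1 + s) = true ∧ z (2 + s) = true ∧ z (3 + s) = true ∧ z (4 + s) = true)) := by
    decide +kernel
  obtain ⟨x, y, hxy, hx, hy⟩ := h
  obtain ⟨s, hs⟩ := key (fun x => decide (e x = 0)) ⟨x, y, hxy, by simpa using hx, by simpa using hy⟩
  refine ⟨s, ?_⟩
  simp only [decide_eq_true_eq, decide_eq_false_iff_not] at hs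
  exact hs

end Pool.Agent.Lib.MP_c53f59_gt.K60
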