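import Pool.Agent.Lib.MP_c53f59_gt.K60.S1Tab

/-! Kernel check: the linear systems of the descent have full rank. The ten numbers of a point w
are w - c x modulo 23 (x = 0..4) and the Fermat quotients of w - c x. -/

namespace Pool.Agent.Lib.MP_c53f59_gt.K60

/-- product for the vector (0,a,b,c,d) modulo 23 -/
def u4 (x y z u a b c d : Nat) : Nat := Nat.mod (tm4 x y z u a b c d) 23

def u3 (x y z p q r : Nat) : Nat := Nat.mod (tm x y z p q r) 23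

def dt (u0 u1 u2 u3 u4 t0 t1 t2 t3 t4 : Nat) : Nat :=
  Nat.add (Nat.add (Nat.add (Nat.add (Nat.mul u0 t0) (Nat.mul u1 t1)) (Nat.mul u2 t2))
    (Nat.mul u3 t3)) (Nat.mul u4 t4)

def X0 (d0 d1 d2 d3 d4 t0 t1 t2 t3 t4 p q r : Nat) : Nat :=
  Nat.add (dt (u3 d2 d3 d4 p q r) (u3 d3 d4 d0 p q r) (u3 d4 d0 d1 p q r) (u3 d0 d1 d2 p q r)
    (u3 d1 d2 d3 p q r) t2 t3 t4 t0 t1)
  (Nat.mul 22 (dt (u3 d2 d3 d4 p q r) (u3 d3 d4 d0 p q r) (u3 d4 d0 d1 p q r) (u3 d0 d1 d2 p q r)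
    (u3 d1 d2 d3 p q r) t4 t0 t1 t2 t3))

def Y0 (d0 d1 d2 d3 d4 t0 t1 t2 t3 t4 p q r : Nat) : Nat :=
  Nat.add (dt (u3 d2 d3 d4 p q r) (u3 d3 d4 d0 p q r) (u3 d4 d0 d1 p q r) (u3 d0 d1 d2 p q r)
    (u3 d1 d2 d3 p q r) t3 t4 t0 t1 t2)
  (Nat.mul 22 (dt (u3 d2 d3 d4 p q r) (u3 d3 d4 d0 p q r) (u3 d4 d0 d1 p q r) (u3 d0 d1 d2 p q r)
    (u3 d1 d2 d3 p q r) t4 t0 t1 t2 t3))

def X1 (d0 d1 d2 d3 d4 t0 t1 t2 t3 t4 p q r : Nat) : Nat :=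
  Nat.add (dt (u3 d1 d3 d4 p q r) (u3 d2 d4 d0 p q r) (u3 d3 d0 d1 p q r) (u3 d4 d1 d2 p q r)
    (u3 d0 d2 d3 p q r) t1 t2 t3 t4 t0)
  (Nat.mul 22 (dt (u3 d1 d3 d4 p q r) (u3 d2 d4 d0 p q r) (u3 d3 d0 d1 p q r) (u3 d4 d1 d2 p q r)
    (u3 d0 d2 d3 p q r) t4 t0 t1 t2 t3))

def Y1 (d0 d1 d2 d3 d4 t0 t1 t2 t3 t4 p q r : Nat) : Nat :=
  Nat.add (dt (u3 d1 d3 d4 p q r) (u3 d2 d4 d0 p q r) (u3 d3 d0 d1 p q r) (u3 d4 d1 d2 p q r)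
    (u3 d0 d2 d3 p q r) t3 t4 t0 t1 t2)
  (Nat.mul 22 (dt (u3 d1 d3 d4 p q r) (u3 d2 d4 d0 p q r) (u3 d3 d0 d1 p q r) (u3 d4 d1 d2 p q r)
    (u3 d0 d2 d3 p q r) t4 t0 t1 t2 t3))

def nd2 (X Y X' Y' : Nat) : Bool :=
  Bool.not (Nat.beq (Nat.mod (Nat.mul X Y') 23) (Nat.mod (Nat.mul Y X') 23))

def cB0 (p q r : Nat) : Bool :=
  nd2 (X0 10 14 18 13 20 6 9 1 15 15 p q r) (Y0 10 14 18 13 20 6 9 1 15 15 p q r)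
      (X0 17 21 2 20 4 3 8 15 2 1 p q r) (Y0 17 21 2 20 4 3 8 15 2 1 p q r) ||
  (nd2 (X0 11 15 19 14 21 1 20 12 6 14 p q r) (Y0 11 15 19 14 21 1 20 12 6 14 p q r)
      (X0 16 20 1 19 3 15 11 19 17 19 p q r) (Y0 16 20 1 19 3 15 11 19 17 19 p q r) ||
  nd2 (X0 9 13 17 12 19 19 20 4 5 21 p q r) (Y0 9 13 17 12 19 19 20 4 5 21 p q r)
      (X0 12 16 20 15 22 11 16 3 8 17 p q r) (Y0 12 16 20 15 22 11 16 3 8 17 p q r))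

def cB1 (p q r : Nat) : Bool :=
  nd2 (X1 10 14 18 13 20 6 9 1 15 15 p q r) (Y1 10 14 18 13 20 6 9 1 15 15 p q r)
      (X1 17 21 2 20 4 3 8 15 2 1 p q r) (Y1 17 21 2 20 4 3 8 15 2 1 p q r) ||
  (nd2 (X1 11 15 19 14 21 1 20 12 6 14 p q r) (Y1 11 15 19 14 21 1 20 12 6 14 p q r)
      (X1 16 20 1 19 3 15 11 19 17 19 p q r) (Y1 16 20 1 19 3 15 11 19 17 19 p q r) ||
  nd2 (X1 9 13 17 12 19 19 20 4 5 21 p q r) (Y1 9 13 17 12 19 19 20 4 5 21 p q r)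
      (X1 12 16 20 15 22 11 16 3 8 17 p q r) (Y1 12 16 20 15 22 11 16 3 8 17 p q r))

/-- rho x + 22 rho 0 for the vector (0,a,b,c,d): R1 to R4 -/
def rr (d0 d1 d2 d3 d4 t0 t1 t2 t3 t4 s0 s1 s2 s3 s4 a b c d : Nat) : Nat :=
  Nat.add (dt (u4 d1 d2 d3 d4 a b c d) (u4 d2 d3 d4 d0 a b c d) (u4 d3 d4 d0 d1 a b c d)
    (u4 d4 d0 d1 d2 a b c d) (u4 d0 d1 d2 d3 a b c d) t0 t1 t2 t3 t4)
  (Nat.mul 22 (dt (u4 d1 d2 d3 d4 a b c d) (u4 d2 d3 d4 d0 a b c d) (u4 d3 d4 d0 d1 a b c d)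
    (u4 d4 d0 d1 d2 a b c d) (u4 d0 d1 d2 d3 a b c d) s0 s1 s2 s3 s4))

def R1 (d0 d1 d2 d3 d4 t0 t1 t2 t3 t4 a b c d : Nat) : Nat :=
  rr d0 d1 d2 d3 d4 t1 t2 t3 t4 t0 t0 t1 t2 t3 t4 a b c d
def R2 (d0 d1 d2 d3 d4 t0 t1 t2 t3 t4 a b c d : Nat) : Nat :=
  rr d0 d1 d2 d3 d4 t2 t3 t4 t0 t1 t0 t1 t2 t3 t4 a b c d
def R3 (d0 d1 d2 d3 d4 t0 t1 t2 t3 t4 a b c d : Nat) : Nat :=
  rr d0 d1 d2 d3 d4 t3 t4 t0 t1 t2 t0 t1 t2 t3 t4 a b c d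
def R4 (d0 d1 d2 d3 d4 t0 t1 t2 t3 t4 a b c d : Nat) : Nat :=
  rr d0 d1 d2 d3 d4 t4 t0 t1 t2 t3 t0 t1 t2 t3 t4 a b c d

def mn (a b c d : Nat) : Nat := Nat.add (Nat.mul a d) (Nat.mul 22 (Nat.mul b c))

def det4 (a0 a1 a2 a3 b0 b1 b2 b3 c0 c1 c2 c3 d0 d1 d2 d3 : Nat) : Nat :=
  Nat.mod (Nat.add (Nat.add (Nat.add (Nat.add (Nat.add (Nat.mul (mn a0 a1 b0 b1) (mn c2 c3 d2 d3))
    (Nat.mul 22 (Nat.mul (mn a0 a2 b0 b2) (mn c1 c3 d1 d3))))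
    (Nat.mul (mn a0 a3 b0 b3) (mn c1 c2 d1 d2)))
    (Nat.mul (mn a1 a2 b1 b2) (mn c0 c3 d0 d3)))
    (Nat.mul 22 (Nat.mul (mn a1 a3 b1 b3) (mn c0 c2 d0 d2))))
    (Nat.mul (mn a2 a3 b2 b3) (mn c0 c1 d0 d1))) 23

def cC (a b c d : Nat) : Bool :=
  Nat.beq (Nat.add (Nat.add (Nat.add a b) c) d) 0 ||
  (Bool.not (Nat.beq (det4
    (R1 9 13 17 12 19 19 20 4 5 21 a b c d) (R2 9 13 17 12 19 19 20 4 5 21 a b c d) (R3 9 13 17 12 19 19 20 4 5 21 a b c d) (R4 9 13 17 12 19 19 20 4 5 21 a b c d)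
    (R1 12 16 20 15 22 11 16 3 8 17 a b c d) (R2 12 16 20 15 22 11 16 3 8 17 a b c d) (R3 12 16 20 15 22 11 16 3 8 17 a b c d) (R4 12 16 20 15 22 11 16 3 8 17 a b c d)
    (R1 16 20 1 19 3 15 11 19 17 19 a b c d) (R2 16 20 1 19 3 15 11 19 17 19 a b c d) (R3 16 20 1 19 3 15 11 19 17 19 a b c d) (R4 16 20 1 19 3 15 11 19 17 19 a b c d)
    (R1 17 21 2 20 4 3 8 15 2 1 a b c d) (R2 17 21 2 20 4 3 8 15 2 1 a b c d) (R3 17 21 2 20 4 3 8 15 2 1 a b c d) (R4 17 21 2 20 4 3 8 15 2 1 a b c d)) 0) ||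
  Bool.not (Nat.beq (det4
    (R1 9 13 17 12 19 19 20 4 5 21 a b c d) (R2 9 13 17 12 19 19 20 4 5 21 a b c d) (R3 9 13 17 12 19 19 20 4 5 21 a b c d) (R4 9 13 17 12 19 19 20 4 5 21 a b c d)
    (R1 10 14 18 13 20 6 9 1 15 15 a b c d) (R2 10 14 18 13 20 6 9 1 15 15 a b c d) (R3 10 14 18 13 20 6 9 1 15 15 a b c d) (R4 10 14 18 13 20 6 9 1 15 15 a b c d)
    (R1 11 15 19 14 21 1 20 12 6 14 a b c d) (R2 11 15 19 14 21 1 20 12 6 14 a b c d) (R3 11 15 19 14 21 1 20 12 6 14 a b c d) (R4 11 15 19 14 21 1 20 12 6 14 a b c d)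
    (R1 18 22 3 21 5 9 5 8 6 6 a b c d) (R2 18 22 3 21 5 9 5 8 6 6 a b c d) (R3 18 22 3 21 5 9 5 8 6 6 a b c d) (R4 18 22 3 21 5 9 5 8 6 6 a b c d)) 0))

def L21 : List Nat := [1,2,3,4,5,6,7,8,9,10,11,12,13,14,15,16,17,18,19,20,21]

set_option maxRecDepth 100000 in
theorem kB0 : (L21.all fun p => L21.all fun q => L21.all fun r => cB0 p q r) = true := by
  decide +kernel

set_option maxRecDepth 100000 in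
theorem kB1 : (L21.all fun p => L21.all fun q => L21.all fun r => cB1 p q r) = true := by
  decide +kernel

set_option maxRecDepth 100000 in
theorem kC0 : (L22.all fun q => L22.all fun r => cC 0 0 q r && (cC 0 q 0 r && (cC 0 q r 0 &&
    (cC q 0 0 r && cC q 0 r 0)))) = true := by
  decide +kernel

end Pool.Agent.Lib.MP_c53f59_gt.K60
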